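import Pool.Agent.P.MP_7a6434d8_pr.QL.Net.Conn

/-! Block NET: nets are eventually fine. -/

open Set Filter Topology Metric
open scoped ENNReal

namespace Pool.Agent.QL

open Pool.Agent.LGD

theorem norm_le_of_crect {x₀ x₁ y₀ y₁ a b : ℝ} {w : ℂ} (h : w ∈ crect x₀ x₁ y₀ y₁) (h0 : -a ≤ x₀)
    (h1 : x₁ ≤ a) (h2 : -b ≤ y₀) (h3 : y₁ ≤ b) : ‖w‖ ≤ a + b := (Complex.norm_le_abs_re_add_abs_im w).trans (add_le_add
    (abs_le.2 ⟨h0.trans h.1.1, h.1.2.trans h1⟩) (abs_le.2 ⟨h2.trans h.2.1, h.2.2.trans h3⟩))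

theorem mem_crect_of_near {x₀ x₁ y₀ y₁ t : ℝ} {w w' : ℂ} (h : w ∈ crect x₀ x₁ y₀ y₁)
    (h' : ‖w' - w‖ ≤ t) : w' ∈ crect (x₀ - t) (x₁ + t) (y₀ - t) (y₁ + t) := by
  have h1 := abs_le.1 ((Complex.abs_re_le_norm (w' - w)).trans h')
  have h2 := abs_le.1 ((Complex.abs_im_le_norm (w' - w)).trans h')
  rw [Complex.sub_re] at h1
  rw [Complex.sub_im] at h2
  exact ⟨⟨by linarith [h.1.1, h1.1], by linarith [h.1.2, h1.2]⟩,
    ⟨by linarith [h.2.1, h2.1], by linarith [h.2.2, h2.2]⟩⟩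

theorem crect_mono {x₀ x₁ y₀ y₁ x₀' x₁' y₀' y₁' : ℝ} (h0 : x₀' ≤ x₀) (h1 : x₁ ≤ x₁') (h2 : y₀' ≤ y₀)
    (h3 : y₁ ≤ y₁') : crect x₀ x₁ y₀ y₁ ⊆ crect x₀' x₁' y₀' y₁' := fun _ h =>
  ⟨⟨h0.trans h.1.1, h.1.2.trans h1⟩, h2.trans h.2.1, h.2.2.trans h3⟩

theorem Bd.mono {R x₀ x₁ y₀ y₁ x₀' x₁' y₀' y₁' : ℝ} (h : Bd R x₀' x₁' y₀' y₁') (h0 : x₀' ≤ x₀)
    (h1 : x₁ ≤ x₁') (h2 : y₀' ≤ y₀) (h3 : y₁ ≤ y₁') : Bd R x₀ x₁ y₀ y₁ := fun w hw =>
  h w (crect_mono h0 h1 h2 h3 hw)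

theorem Bd.pt {R x₀ x₁ y₀ y₁ x y : ℝ} (h : Bd R x₀ x₁ y₀ y₁) (h0 : x₀ ≤ x) (h1 : x ≤ x₁)
    (h2 : y₀ ≤ y) (h3 : y ≤ y₁) : ‖(⟨x, y⟩ : ℂ)‖ ≤ R := h _ ⟨⟨h0, h1⟩, h2, h3⟩

theorem exists_bd (x₀ x₁ y₀ y₁ : ℝ) : ∃ R, Bd R x₀ x₁ y₀ y₁ :=
  ⟨|x₀| + |x₁| + (|y₀| + |y₁|), fun _ h => norm_le_of_crect h
    (by linarith [neg_abs_le x₀, abs_nonneg x₁]) (by linarith [le_abs_self x₁, abs_nonneg x₀])
    (by linarith [neg_abs_le y₀, abs_nonneg y₁]) (by linarith [le_abs_self y₁, abs_nonneg y₀])⟩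

theorem bd_of_le {R x₀ x₁ y₀ y₁ a b : ℝ} (h0 : -a ≤ x₀) (h1 : x₁ ≤ a) (h2 : -b ≤ y₀) (h3 : y₁ ≤ b)
    (h : a + b ≤ R) : Bd R x₀ x₁ y₀ y₁ := fun _ hw => (norm_le_of_crect hw h0 h1 h2 h3).trans h

namespace FMap

variable {M : FMap} {p : M.D → ℂ} {R η : ℝ}

theorem Fine.dual (h : M.Fine p R η) : M.dual.Fine p R η :=
  ⟨fun d e hd ha => h.mesh d e hd (FNet.adj_dual.1 ha), h.dense, h.con', h.con⟩

theorem Fine.mono (h : M.Fine p R η) {R' η' : ℝ} (hR : R' ≤ R) (hη : η ≤ η') :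
    M.Fine p R' η' :=
  ⟨fun d e hd ha => (h.mesh d e (hd.trans hR) ha).trans hη,
    fun x hx => (h.dense x (hx.trans hR)).imp fun _ hd => hd.trans hη,
    fun d e hd he => (h.con d e (hd.trans hR) (he.trans hR)).mono
      (ed_mono fun _ hx => hx.imp fun _ hw => ⟨hw.1, hw.2.trans hη⟩),
    fun d e hd he => (h.con' d e (hd.trans hR) (he.trans hR)).mono
      (ed_mono (M := M) fun _ hx => hx.imp fun _ hw => ⟨hw.1, hw.2.trans hη⟩)⟩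

theorem Fine.alpha (h : M.Fine p R η) {d : M.D} (hd : ‖p d‖ ≤ R) : ‖p (M.α d) - p d‖ ≤ η :=
  h.mesh d _ hd (.inl rfl)

theorem Fine.sigma (h : M.Fine p R η) {d e : M.D} (hd : ‖p d‖ ≤ R) (hs : M.σ.SameCycle d e) :
    ‖p e - p d‖ ≤ η := h.mesh d e hd (.inr (.inr hs))

theorem Fine.phi (h : M.Fine p R η) {d e : M.D} (hd : ‖p d‖ ≤ R) (hs : M.φ.SameCycle d e) :
    ‖p e - p d‖ ≤ η := h.mesh d e hd (.inr (.inl hs))

/-- Paths inside a slightly larger rectangle. -/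
theorem Fine.con_crect (h : M.Fine p R η) {x₀ x₁ y₀ y₁ : ℝ} {d e : M.D} (hd : ‖p d‖ ≤ R)
    (he : ‖p e‖ ≤ R) (hd' : p d ∈ crect x₀ x₁ y₀ y₁) (he' : p e ∈ crect x₀ x₁ y₀ y₁) :
    M.Con (M.ed (p ⁻¹' crect (x₀ - η) (x₁ + η) (y₀ - η) (y₁ + η))) d e := by
  have hc : Convex ℝ (crect x₀ x₁ y₀ y₁) :=
    ((convex_Icc x₀ x₁).linear_preimage Complex.reLm).inter
      ((convex_Icc y₀ y₁).linear_preimage Complex.imLm)
  refine (h.con d e hd he).mono (ed_mono ?_)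
  rintro x ⟨w, hw, hx⟩
  exact mem_crect_of_near (hc.segment_subset hd' he' hw) hx

/-- A dart near a given point. -/
theorem Fine.near (h : M.Fine p R η) (x y : ℝ) (hR : ‖(⟨x, y⟩ : ℂ)‖ ≤ R) :
    ∃ d, p d ∈ crect (x - η) (x + η) (y - η) (y + η) ∧ ‖p d - ⟨x, y⟩‖ ≤ η :=
  (h.dense _ hR).imp fun _ hd =>
    ⟨mem_crect_of_near (w := ⟨x, y⟩) ⟨⟨le_rfl, le_rfl⟩, le_rfl, le_rfl⟩ hd, hd⟩

/-- First exit from a bounded set. -/
theorem Fine.exit (h : M.Fine p R η) {S : Set ℂ} (hS : ∀ w ∈ S, ‖w‖ ≤ R) {Δ : Set M.D}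
    {u v : M.D} (hu : p u ∈ S) (hv : p v ∉ S) (hc : M.Con Δ u v) :
    ∃ v', M.Con Δ u v' ∧ p v' ∉ S ∧ ∃ w ∈ S, ‖p v' - w‖ ≤ η := by
  refine Or.resolve_left ?_ hv
  clear hv
  induction hc with
  | refl => exact .inl hu
  | @tail b c h1 h2 ih =>
    rcases ih with ih | ih
    · by_cases h3 : p c ∈ S
      · exact .inl h3
      · exact .inr ⟨c, h1.tail h2, h3, p b, ih, h.mesh b c (hS _ ih) h2.adj⟩
    · exact .inr ih

/-- The indicator of the vertices on one side of a level line. -/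
theorem Fine.ind (h : M.Fine p R η) (L : ℂ → ℝ) (hL : ∀ w w', |L w - L w'| ≤ ‖w - w'‖) (t : ℝ) :
    ∃ f : M.D → ℝ, Inv M.σ f ∧ (∀ d, f d = 0 ∨ f d = 1) ∧
      (∀ d, ‖p d‖ ≤ R → L (p d) < t - η → f d = 0) ∧ ∀ d, t ≤ L (p d) → f d = 1 := by
  classical
  refine ⟨fun d => if ∃ e, M.σ.SameCycle d e ∧ t ≤ L (p e) then 1 else 0, fun d => ?_,
    fun d => ?_, fun d hd h1 => if_neg ?_, fun d hd => if_pos ⟨d, .refl _ _, hd⟩⟩
  · simp only [Equiv.Perm.sameCycle_apply_left]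
  · beta_reduce
    split_ifs
    exacts [.inr rfl, .inl rfl]
  · rintro ⟨e, hs, h2⟩
    linarith [(abs_le.1 ((hL _ _).trans (h.sigma hd hs))).2]

private theorem nfine_step {T : Set ℂ}
    (hm : ∀ d e, ‖p d‖ ≤ R + η → M.Adj d e → ‖p e - p d‖ ≤ η / 8) (hη : 0 ≤ η) {x y : M.D}
    (ha : M.Adj x y) {w : ℂ} (hw : w ∈ T) (hR : ‖w‖ ≤ R) (hx : ‖p x - w‖ ≤ η / 2) :
    M.Con (M.ed {z | ∃ w ∈ T, ‖p z - w‖ ≤ η}) x y := by
  have key : ∀ z z', ‖p z - w‖ ≤ η → M.Adj z z' → ‖p z' - w‖ ≤ ‖p z - w‖ + η / 8 :=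
    fun z z' h1 h2 => by
      linarith [hm z z' (by linarith [norm_sub_norm_le (p z) w]) h2,
        norm_sub_le_norm_sub_add_norm_sub (p z') (p z) w]
  have hed : ∀ z, ‖p z - w‖ ≤ 3 * η / 4 → z ∈ M.ed {z | ∃ w ∈ T, ‖p z - w‖ ≤ η} := fun z h1 =>
    ⟨⟨w, hw, by linarith⟩, w, hw, by linarith [key z _ (by linarith) (.inl rfl)]⟩
  rcases ha with rfl | ha | ha
  · exact Con.alpha (.inl (hed x (by linarith)))
  · exact con_face (fun z hz => hed z (by linarith [key x z (by linarith) (.inr (.inl hz))])) ha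
  · exact Con.of_same _ ha

private theorem nfine_con {η' δ : ℝ} (hδ : 0 < δ) (h3 : 3 * δ ≤ η') (h4 : δ ≤ η / 4)
    (hm : ∀ d e, ‖p d‖ ≤ R + η → M.Adj d e → ‖p e - p d‖ ≤ η / 8)
    (hl : ∀ d d', ‖p d‖ ≤ R + η → ‖p d' - p d‖ ≤ η' →
      Relation.ReflTransGen (fun e e' => M.Adj e e' ∧ ‖p e' - p d‖ ≤ η / 4) d d')
    (hd : ∀ x : ℂ, ‖x‖ ≤ R → ∃ d, ‖p d - x‖ ≤ δ) (d e : M.D) (h1 : ‖p d‖ ≤ R) (h2 : ‖p e‖ ≤ R) :
    M.Con (M.ed {x | ∃ w ∈ segment ℝ (p d) (p e), ‖p x - w‖ ≤ η}) d e := by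
  have hη : 0 ≤ η := by linarith
  have hT : ∀ w ∈ segment ℝ (p d) (p e), ‖w‖ ≤ R := fun w hw =>
    mem_closedBall_zero_iff.1 ((convex_closedBall (0 : ℂ) R).segment_subset
      (mem_closedBall_zero_iff.2 h1) (mem_closedBall_zero_iff.2 h2) hw)
  have hch : ∀ w ∈ segment ℝ (p d) (p e), ∀ x y, ‖p x - w‖ ≤ δ → ‖p y - p x‖ ≤ η' →
      M.Con (M.ed {x | ∃ w ∈ segment ℝ (p d) (p e), ‖p x - w‖ ≤ η}) x y := by
    intro w hw x y hx hy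
    have hc := hl x y (by linarith [norm_sub_norm_le (p x) w, hT w hw]) hy
    refine And.left (b := ‖p y - p x‖ ≤ η / 4) ?_
    clear hy
    induction hc with
    | refl => exact ⟨Con.refl _ _, by rw [sub_self, norm_zero]; linarith⟩
    | @tail b c _ h6 ih =>
      exact ⟨ih.1.trans (nfine_step hm hη h6.1 hw (hT w hw)
        (by linarith [ih.2, norm_sub_le_norm_sub_add_norm_sub (p b) (p x) w])), h6.2⟩
  have key : ∀ n : ℕ, ∀ w ∈ segment ℝ (p d) (p e), ‖w - p d‖ ≤ n * δ → ∀ x, ‖p x - w‖ ≤ δ →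
      M.Con (M.ed {x | ∃ w ∈ segment ℝ (p d) (p e), ‖p x - w‖ ≤ η}) d x := by
    intro n
    induction n with
    | zero =>
      intro w _ h5 x hx
      rw [Nat.cast_zero, zero_mul] at h5
      exact hch _ (left_mem_segment ℝ _ _) d x (by rw [sub_self, norm_zero]; exact hδ.le)
        (by linarith [norm_sub_le_norm_sub_add_norm_sub (p x) w (p d)])
    | succ n ih =>
      intro w hw h5 x hx
      have hn : (0 : ℝ) < n + 1 := by positivity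
      have hw' := (convex_segment (p d) (p e)).add_smul_sub_mem (left_mem_segment ℝ _ _) hw
        (t := (n : ℝ) / (n + 1)) ⟨by positivity, (div_le_one hn).2 (by linarith)⟩
      rw [Nat.cast_succ] at h5
      have h6 : ‖w - p d‖ / (n + 1) ≤ δ := (div_le_iff₀' hn).2 h5
      obtain ⟨y, hy⟩ := hd _ (hT _ hw')
      have h7 : ‖w - (p d + ((n : ℝ) / (n + 1)) • (w - p d))‖ ≤ δ := by
        rw [← sub_sub, show w - p d - ((n : ℝ) / (n + 1)) • (w - p d) =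
          (1 - (n : ℝ) / (n + 1)) • (w - p d) by rw [sub_smul, one_smul], norm_smul,
          show 1 - (n : ℝ) / (n + 1) = 1 / (n + 1) by field_simp; ring,
          Real.norm_of_nonneg (by positivity), one_div_mul_eq_div]
        exact h6
      refine (ih _ hw' ?_ y hy).trans (hch _ hw' y x hy ?_)
      · rw [add_sub_cancel_left, norm_smul, Real.norm_of_nonneg (by positivity), div_mul_eq_mul_div,
          mul_div_assoc]
        exact mul_le_mul_of_nonneg_left h6 n.cast_nonneg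
      · rw [norm_sub_rev] at hy
        linarith [norm_sub_le_norm_sub_add_norm_sub (p x) w (p y),
          norm_sub_le_norm_sub_add_norm_sub w (p d + ((n : ℝ) / (n + 1)) • (w - p d)) (p y)]
  obtain ⟨n, hn⟩ := exists_nat_ge (‖p e - p d‖ / δ)
  exact key n _ (right_mem_segment ℝ _ _) ((div_le_iff₀ hδ).1 hn) e
    (by rw [sub_self, norm_zero]; exact hδ.le)

end FMap

theorem FNet.fine (N : FNet) (R : ℝ) {η : ℝ} (hη : 0 < η) :
    ∀ᶠ k in (N.U : Filter ℕ), (N.M k).Fine (N.p k) R η := by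
  obtain ⟨η', h1, h2⟩ := N.lift (R + η) (η / 4) (by positivity)
  obtain ⟨δ, hδ, h3, h4⟩ : ∃ δ : ℝ, 0 < δ ∧ 3 * δ ≤ η' ∧ δ ≤ η / 4 :=
    ⟨min (η' / 3) (η / 4), by positivity, by linarith [min_le_left (η' / 3) (η / 4)],
      min_le_right _ _⟩
  obtain ⟨t, -, ht, hc⟩ := finite_cover_balls_of_compact (isCompact_closedBall (0 : ℂ) R)
    (half_pos hδ)
  filter_upwards [h2, N.mesh (R + η) (η / 8) (by positivity),
    (eventually_all_finite ht).2 fun c _ => N.dense c (δ / 2) (half_pos hδ)] with k hl hm hd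
  have hd' : ∀ x : ℂ, ‖x‖ ≤ R → ∃ d, ‖N.p k d - x‖ ≤ δ := fun x hx => by
    obtain ⟨c, hct, h5⟩ := mem_iUnion₂.1 (hc (mem_closedBall_zero_iff.2 hx))
    obtain ⟨d, h6⟩ := hd c hct
    rw [mem_ball, dist_comm, dist_eq_norm] at h5
    exact ⟨d, by linarith [norm_sub_le_norm_sub_add_norm_sub (N.p k d) c x]⟩
  refine ⟨fun d e h5 ha => (hm d e (by linarith) ha).trans (by linarith),
    fun x hx => (hd' x hx).imp fun _ h => h.trans (by linarith),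
    FMap.nfine_con hδ h3 h4 hm hl hd',
    FMap.nfine_con (M := (N.M k).dual) hδ h3 h4 (fun d e h5 ha => hm d e h5 (adj_dual.1 ha))
      (fun d d' h5 h6 => Relation.ReflTransGen.mono
        (fun _ _ h => And.intro (adj_dual.2 h.1) h.2) _ _ (hl d d' h5 h6)) hd'⟩

end Pool.Agent.QL
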