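import Pool.Agent.P.MP_7a6434d8_pr.QL.Net.Wt

/-! Block NET: minimisers and extremal length. -/

open Set Filter Topology Metric
open scoped ENNReal

namespace Pool.Agent.QL

open Pool.Agent.LGD

namespace FMap

variable {M : FMap} {K K' A B : Set M.D} {C C' : List (Set M.D × ℝ × ℝ)} {f : M.D → ℝ} {x : ℝ}

theorem dE_le (h : M.Adm C f) : M.dE K C ≤ ENNReal.ofReal (M.en K f) :=
  iInf_le_of_le f (iInf_le_of_le h.1 (iInf_le _ h.2))

theorem le_dE {a : ℝ≥0∞} (h : ∀ f, M.Adm C f → a ≤ ENNReal.ofReal (M.en K f)) :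
    a ≤ M.dE K C :=
  le_iInf fun f => le_iInf fun h1 => le_iInf fun h2 => h f ⟨h1, h2⟩

theorem dE_mono (hK : K ⊆ K')
    (hC : ∀ c ∈ C, ∃ c' ∈ C', c.1 ⊆ c'.1 ∧ c.2.1 ≤ c'.2.1 ∧ c'.2.2 ≤ c.2.2) :
    M.dE K C ≤ M.dE K' C' := by
  refine le_dE fun f hf => (dE_le ⟨hf.1, fun c hc d hd => ?_⟩).trans
    (ENNReal.ofReal_le_ofReal (en_mono hK f))
  obtain ⟨c', hc', h1, h2, h3⟩ := hC c hc
  exact ⟨h2.trans (hf.2 c' hc' d (h1 hd)).1, (hf.2 c' hc' d (h1 hd)).2.trans h3⟩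

theorem adm_zon : M.Adm (zon K A B).2 f ↔
    Inv M.σ f ∧ (∀ d ∈ A, f d = 0) ∧ ∀ d ∈ B, f d = 1 := by
  simp only [Adm, zon, List.forall_mem_cons, Icc_self, mem_singleton_iff, List.not_mem_nil,
    false_imp_iff, implies_true, and_true]

/-- Existence of a minimiser, with the variational inequality. -/
theorem exists_min (K : Set M.D) (h : ∃ f, M.Adm C f) : ∃ f, M.Adm C f ∧
    M.dE K C = ENNReal.ofReal (M.en K f) ∧ ∀ g, M.Adm C g → M.en K f ≤ M.bil K f g := by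
  obtain ⟨B₀, hB⟩ := (C.finite_toSet.image fun c => max c.2.1 (-c.2.2)).bddAbove
  have hB' : ∀ c ∈ C, c.2.1 ≤ |B₀| ∧ -|B₀| ≤ c.2.2 := fun c hc => by
    have h1 := max_le_iff.1 ((hB ⟨c, hc, rfl⟩).trans (le_abs_self B₀))
    exact ⟨h1.1, neg_le.1 h1.2⟩
  have hle : -|B₀| ≤ |B₀| := neg_le_self (abs_nonneg _)
  let S : Set (M.D → ℝ) := Set.pi univ (fun _ => Icc (-|B₀|) |B₀|) ∩ {f | M.Adm C f}
  let cl : (M.D → ℝ) → M.D → ℝ := fun g d => projIcc _ _ hle (g d)
  have h1 : ∀ g, M.Adm C g → cl g ∈ S := fun g hg => by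
    refine ⟨fun d _ => (projIcc _ _ hle (g d)).2, fun d => by simp only [cl, hg.1 d],
      fun c hc d hd => ⟨?_, ?_⟩⟩
    · exact le_max_of_le_right (le_min (hB' c hc).1 (hg.2 c hc d hd).1)
    · exact max_le (hB' c hc).2 (min_le_of_right_le (hg.2 c hc d hd).2)
  have h2 : ∀ g, M.en K (cl g) ≤ M.en K g := fun g => by
    refine mul_le_mul_of_nonneg_left (Finset.sum_le_sum fun d _ => ?_) (by norm_num)
    split_ifs
    · exact sq_le_sq.2 (abs_projIcc_sub_projIcc hle)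
    · exact le_rfl
  have h3 : IsClosed {f | M.Adm C f} := by
    simp only [Adm, Inv, ofPred_and, ofPred_forall]
    exact (isClosed_iInter fun d => isClosed_eq (continuous_apply (M.σ d)) (continuous_apply d)).inter
      (isClosed_iInter fun c => isClosed_iInter fun _ => isClosed_iInter fun d =>
        isClosed_iInter fun _ => isClosed_Icc.preimage (continuous_apply d))
  have h4 : Continuous (M.en K) := by
    refine continuous_const.mul (continuous_finsetSum _ fun d _ => ?_)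
    split_ifs
    · fun_prop
    · exact continuous_const
  obtain ⟨f₀, hf₀⟩ := h
  obtain ⟨f, hf, hm⟩ := ((isCompact_univ_pi fun _ => isCompact_Icc).inter_right h3).exists_isMinOn
    ⟨_, h1 f₀ hf₀⟩ h4.continuousOn
  have h5 : ∀ g, M.Adm C g → M.en K f ≤ M.en K g := fun g hg => (hm (h1 g hg)).trans (h2 g)
  refine ⟨f, hf.2, le_antisymm (dE_le hf.2)
    (le_dE fun g hg => ENNReal.ofReal_le_ofReal (h5 g hg)), fun g hg => ?_⟩
  let u : M.D → ℝ := fun d => g d - f d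
  have h6 : ∀ t : ℝ, 0 < t → t ≤ 1 → 0 ≤ 2 * M.bil K f u + t * M.en K u := fun t h0 ht => by
    have h7 := h5 (fun d => f d + t * u d) ⟨fun d => by simp only [u, hf.2.1 d, hg.1 d],
      fun c hc d hd => by
        have a1 := hf.2.2 c hc d hd
        have a2 := hg.2 c hc d hd
        constructor <;> simp only [u] <;> nlinarith [a1.1, a1.2, a2.1, a2.2]⟩
    rw [← bil_self K fun d => f d + t * u d, bil_add, bil_mul, bil_comm K _ f, bil_comm K _ u,
      bil_add, bil_add, bil_mul, bil_mul, bil_self, bil_self, bil_comm K u f] at h7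
    refine le_of_mul_le_mul_left ?_ h0
    linarith
  have h8 : M.bil K f u = M.bil K f g - M.en K f := by rw [bil_sub, bil_self]
  by_contra hn
  have hb : 0 < -M.bil K f u := by linarith [not_le.1 hn]
  have hE := en_nonneg K u
  have h9 := h6 (min 1 (-M.bil K f u / (M.en K u + 1))) (by positivity) (min_le_left _ _)
  have h10 := (le_div_iff₀ (by positivity)).1
    (min_le_right 1 (-M.bil K f u / (M.en K u + 1)))
  have h11 : 0 < min 1 (-M.bil K f u / (M.en K u + 1)) := by positivity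
  nlinarith

/-- An upper bound for the least energy by test functions. -/
theorem dE_le_of_test (h : ∀ f, ∃ g, M.Adm C g ∧ M.bil K f g ≤ √(x * M.en K f)) :
    M.dE K C ≤ ENNReal.ofReal x := by
  obtain ⟨f, -, e, hf⟩ := exists_min K ((h 0).imp fun _ h => h.1)
  obtain ⟨g, hg, h1⟩ := h f
  rw [e]
  rcases (en_nonneg K f).eq_or_lt with h0 | h0
  · rw [← h0, ENNReal.ofReal_zero]
    exact zero_le
  · have h2 := (Real.le_sqrt' h0).1 ((hf g hg).trans h1)
    exact ENNReal.ofReal_le_ofReal (le_of_mul_le_mul_right (by rwa [← pow_two]) h0)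

/-- The distance from `A`, cut at the length of the shortest path, is a test function. -/
theorem nmin_le {ρ : M.D → ℝ} {l : ℝ} (hρ : M.IsW ρ) (hl : 0 < l)
    (h : ∀ Γ ⊆ M.ed K, ∀ d ∈ A, ∀ e ∈ B, M.Con Γ d e → l ≤ M.wt ρ Γ) :
    M.dE K (zon K A B).2 ≤ ENNReal.ofReal (M.sq K ρ / l ^ 2) := by
  classical
  let S : M.D → Set ℝ := fun d =>
    insert l {t | ∃ Γ ⊆ M.ed K, (∃ a ∈ A, M.Con Γ a d) ∧ t = M.wt ρ Γ}
  have h0 : ∀ d, (0 : ℝ) ∈ lowerBounds (S d) := fun d => by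
    rintro t (rfl | ⟨Γ, -, -, rfl⟩)
    exacts [hl.le, wt_nonneg hρ.1 Γ]
  have hS : ∀ d, ∀ t ∈ S d, sInf (S d) ≤ t := fun d t ht => csInf_le ⟨0, h0 d⟩ ht
  have hne : ∀ d, (S d).Nonempty := fun d => insert_nonempty _ _
  have h1 : ∀ d ∈ M.ed K, sInf (S (M.α d)) - ρ d ≤ sInf (S d) := fun d hd => by
    refine le_csInf (hne d) ?_
    rintro t (rfl | ⟨Γ, hΓ, ⟨a, ha, hc⟩, rfl⟩)
    · linarith [hS (M.α d) t (mem_insert _ _), hρ.1 d]
    · have h2 := hS (M.α d) _ (.inr ⟨Γ ∪ {d}, union_subset hΓ (singleton_subset_iff.2 hd),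
        ⟨a, ha, (hc.mono subset_union_left).trans (.alpha (.inl (.inr rfl)))⟩, rfl⟩)
      have h3 : M.wt ρ {d} = ρ d := by simp [wt]
      linarith [wt_union hρ.1 Γ {d}]
  refine (dE_le (f := fun d => sInf (S d) / l) (adm_zon.2
    ⟨fun d => by simp only [S, con_sigma], fun a ha => ?_, fun b hb => ?_⟩)).trans
    (ENNReal.ofReal_le_ofReal ?_)
  · rw [le_antisymm (hS a 0 (.inr ⟨∅, empty_subset _, ⟨a, ha, .refl _ _⟩,
      (wt_eq_zero fun _ h => h.elim).symm⟩)) (le_csInf (hne a) (h0 a)), zero_div]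
  · rw [le_antisymm (hS b l (mem_insert _ _)) (le_csInf (hne b) ?_), div_self hl.ne']
    rintro t (rfl | ⟨Γ, hΓ, ⟨a, ha, hc⟩, rfl⟩)
    exacts [le_rfl, h Γ hΓ a ha b hb hc]
  · rw [sq, mul_div_assoc, Finset.sum_div]
    refine mul_le_mul_of_nonneg_left (Finset.sum_le_sum fun d _ => ?_) (by norm_num)
    split_ifs with hd
    · have h2 := h1 d hd
      have h3 := h1 _ (mem_ed_alpha hd)
      rw [M.α_α, hρ.2] at h3
      rw [← sub_div, div_pow]
      exact div_le_div_of_nonneg_right (sq_le_sq' (by linarith) (by linarith)) (by positivity)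
    · rw [zero_div]

/-- Extremal length: a large conductance gives short paths. -/
theorem cross_of_lt (hx : 0 < x) (h : ENNReal.ofReal x⁻¹ < M.dE K (zon K A B).2) :
    M.Cross K A B x := by
  intro ρ hρ
  by_contra hn
  push Not at hn
  refine h.not_ge ?_
  rcases (sq_nonneg' K ρ).eq_or_lt with h0 | h0
  · have h1 : ∀ d ∈ M.ed K, ρ d = 0 := fun d hd => by
      classical
      have h2 : ∑ d, (if d ∈ K ∧ M.α d ∈ K then ρ d ^ 2 else 0) = 0 := by
        have h3 := h0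
        simp only [sq] at h3
        convert (mul_eq_zero.1 h3.symm).resolve_left (by norm_num)
      have h3 := (Finset.sum_eq_zero_iff_of_nonneg fun d _ => by positivity).1 h2 d
        (Finset.mem_univ d)
      rw [if_pos (show d ∈ K ∧ M.α d ∈ K from hd)] at h3
      exact pow_eq_zero_iff two_ne_zero |>.1 h3
    refine (nmin_le hρ one_pos fun Γ hΓ d hd e he hc => ?_).trans ?_
    · have h2 := hn Γ hΓ d hd e he hc
      rw [wt_eq_zero fun y hy => h1 y (hΓ hy)] at h2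
      exact absurd h2 (Real.sqrt_nonneg _).not_gt
    · rw [← h0, zero_div, ENNReal.ofReal_zero]
      exact zero_le
  · refine (nmin_le hρ (Real.sqrt_pos.2 (mul_pos hx h0))
      fun Γ hΓ d hd e he hc => (hn Γ hΓ d hd e he hc).le).trans_eq ?_
    rw [Real.sq_sqrt (mul_pos hx h0).le, div_mul_cancel_right₀ h0.ne']

/-- Short paths give a large conductance. -/
theorem Cross.le_dE (h : M.Cross K A B x) : (ENNReal.ofReal x)⁻¹ ≤ M.dE K (zon K A B).2 := by
  refine FMap.le_dE fun f hf => ?_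
  obtain ⟨h1, h2, h3⟩ := adm_zon.1 hf
  obtain ⟨Γ, hΓ, d, hd, e, he, hc, hw⟩ := h _ (isW_grad K f)
  have h4 := hc.lip h1
  rw [h2 d hd, h3 e he, sub_zero, abs_one,
    ← wt_congr (f := M.grad K f) fun y hy => grad_of_mem (hΓ hy)] at h4
  have h5 := Real.one_le_sqrt.1 (h4.trans hw)
  rw [sq_grad] at h5
  have h6 : 0 < x := by
    by_contra h6
    nlinarith [en_nonneg K f, not_lt.1 h6]
  rw [← ENNReal.ofReal_inv_of_pos h6]
  exact ENNReal.ofReal_le_ofReal ((inv_le_iff_one_le_mul₀' h6).2 h5)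

theorem Cross.mono {A' B' : Set M.D} {x' : ℝ} (h : M.Cross K A B x) (hK : K ⊆ K') (hA : A ⊆ A')
    (hB : B ⊆ B') (hx : x ≤ x') : M.Cross K' A' B' x' := by
  intro ρ hρ
  obtain ⟨Γ, hΓ, d, hd, e, he, hc, hw⟩ := h ρ hρ
  refine ⟨Γ, hΓ.trans (ed_mono hK), d, hA hd, e, hB he, hc, hw.trans ?_⟩
  rcases le_total 0 x' with h0 | h0
  · exact Real.sqrt_le_sqrt (mul_le_mul hx (sq_mono hK ρ) (sq_nonneg' K ρ) h0)
  · rw [Real.sqrt_eq_zero'.2 (mul_nonpos_of_nonpos_of_nonneg (hx.trans h0) (sq_nonneg' K ρ))]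
    exact Real.sqrt_nonneg _

end FMap

end Pool.Agent.QL
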