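import Pool.Agent.P.MP_7a6434d8_pr.QL.Net.Frame
import Pool.Agent.P.MP_7a6434d8_pr.QL.Net.Min
import Pool.Agent.P.MP_7a6434d8_pr.QL.Net.Fine

/-! Block NET: limits of energies along a net. -/

open Set Filter Topology Metric
open scoped ENNReal

namespace Pool.Agent.QL

open Pool.Agent.LGD

namespace FNet

variable {N : FNet} {x y : Data} {a : ℝ≥0∞}

theorem tendsto_limE (N : FNet) (x : Data) : Tendsto (fun k => ENNReal.ofReal (N.κ k) *
    (N.M k).dE (x.pre (N.p k)).1 (x.pre (N.p k)).2) N.U (𝓝 (N.limE x)) := by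
  obtain ⟨z, -, hz⟩ := isCompact_univ.ultrafilter_le_nhds (N.U.map fun k => ENNReal.ofReal (N.κ k) *
    (N.M k).dE (x.pre (N.p k)).1 (x.pre (N.p k)).2) (by simp)
  rwa [limE, Tendsto.liminf_eq hz]

theorem lt_limE (h : a < N.limE x) : ∀ᶠ k in (N.U : Filter ℕ),
    a < ENNReal.ofReal (N.κ k) * (N.M k).dE (x.pre (N.p k)).1 (x.pre (N.p k)).2 :=
  (N.tendsto_limE x).eventually (lt_mem_nhds h)

theorem limE_lt (h : N.limE x < a) : ∀ᶠ k in (N.U : Filter ℕ),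
    ENNReal.ofReal (N.κ k) * (N.M k).dE (x.pre (N.p k)).1 (x.pre (N.p k)).2 < a :=
  (N.tendsto_limE x).eventually (gt_mem_nhds h)

theorem le_limE (h : ∀ᶠ k in (N.U : Filter ℕ),
    a ≤ ENNReal.ofReal (N.κ k) * (N.M k).dE (x.pre (N.p k)).1 (x.pre (N.p k)).2) :
    a ≤ N.limE x := ge_of_tendsto (N.tendsto_limE x) h

theorem limE_le (h : ∀ᶠ k in (N.U : Filter ℕ),
    ENNReal.ofReal (N.κ k) * (N.M k).dE (x.pre (N.p k)).1 (x.pre (N.p k)).2 ≤ a) :
    N.limE x ≤ a := le_of_tendsto (N.tendsto_limE x) h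

theorem limE_mono (N : FNet) (h : x.Le y) : N.limE x ≤ N.limE y := by
  refine liminf_le_liminf (.of_forall fun k => mul_le_mul_right
    (FMap.dE_mono (preimage_mono h.1) fun c hc => ?_) _)
  obtain ⟨c₀, h0, rfl⟩ := List.mem_map.1 hc
  obtain ⟨c', hc', h1, h2⟩ := h.2 c₀ h0
  exact ⟨_, List.mem_map_of_mem hc', preimage_mono h1, h2⟩

theorem limE_pull (F : Fr) (N : FNet) (x : Data) :
    (N.pull F).limE x = N.limE (x.pre F.inv) := by
  simp only [limE, Data.pre_pre]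
  rfl

theorem dual_pull (F : Fr) (N : FNet) : (N.pull F).dual = N.dual.pull F := rfl

theorem Real1.En_le {s : Idx → ℝ≥0∞} (h : N.Real1 s) (y : Data) : En s y ≤ N.limE y :=
  iSup₂_le fun i hi => (h.1 i).trans (N.limE_mono hi.le)

theorem Real1.le_En {s : Idx → ℝ≥0∞} (h : N.Real1 s) (hx : x.Sub y) (hy : y.Opn) :
    N.limE x ≤ En s y :=
  let ⟨i, h1, h2⟩ := hx.exists_idx hy
  (h.2 x i h1).trans (QL.le_En s h2)

theorem Real1.En_eq {s : Idx → ℝ≥0∞} (h : N.Real1 s) (hy : y.Opn) :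
    En s y = ⨆ (x : Data) (_ : x.Sub y), N.limE x :=
  le_antisymm (iSup₂_le fun i hi => (h.1 i).trans (le_iSup₂_of_le i.1 hi le_rfl))
    (iSup₂_le fun _ hx => h.le_En hx hy)

theorem Real1.mono {s : Idx → ℝ≥0∞} (h : N.Real1 s) {i j : Idx} (hij : i.1.Sub j.1) :
    s i ≤ s j := (h.1 i).trans (h.2 _ j hij)

theorem Real1.pull {s : Idx → ℝ≥0∞} (h : N.Real1 s) (F : Fr) :
    (N.pull F).Real1 fun i => s (F.act i) :=
  ⟨fun i => (h.1 (F.act i)).trans_eq (limE_pull F N i.1).symm,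
    fun x i hx => (limE_pull F N x).trans_le (h.2 _ (F.act i) (hx.pre F))⟩

theorem Real.pull {s : Sys} (h : N.Real s) (F : Fr) : (N.pull F).Real (QL.pull F s) :=
  ⟨h.1.pull F, h.2.pull F⟩

theorem Real.swap {s : Sys} (h : N.Real s) : N.dual.Real s.swap :=
  ⟨h.2, fun i => (h.1.1 i).trans_eq (N.dual_dual_limE _).symm,
    fun x i hx => (N.dual_dual_limE x).trans_le (h.1.2 x i hx)⟩

/-- N1: extremal length along a net. -/
theorem cross {K A B : Set ℂ} {t : ℝ} (h : (N.limE (zon K A B))⁻¹ < ENNReal.ofReal t) :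
    ∀ᶠ k in (N.U : Filter ℕ),
      (N.M k).Cross (N.p k ⁻¹' K) (N.p k ⁻¹' A) (N.p k ⁻¹' B) (t * N.κ k) := by
  have ht : 0 < t := ENNReal.ofReal_pos.1 (pos_of_gt h)
  filter_upwards [lt_limE (ENNReal.inv_lt_iff_inv_lt.1 h)] with k hk
  have hκ := N.κ_pos k
  refine FMap.cross_of_lt (mul_pos ht hκ) (lt_of_not_ge fun h1 => hk.not_ge ?_)
  refine (mul_le_mul_right h1 _).trans_eq ?_
  rw [← ENNReal.ofReal_mul hκ.le, ← ENNReal.ofReal_inv_of_pos ht]
  congr 1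
  field_simp

theorem Real1.cross {s : Idx → ℝ≥0∞} (hs : N.Real1 s) {K A B : Set ℂ} {t : ℝ}
    (h : (En s (zon K A B))⁻¹ < ENNReal.ofReal t) : ∀ᶠ k in (N.U : Filter ℕ),
      (N.M k).Cross (N.p k ⁻¹' K) (N.p k ⁻¹' A) (N.p k ⁻¹' B) (t * N.κ k) :=
  FNet.cross ((ENNReal.inv_le_inv.2 (hs.En_le _)).trans_lt h)

theorem Real.ring {s : Sys} (hs : N.Real s) {F : Fr} {t : ℝ} (h : Loop F s < ENNReal.ofReal t) :
    ∀ᶠ k in (N.U : Filter ℕ), (N.M k).Ring (fun d => F.inv (N.p k d)) (t * N.κ k) := by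
  simp only [FMap.Ring, ← Finset.mem_range]
  refine (eventually_all_finset _).2 fun j hj => ?_
  refine ((hs.pull (F.comp (rotF j))).1.cross
    ((Rp_le_Loop F s (Finset.mem_range.1 hj)).trans_lt h)).mono fun k hk => ?_
  have e : ((N.pull (F.comp (rotF j))).p k) = fun d => (rotF j).inv (F.inv (N.p k d)) :=
    funext fun d => F.comp_inv _ _
  rw [e] at hk
  simp only [← rotF_rect _ _ _ j, ← rotF_inv]
  exact hk

end FNet

theorem Realized.pull {s : Sys} (h : Realized s) (F : Fr) : Realized (pull F s) :=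
  let ⟨N, hN⟩ := h
  ⟨N.pull F, hN.pull F⟩

theorem Rp_le_Rm (s : Idx → ℝ≥0∞) : Rp s ≤ Rm s :=
  ENNReal.inv_le_inv.2 (En_mono s (zon_le Tn_subset
    (inter_subset_inter Tn_subset fun _ h => by rw [mem_ofPred_eq] at h ⊢; linarith)
    (inter_subset_inter Tn_subset fun _ h => by rw [mem_ofPred_eq] at h ⊢; linarith)))

end Pool.Agent.QL
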