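import Pool.Agent.P.MP_7a6434d8_pr.QL.Net.Plus
import Pool.Agent.P.MP_7a6434d8_pr.QL.Net.Lim

/-! Block NET: primal conductance is at most dual resistance (N8). -/

open Set Filter Topology Metric
open scoped ENNReal

namespace Pool.Agent.QL

open Pool.Agent.LGD

variable {K A B K' A' B' : Set ℂ} {x₀ x₁ x₂ x₃ y₀ y₁ y₂ y₃ m : ℝ}

theorem ndualA_wt (M : FMap) (ρ : M.D → ℝ) (V : Set M.D) : M.dual.wt ρ V = M.wt ρ V := rfl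

theorem ndualA_sq (M : FMap) (V : Set M.D) (ρ : M.D → ℝ) : M.dual.sq V ρ = M.sq V ρ := rfl

/-- The finite form of N8. -/
theorem FMap.Fine.dualA {M : FMap} {p : M.D → ℂ} {R η t : ℝ} (h : M.Fine p R η) (hη : 0 ≤ η)
    (hm : 1000 * η ≤ m) (hm0 : 0 < m)
    (hR : Bd R (x₀ - 2 * m) (x₃ + 2 * m) (y₀ - 2 * m) (y₃ + 2 * m))
    (hx : x₁ ≤ x₂) (hy : y₁ ≤ y₂) (hK : K ⊆ crect x₀ x₃ y₁ y₂) (hA : A ⊆ crect x₀ (x₁ - m) y₁ y₂)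
    (hB : B ⊆ crect (x₂ + m) x₃ y₁ y₂) (hK' : K' ⊆ crect x₁ x₂ y₀ y₃)
    (hA' : A' ⊆ crect x₁ x₂ y₀ (y₁ - m)) (hB' : B' ⊆ crect x₁ x₂ (y₂ + m) y₃)
    (hc : M.dual.Cross (p ⁻¹' K') (p ⁻¹' A') (p ⁻¹' B') t) :
    M.dE (p ⁻¹' K) (zon (p ⁻¹' K) (p ⁻¹' A) (p ⁻¹' B)).2 ≤ ENNReal.ofReal t := by
  classical
  refine FMap.dE_le_of_test fun f => ?_
  obtain ⟨V, hV, u, hu, v, hv, hcon, hwt⟩ := hc (M.grad (p ⁻¹' K) f) (FMap.isW_grad (M := M) _ f)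
  replace hwt : M.wt (M.grad (p ⁻¹' K) f) V ≤ √(t * M.sq (p ⁻¹' K') (M.grad (p ⁻¹' K) f)) := by
    rw [← ndualA_wt, ← ndualA_sq]
    exact hwt
  obtain ⟨G, hG⟩ : ∃ G : Set M.D, ∀ x, x ∈ G ↔ x ∈ M.ed (p ⁻¹' K) ∧ x ∉ V ∧ M.α x ∉ V :=
    ⟨{x | x ∈ M.ed (p ⁻¹' K) ∧ x ∉ V ∧ M.α x ∉ V}, fun _ => Iff.rfl⟩
  refine ⟨fun x => if ∃ a ∈ p ⁻¹' A, M.Con G a x then 0 else 1,
    FMap.adm_zon.2 ⟨fun d => ?_, fun d hd => ?_, fun d hd => ?_⟩, ?_⟩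
  · exact if_congr (FMap.con_sigma _ d) rfl rfl
  · exact if_pos ⟨d, hd, FMap.Con.refl G d⟩
  · refine if_neg ?_
    rintro ⟨a, ha, hcn⟩
    obtain ⟨x, h1, h2⟩ := h.pd hη hm hm0 hR hx hy
      (fun x hx => FMap.ed_mono (preimage_mono hK) ((hG x).1 hx).1) (hA ha) (hB hd) hcn
      (hV.trans (FMap.ed_mono (M := M) (preimage_mono hK'))) (hA' hu) (hB' hv) hcon
    rcases h1 with h1 | h1
    · exact h2.elim ((hG _).1 h1).2.1 ((hG _).1 h1).2.2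
    · have h3 := ((hG _).1 h1).2
      rw [M.α_α] at h3
      exact h2.elim h3.2 h3.1
  · refine le_trans (FMap.bil_le_wt (M := M) (Γ := V) (fun d => ?_) fun d hd h1 h2 => ?_)
      (hwt.trans ?_)
    · split_ifs <;> norm_num
    · have h3 : M.Con G d (M.α d) := FMap.Con.alpha (Or.inl ((hG d).2 ⟨hd, h1, h2⟩))
      exact if_congr ⟨fun ⟨a, ha, h4⟩ => ⟨a, ha, h4.trans h3.symm⟩,
        fun ⟨a, ha, h4⟩ => ⟨a, ha, h4.trans h3⟩⟩ rfl rfl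
    · have h3 : M.sq (p ⁻¹' K') (M.grad (p ⁻¹' K) f) ≤ M.en (p ⁻¹' K) f :=
        (FMap.sq_le_of_supp (fun d hd => FMap.grad_of_not_mem hd) _).trans
          (FMap.sq_grad _ f).le
      rcases le_total 0 t with ht | ht
      · exact Real.sqrt_le_sqrt (mul_le_mul_of_nonneg_left h3 ht)
      · rw [Real.sqrt_eq_zero'.2 (mul_nonpos_of_nonpos_of_nonneg ht (FMap.sq_nonneg' _ _))]
        exact Real.sqrt_nonneg _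

theorem FNet.dualA (N : FNet) (hm0 : 0 < m) (hx : x₁ ≤ x₂) (hy : y₁ ≤ y₂)
    (hK : K ⊆ crect x₀ x₃ y₁ y₂) (hA : A ⊆ crect x₀ (x₁ - m) y₁ y₂) (hB : B ⊆ crect (x₂ + m) x₃ y₁ y₂)
    (hK' : K' ⊆ crect x₁ x₂ y₀ y₃) (hA' : A' ⊆ crect x₁ x₂ y₀ (y₁ - m))
    (hB' : B' ⊆ crect x₁ x₂ (y₂ + m) y₃) :
    N.limE (zon K A B) ≤ (N.dual.limE (zon K' A' B'))⁻¹ := by
  refine le_of_forall_gt_imp_ge_of_dense fun a ha => ?_
  rcases eq_or_ne a ⊤ with rfl | hne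
  · exact le_top
  obtain ⟨t, rfl⟩ : ∃ t : ℝ, a = ENNReal.ofReal t := ⟨_, (ENNReal.ofReal_toReal hne).symm⟩
  obtain ⟨R, hR⟩ := exists_bd (x₀ - 2 * m) (x₃ + 2 * m) (y₀ - 2 * m) (y₃ + 2 * m)
  refine FNet.limE_le ?_
  have h0 : ∀ᶠ k in (N.U : Filter ℕ), (N.M k).dual.Cross (N.p k ⁻¹' K') (N.p k ⁻¹' A')
      (N.p k ⁻¹' B') (t * (N.κ k)⁻¹) := FNet.cross (N := N.dual) ha
  filter_upwards [h0, N.fine R (show 0 < m / 1000 by positivity)] with k h1 h2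
  have h3 := FMap.Fine.dualA (M := N.M k) (p := N.p k) (t := t * (N.κ k)⁻¹) h2
    (by positivity) (by linarith) hm0 hR hx hy hK hA hB hK' hA' hB' h1
  have hk := N.κ_pos k
  have e : ENNReal.ofReal (N.κ k) * ENNReal.ofReal (t * (N.κ k)⁻¹) =
      ENNReal.ofReal t := by
    rw [← ENNReal.ofReal_mul hk.le, mul_comm, inv_mul_cancel_right₀ hk.ne']
  rw [zon_pre, ← e]
  exact mul_le_mul_right h3 _

/-- N8 for a general plus shape. -/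
theorem dualA {s : Sys} (hs : Realized s) (hm0 : 0 < m) (hx : x₁ ≤ x₂) (hy : y₁ ≤ y₂)
    (hK : K ⊆ crect x₀ x₃ y₁ y₂) (hA : A ⊆ crect x₀ (x₁ - m) y₁ y₂) (hB : B ⊆ crect (x₂ + m) x₃ y₁ y₂)
    (hK' : K' ⊆ crect x₁ x₂ y₀ y₃) (hA' : A' ⊆ crect x₁ x₂ y₀ (y₁ - m))
    (hB' : B' ⊆ crect x₁ x₂ (y₂ + m) y₃) :
    En s.1 (zon K A B) ≤ (En s.2 (zon K' A' B'))⁻¹ := by
  obtain ⟨N, h1, h2⟩ := hs
  exact (h1.En_le _).trans ((N.dualA hm0 hx hy hK hA hB hK' hA' hB').trans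
    (ENNReal.inv_le_inv.2 (h2.En_le _)))

/-- N8 for the two bars that cross at a corner. -/
theorem n8 : N8Stmt := by
  intro s hs
  have e : ∀ w : ℂ, ((rotF 1).inv w).re = w.im ∧ ((rotF 1).inv w).im = -w.re := fun w => by
    rw [rotF_inv]
    simp [rot]
  have e0 : ∀ {w : ℂ}, w ∈ rect (14 / 5) (21 / 10) (12 / 5) 0 →
      (-(14 / 5) < w.re ∧ w.re < 14 / 5) ∧ 21 / 10 < w.im ∧ w.im < 12 / 5 := fun h => by
    simpa only [rect, rot, pow_zero, one_mul, mem_ofPred_eq, abs_lt] using h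
  rw [Rp_eq, En_pull_snd, Tp, bar_eq, zon_pre]
  refine dualA (x₀ := -(14 / 5)) (x₁ := -(12 / 5)) (x₂ := -(21 / 10)) (x₃ := 14 / 5)
    (y₀ := -(14 / 5)) (y₁ := 21 / 10) (y₂ := 12 / 5) (y₃ := 14 / 5) (m := 1 / 10) hs (by norm_num)
    (by norm_num) (by norm_num) (fun w hw => ?_) (fun w hw => ?_) (fun w hw => ?_)
    (fun w hw => ?_) (fun w hw => ?_) fun w hw => ?_
  · obtain ⟨⟨h1, h2⟩, h3, h4⟩ := e0 hw
    exact ⟨⟨h1.le, h2.le⟩, h3.le, h4.le⟩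
  · obtain ⟨⟨h1, h2⟩, h3, h4⟩ := e0 hw.1
    have h5 : w.re < -(5 / 2) := hw.2
    exact ⟨⟨h1.le, by linarith⟩, h3.le, h4.le⟩
  · obtain ⟨⟨h1, h2⟩, h3, h4⟩ := e0 hw.1
    have h5 : 5 / 2 < w.re := hw.2
    exact ⟨⟨by linarith, h2.le⟩, h3.le, h4.le⟩
  · obtain ⟨⟨h1, h2⟩, h3, h4⟩ := e0 hw
    rw [(e w).1] at h1 h2
    rw [(e w).2] at h3 h4
    exact ⟨⟨by linarith, by linarith⟩, h1.le, h2.le⟩
  · obtain ⟨⟨h1, h2⟩, h3, h4⟩ := e0 hw.1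
    have h5 : ((rotF 1).inv w).re < -(5 / 2) := hw.2
    rw [(e w).1] at h1 h2 h5
    rw [(e w).2] at h3 h4
    exact ⟨⟨by linarith, by linarith⟩, h1.le, by linarith⟩
  · obtain ⟨⟨h1, h2⟩, h3, h4⟩ := e0 hw.1
    have h5 : 5 / 2 < ((rotF 1).inv w).re := hw.2
    rw [(e w).1] at h1 h2 h5
    rw [(e w).2] at h3 h4
    exact ⟨⟨by linarith, by linarith⟩, by linarith, h2.le⟩

end Pool.Agent.QL
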