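import Pool.Agent.P.MP_7a6434d8_pr.QL.Net.Wt

/-! Block NET: counting rows and the weighted Cauchy-Schwarz inequality. -/

open Set Filter Topology Metric
open scoped ENNReal

namespace Pool.Agent.QL

open Pool.Agent.LGD

theorem rows_count {h b : ℝ} (h0 : 0 < h) (hb : h ≤ b) (n : ℕ) (y₀ c : ℝ) :
    h * ((Finset.range n).filter fun l : ℕ => |c - (y₀ + l * h)| ≤ 2 * b).card ≤ 5 * b := by
  set A := (Finset.range n).filter fun l : ℕ => |c - (y₀ + l * h)| ≤ 2 * b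
  rcases A.eq_empty_or_nonempty with hA | hA
  · rw [hA, Finset.card_empty, Nat.cast_zero, mul_zero]
    linarith
  · have h1 := abs_le.1 (Finset.mem_filter.1 (A.min'_mem hA)).2
    have h2 := abs_le.1 (Finset.mem_filter.1 (A.max'_mem hA)).2
    have h3 : A ⊆ Finset.Icc (A.min' hA) (A.max' hA) := fun l hl =>
      Finset.mem_Icc.2 ⟨A.min'_le l hl, A.le_max' l hl⟩
    have h4 := Finset.card_le_card h3
    have h5 : A.min' hA ≤ A.max' hA := A.min'_le _ (A.max'_mem hA)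
    rw [Nat.card_Icc] at h4
    have h6 : (A.card : ℝ) + (A.min' hA : ℕ) ≤ (A.max' hA : ℕ) + 1 := by
      exact_mod_cast (by omega : A.card + A.min' hA ≤ A.max' hA + 1)
    nlinarith [mul_le_mul_of_nonneg_left h6 h0.le]

theorem Cov.exists_low {ι : Type} (T : Finset ι) (F : ι → Fr) :
    ∃ h : ℝ, 0 < h ∧ ∀ i ∈ T, h ≤ ‖(F i).a‖ := by
  classical
  induction T using Finset.induction_on with
  | empty => exact ⟨1, one_pos, fun _ h => absurd h (Finset.notMem_empty _)⟩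
  | insert j T _ ih =>
    obtain ⟨h, h0, hh⟩ := ih
    refine ⟨min h ‖(F j).a‖, lt_min h0 (F j).a_pos, fun i hi => ?_⟩
    rcases Finset.mem_insert.1 hi with rfl | hi
    exacts [min_le_right _ _, (min_le_left _ _).trans (hh i hi)]

variable {ι : Type} {T : Finset ι} {F : ι → Fr} {w Λ : ι → ℝ} {r : ℝ} {S : Set ℂ} {M : FMap}
  {p : M.D → ℂ}

theorem ncount_ovl (hc : Cov T F w r S) (ρ : M.D → ℝ) :
    ∑ i ∈ T, M.sq (p ⁻¹' (F i).body) ρ * (w i)⁻¹ ≤ M.sq univ ρ := by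
  classical
  have h1 : ∀ i ∈ T, M.sq (p ⁻¹' (F i).body) ρ * (w i)⁻¹ ≤
      1 / 2 * ∑ d, (F i).body.indicator (fun _ => (w i)⁻¹) (p d) * ρ d ^ 2 := by
    intro i hi
    have hw := (inv_pos.2 (hc.pos i hi)).le
    rw [FMap.sq, mul_assoc, Finset.sum_mul]
    refine mul_le_mul_of_nonneg_left (Finset.sum_le_sum fun d _ => ?_) (by norm_num)
    split_ifs with hd
    · rw [indicator_of_mem (show p d ∈ (F i).body from hd.1), mul_comm]
    · rw [zero_mul]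
      exact mul_nonneg (indicator_nonneg (fun _ _ => hw) _) (sq_nonneg _)
  refine (Finset.sum_le_sum h1).trans ?_
  rw [← Finset.mul_sum, Finset.sum_comm, FMap.sq]
  refine mul_le_mul_of_nonneg_left (Finset.sum_le_sum fun d _ => ?_) (by norm_num)
  rw [if_pos ⟨trivial, trivial⟩, ← Finset.sum_mul]
  exact mul_le_of_le_one_left (sq_nonneg _) (hc.ovl _)

theorem Cov.cs (hc : Cov T F w r S) (hΛ : ∀ i ∈ T, 0 ≤ Λ i) (ρ : M.D → ℝ) :
    ∑ i ∈ T, ‖(F i).a‖ * √(Λ i * M.sq (p ⁻¹' (F i).body) ρ) ≤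
      √((∑ i ∈ T, ‖(F i).a‖ ^ 2 * w i * Λ i) * M.sq univ ρ) := by
  have e1 : ∑ i ∈ T, ‖(F i).a‖ * √(Λ i * M.sq (p ⁻¹' (F i).body) ρ) =
      ∑ i ∈ T, √(‖(F i).a‖ ^ 2 * w i * Λ i) * √(M.sq (p ⁻¹' (F i).body) ρ * (w i)⁻¹) := by
    refine Finset.sum_congr rfl fun i hi => ?_
    have hw := hc.pos i hi
    rw [← Real.sqrt_mul (mul_nonneg (mul_nonneg (sq_nonneg _) hw.le) (hΛ i hi)),
      show ‖(F i).a‖ ^ 2 * w i * Λ i * (M.sq (p ⁻¹' (F i).body) ρ * (w i)⁻¹) =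
        ‖(F i).a‖ ^ 2 * (Λ i * M.sq (p ⁻¹' (F i).body) ρ) by field_simp,
      Real.sqrt_mul (sq_nonneg _), Real.sqrt_sq (norm_nonneg _)]
  have h0 : ∀ i ∈ T, 0 ≤ ‖(F i).a‖ ^ 2 * w i * Λ i := fun i hi =>
    mul_nonneg (mul_nonneg (sq_nonneg _) (hc.pos i hi).le) (hΛ i hi)
  rw [e1, Real.sqrt_mul (Finset.sum_nonneg h0)]
  refine (Real.sum_mul_le_sqrt_mul_sqrt _ _ _).trans ?_
  rw [Finset.sum_congr rfl fun i hi => Real.sq_sqrt (h0 i hi), Finset.sum_congr rfl fun i hi =>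
    Real.sq_sqrt (mul_nonneg (FMap.sq_nonneg' _ ρ) (inv_pos.2 (hc.pos i hi)).le)]
  exact mul_le_mul_of_nonneg_left (Real.sqrt_le_sqrt (ncount_ovl hc ρ)) (Real.sqrt_nonneg _)

open Classical in
theorem Cov.rows (hc : Cov T F w r S) (hΛ : ∀ i ∈ T, 0 ≤ Λ i) (ρ : M.D → ℝ) {h : ℝ} (h0 : 0 < h)
    (hh : ∀ i ∈ T, h ≤ ‖(F i).a‖) (n : ℕ) (y₀ : ℝ) :
    h * ∑ l ∈ Finset.range n, ∑ i ∈ T with |(F i).z.im - (y₀ + l * h)| ≤ 2 * ‖(F i).a‖,
      4 * √(Λ i * M.sq (p ⁻¹' (F i).body) ρ) ≤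
      √(400 * (∑ i ∈ T, ‖(F i).a‖ ^ 2 * w i * Λ i) * M.sq univ ρ) := by
  have e1 : h * ∑ l ∈ Finset.range n, ∑ i ∈ T with |(F i).z.im - (y₀ + l * h)| ≤ 2 * ‖(F i).a‖,
      4 * √(Λ i * M.sq (p ⁻¹' (F i).body) ρ) = ∑ i ∈ T, h * ((Finset.range n).filter
        fun l : ℕ => |(F i).z.im - (y₀ + l * h)| ≤ 2 * ‖(F i).a‖).card *
          (4 * √(Λ i * M.sq (p ⁻¹' (F i).body) ρ)) := by
    simp only [Finset.sum_filter]
    rw [Finset.sum_comm, Finset.mul_sum]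
    refine Finset.sum_congr rfl fun i _ => ?_
    rw [← Finset.sum_filter, Finset.sum_const, nsmul_eq_mul, mul_assoc]
  have h1 := hc.cs (p := p) hΛ ρ
  rw [e1, mul_assoc, Real.sqrt_mul (by norm_num), show (400 : ℝ) = 20 ^ 2 by norm_num,
    Real.sqrt_sq (by norm_num)]
  refine le_trans ?_ (mul_le_mul_of_nonneg_left h1 (by norm_num))
  rw [Finset.mul_sum]
  refine Finset.sum_le_sum fun i hi => ?_
  refine (mul_le_mul_of_nonneg_right (rows_count h0 (hh i hi) n y₀ _) (by positivity)).trans_eq ?_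
  ring

/-- From strict real bounds to the extended nonnegative sum. -/
theorem le_sum_of_forall {a c : ℝ≥0∞} (hc : c ≠ ⊤) {v : ι → ℝ} (hv : ∀ i ∈ T, 0 < v i)
    {L : ι → ℝ≥0∞}
    (h : ∀ Λ : ι → ℝ, (∀ i ∈ T, L i < ENNReal.ofReal (Λ i)) →
      a ≤ c * ENNReal.ofReal (∑ i ∈ T, v i * Λ i)) (hc0 : c ≠ 0) :
    a ≤ c * ∑ i ∈ T, ENNReal.ofReal (v i) * L i := by
  by_cases ht : ∃ i ∈ T, L i = ⊤
  · obtain ⟨i, hi, e⟩ := ht
    have : ∑ i ∈ T, ENNReal.ofReal (v i) * L i = ⊤ := ENNReal.sum_eq_top.2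
      ⟨i, hi, by rw [e, ENNReal.mul_top (ENNReal.ofReal_pos.2 (hv i hi)).ne']⟩
    rw [this, ENNReal.mul_top hc0]
    exact le_top
  push Not at ht
  have e : ∑ i ∈ T, ENNReal.ofReal (v i) * L i =
      ENNReal.ofReal (∑ i ∈ T, v i * ((L i).toReal + 0)) := by
    rw [ENNReal.ofReal_sum_of_nonneg fun i hi => mul_nonneg (hv i hi).le (by positivity)]
    refine Finset.sum_congr rfl fun i hi => ?_
    rw [ENNReal.ofReal_mul (hv i hi).le, add_zero, ENNReal.ofReal_toReal (ht i hi)]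
  have h1 : Continuous fun ε : ℝ => ENNReal.ofReal (∑ i ∈ T, v i * ((L i).toReal + ε)) :=
    ENNReal.continuous_ofReal.comp (by fun_prop)
  rw [e]
  refine ge_of_tendsto (ENNReal.Tendsto.const_mul
    ((h1.tendsto 0).mono_left (nhdsWithin_le_nhds (s := Ioi 0))) (Or.inr hc)) ?_
  filter_upwards [self_mem_nhdsWithin] with ε hε
  refine h _ fun i hi => ?_
  have hε : 0 < ε := hε
  conv_lhs => rw [← ENNReal.ofReal_toReal (ht i hi)]
  exact (ENNReal.ofReal_lt_ofReal_iff (by positivity)).2 (by linarith)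

end Pool.Agent.QL
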