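import Pool.Agent.P.MP_7a6434d8_pr.QL.Net.Sweep
import Pool.Agent.P.MP_7a6434d8_pr.QL.Net.Count
import Pool.Agent.P.MP_7a6434d8_pr.QL.Net.Lim

/-! Block NET: resistance of the small bar from a covering by loops (N6). -/

open Set Filter Topology Metric
open scoped ENNReal

namespace Pool.Agent.QL

open Pool.Agent.LGD

variable {ι : Type} {T : Finset ι} {F : ι → Fr} {w : ι → ℝ}

theorem FNet.Real.good {N : FNet} {s : Sys} (hs : N.Real s) {Λ : ι → ℝ}
    (h : ∀ i ∈ T, Loop (F i) s < ENNReal.ofReal (Λ i)) :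
    ∀ᶠ k in (N.U : Filter ℕ), ∀ i ∈ T, (N.M k).Good (N.p k) (F i) (Λ i * N.κ k) := by
  refine (Finset.eventually_all T).2 fun i hi => ?_
  filter_upwards [(N.pull (F i)).fine 20 (η := 1 / 1000000) (by norm_num), hs.ring (h i hi)]
    with k h1 h2
  exact ⟨h1, h2⟩

/-- The finite form of N6. -/
theorem FMap.Fine.rowsA {M : FMap} {p : M.D → ℂ} {η : ℝ} (h : M.Fine p 10 η) (hη : 0 ≤ η)
    (hη' : η ≤ 1 / 100000)
    (hc : Cov T F w (1 / 1000) (crect (-(133 / 50)) (133 / 50) (223 / 100) (227 / 100)))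
    {Λ : ι → ℝ} (hF : ∀ i ∈ T, M.Good p (F i) (Λ i) ∧ 0 ≤ Λ i ∧ 2 * η ≤ ‖(F i).a‖) {f : M.D → ℝ}
    (hf : Inv M.σ f)
    (h0 : ∀ d, p d ∈ crect (-(269 / 100)) (-(261 / 100)) (221 / 100) (229 / 100) → f d = 0)
    (h1 : ∀ d, p d ∈ crect (261 / 100) (269 / 100) (221 / 100) (229 / 100) → f d = 1) :
    1 ≤ 1000000 * (∑ i ∈ T, ‖(F i).a‖ ^ 2 * w i * Λ i) *
      M.en (p ⁻¹' crect (-(269 / 100)) (269 / 100) (221 / 100) (229 / 100)) f := by
  classical
  set K := p ⁻¹' crect (-(269 / 100)) (269 / 100) (221 / 100) (229 / 100) with hK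
  set S := ∑ i ∈ T, ‖(F i).a‖ ^ 2 * w i * Λ i with hS
  obtain ⟨low, hlow, hl⟩ := Cov.exists_low T F
  obtain ⟨n, hn⟩ := exists_nat_gt (1 / 50 / low)
  have hn0 : (0 : ℝ) < n := lt_trans (by positivity) hn
  set a : ℝ := 1 / 50 / n with ha
  have ha0 : 0 < a := by positivity
  have hna : a * n = 1 / 50 := by rw [ha]; field_simp
  have hal : a ≤ low := by
    rw [div_lt_iff₀ hlow] at hn
    rw [ha, div_le_iff₀ hn0]
    linarith
  have row : ∀ l ∈ Finset.range n, (1 : ℝ) ≤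
      ∑ i ∈ T with |(F i).z.im - (56 / 25 + l * a)| ≤ 2 * ‖(F i).a‖,
        4 * √(Λ i * M.sq (p ⁻¹' (F i).body) (M.grad K f)) := by
    intro l hl'
    have l0 : 0 ≤ (l : ℝ) * a := by positivity
    have l1 : (l : ℝ) * a ≤ 1 / 50 := by
      have : (l : ℝ) ≤ n := by exact_mod_cast (Finset.mem_range.1 hl').le
      nlinarith
    obtain ⟨Γ, hΓ, d, e, hd, he, hde, hw⟩ := h.row (r := 1 / 1000) (x₀ := -(66 / 25))
      (x₁ := 66 / 25) (y := 56 / 25 + l * a) hη (by linarith) (by norm_num)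
      (bd_of_le (a := 3) (b := 3) (by norm_num) (by norm_num) (by linarith) (by linarith)
        (by norm_num)) (by norm_num) T F Λ
      (fun i hi => ⟨(hF i hi).1, hc.rad i hi, (hF i hi).2.2⟩)
      (fun x hx => hc.cov x (crect_mono (by linarith) (by linarith) (by linarith) (by linarith) hx))
      (FMap.isW_grad K f) (fun d hd => by
        have a1 := h0 d (crect_mono (by norm_num) (by norm_num) (by linarith) (by linarith) hd.1)
        have a2 := h0 _ (crect_mono (by norm_num) (by norm_num) (by linarith) (by linarith) hd.2)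
        by_cases hm : d ∈ M.ed K
        · rw [FMap.grad_of_mem hm, a1, a2, sub_self, abs_zero]
        · exact FMap.grad_of_not_mem hm)
    have a1 := h0 d (crect_mono (by norm_num) (by norm_num) (by linarith) (by linarith) hd)
    have a2 := h1 e (crect_mono (by norm_num) (by norm_num) (by linarith) (by linarith) he)
    have a3 := hde.lip hf
    rw [a1, a2, sub_zero, abs_one] at a3
    refine a3.trans (le_trans (le_of_eq (FMap.wt_congr fun x hx => ?_)) hw)
    refine (FMap.grad_of_mem (FMap.ed_mono (preimage_mono ?_) (hΓ hx))).symm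
    exact crect_mono (by norm_num) (by norm_num) (by linarith) (by linarith)
  have s1 := Finset.card_nsmul_le_sum _ _ _ row
  rw [Finset.card_range, nsmul_eq_mul, mul_one] at s1
  have s2 := hc.rows (M := M) (p := p) (fun i hi => (hF i hi).2.1) (M.grad K f) ha0
    (fun i hi => hal.trans (hl i hi)) n (56 / 25)
  have s3 : 1 / 50 ≤ √(400 * S * M.sq univ (M.grad K f)) := by
    refine le_trans ?_ s2
    rw [← hna]
    exact mul_le_mul_of_nonneg_left s1 ha0.le
  have s4 : M.sq univ (M.grad K f) ≤ M.en K f := by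
    rw [← FMap.sq_grad]
    exact FMap.sq_le_of_supp (fun d hd => FMap.grad_of_not_mem hd) univ
  have hS0 : 0 ≤ S := Finset.sum_nonneg fun i hi =>
    mul_nonneg (mul_nonneg (sq_nonneg _) (hc.pos i hi).le) (hF i hi).2.1
  have s5 := (Real.le_sqrt' (by norm_num)).1 s3
  have s6 := mul_le_mul_of_nonneg_left s4 hS0
  nlinarith

/-- N6. -/
theorem rowsA {s : Sys} (hs : Realized s)
    (hc : Cov T F w (1 / 1000) (crect (-(133 / 50)) (133 / 50) (223 / 100) (227 / 100))) :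
    Rm s.1 ≤ 1000000 * ∑ i ∈ T, ENNReal.ofReal (‖(F i).a‖ ^ 2 * w i) * Loop (F i) s := by
  obtain ⟨N, hN⟩ := hs
  refine le_sum_of_forall (v := fun i => ‖(F i).a‖ ^ 2 * w i) (by norm_num)
    (fun i hi => mul_pos (pow_pos (F i).a_pos 2) (hc.pos i hi)) (fun Λ hΛ => ?_) (by norm_num)
  have hΛ0 : ∀ i ∈ T, 0 ≤ Λ i := fun i hi =>
    (ENNReal.ofReal_pos.1 (lt_of_le_of_lt bot_le (hΛ i hi))).le
  set S := ∑ i ∈ T, ‖(F i).a‖ ^ 2 * w i * Λ i with hS
  have hS0 : 0 ≤ S := Finset.sum_nonneg fun i hi =>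
    mul_nonneg (mul_nonneg (sq_nonneg _) (hc.pos i hi).le) (hΛ0 i hi)
  set c : ℝ≥0∞ := 1000000 * ENNReal.ofReal S with hcdef
  have hct : c ≠ ⊤ := ENNReal.mul_ne_top (by norm_num) ENNReal.ofReal_ne_top
  have mem : ∀ {x₀ x₁ : ℝ} {z : ℂ}, -(269 / 100) ≤ x₀ → x₁ ≤ 269 / 100 →
      z ∈ crect x₀ x₁ (221 / 100) (229 / 100) → z ∈ rect (27 / 10) (11 / 5) (23 / 10) 0 := by
    rintro x₀ x₁ z a0 a1 ⟨⟨b1, b2⟩, b3, b4⟩
    simp only [rect, rot, pow_zero, one_mul, mem_ofPred_eq, abs_lt]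
    refine ⟨⟨?_, ?_⟩, ?_, ?_⟩ <;> linarith
  have hsub : Data.Sub (zon (crect (-(269 / 100)) (269 / 100) (221 / 100) (229 / 100))
      (crect (-(269 / 100)) (-(261 / 100)) (221 / 100) (229 / 100))
      (crect (261 / 100) (269 / 100) (221 / 100) (229 / 100))) Tn := by
    rw [Tn, bar_eq]
    refine zon_sub (isCompact_crect _ _ _ _) (isCompact_crect _ _ _ _) (isCompact_crect _ _ _ _)
      (fun z hz => mem le_rfl le_rfl hz) (fun z hz => ?_) fun z hz => ?_
    · have := mem le_rfl (by norm_num) hz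
      exact ⟨⟨this, lt_of_le_of_lt hz.1.2 (by norm_num)⟩, this⟩
    · have := mem (by norm_num) le_rfl hz
      exact ⟨⟨this, lt_of_lt_of_le (by norm_num) hz.1.1⟩, this⟩
  rw [Rm_eq, ENNReal.inv_le_iff_inv_le]
  refine le_trans (FNet.le_limE ?_) (hN.1.le_En hsub (bar_opn _ _ _ _))
  obtain ⟨low, hlow, hl⟩ := Cov.exists_low T F
  have hη : 0 < min (1 / 100000) (low / 2) := lt_min (by norm_num) (by positivity)
  filter_upwards [N.fine 10 hη, hN.good hΛ] with k h1 h2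
  have hκ := N.κ_pos k
  have hκ0 : ENNReal.ofReal (N.κ k) ≠ 0 := (ENNReal.ofReal_pos.2 hκ).ne'
  have key : (ENNReal.ofReal (N.κ k))⁻¹ * c⁻¹ ≤ (N.M k).dE
      (N.p k ⁻¹' crect (-(269 / 100)) (269 / 100) (221 / 100) (229 / 100))
      (zon (N.p k ⁻¹' crect (-(269 / 100)) (269 / 100) (221 / 100) (229 / 100))
        (N.p k ⁻¹' crect (-(269 / 100)) (-(261 / 100)) (221 / 100) (229 / 100))
        (N.p k ⁻¹' crect (261 / 100) (269 / 100) (221 / 100) (229 / 100))).2 := by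
    refine FMap.le_dE fun f hf => ?_
    obtain ⟨f1, f2, f3⟩ := FMap.adm_zon.1 hf
    have := h1.rowsA hη.le (min_le_left _ _) hc (Λ := fun i => Λ i * N.κ k)
      (fun i hi => ⟨h2 i hi, mul_nonneg (hΛ0 i hi) hκ.le, by
        have := min_le_right (1 / 100000) (low / 2)
        linarith [hl i hi]⟩) f1 f2 f3
    set e := (N.M k).en (N.p k ⁻¹' crect (-(269 / 100)) (269 / 100) (221 / 100) (229 / 100)) f
    have e1 : ∑ i ∈ T, ‖(F i).a‖ ^ 2 * w i * (Λ i * N.κ k) = S * N.κ k := by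
      rw [hS, Finset.sum_mul]
      exact Finset.sum_congr rfl fun i _ => by ring
    rw [e1] at this
    have e2 : 1 ≤ c * (ENNReal.ofReal (N.κ k) * ENNReal.ofReal e) := by
      rw [hcdef, ← ENNReal.ofReal_mul hκ.le, mul_assoc, ← ENNReal.ofReal_mul hS0,
        ← ENNReal.ofReal_ofNat, ← ENNReal.ofReal_mul (by norm_num), ← ENNReal.ofReal_one]
      exact ENNReal.ofReal_le_ofReal (by linarith)
    have e3 : c⁻¹ ≤ ENNReal.ofReal (N.κ k) * ENNReal.ofReal e :=
      (ENNReal.inv_le_iff_le_mul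
        (fun h' => absurd h' (ENNReal.mul_ne_top ENNReal.ofReal_ne_top ENNReal.ofReal_ne_top))
        fun h' => absurd h' hct).2 e2
    calc (ENNReal.ofReal (N.κ k))⁻¹ * c⁻¹
        ≤ (ENNReal.ofReal (N.κ k))⁻¹ * (ENNReal.ofReal (N.κ k) * ENNReal.ofReal e) := by gcongr
      _ = _ := by rw [← mul_assoc, ENNReal.inv_mul_cancel hκ0 ENNReal.ofReal_ne_top, one_mul]
  calc c⁻¹ = ENNReal.ofReal (N.κ k) * ((ENNReal.ofReal (N.κ k))⁻¹ * c⁻¹) := by
        rw [← mul_assoc, ENNReal.mul_inv_cancel hκ0 ENNReal.ofReal_ne_top, one_mul]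
    _ ≤ _ := mul_le_mul_right key _

theorem n6 : N6Stmt := by
  refine ⟨1000000, by norm_num, fun s hs ι S F Λ w h1 h2 h3 h4 h5 => ?_⟩
  refine (rowsA hs (T := S) (F := F) (w := w) ⟨h1, fun x hx => ?_, h2, h4⟩).trans ?_
  · obtain ⟨⟨a1, a2⟩, a3, a4⟩ := hx
    exact h3 x (abs_le.2 ⟨by linarith, by linarith⟩) a3 a4
  · gcongr with i hi
    exact h5 i hi

end Pool.Agent.QL
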