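import Pool.Agent.P.MP_7a6434d8_pr.QL.Net.Defs

/-! Block NET: frames, data, systems, measurability. -/

open MeasureTheory Set Filter Topology Metric
open scoped ENNReal

namespace Pool.Agent.QL

open Pool.Agent.LGD

namespace Fr

theorem symm_map (F : Fr) (x : ℂ) : F.symm.map x = F.inv x := by
  have h := F.a_ne
  change F.a⁻¹ * x + (0 - F.z) / F.a = (x - F.z) / F.a
  field_simp
  ring

theorem symm_inv (F : Fr) (x : ℂ) : F.symm.inv x = F.map x := by
  rw [← F.symm.inv_map (F.map x), symm_map, inv_map]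

theorem core_eq (F : Fr) : F.core = F.inv ⁻¹' ball 0 1 := F.image_eq _

theorem body_eq (F : Fr) : F.body = F.inv ⁻¹' ball 0 4 := F.image_eq _

theorem nframe_pre_id (x : Data) {f g : ℂ → ℂ} (h : ∀ w, f (g w) = w) :
    Data.pre (x.pre f) g = x := by
  have h1 : ∀ S : Set ℂ, g ⁻¹' (f ⁻¹' S) = S := fun S => by
    ext w
    simp only [mem_preimage, h]
  refine Prod.ext (h1 _) ?_
  simp only [Data.pre, List.map_map]
  refine (List.map_congr_left fun c _ => ?_).trans (List.map_id _)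
  exact Prod.ext (h1 _) rfl

theorem act_symm (F : Fr) (i : Idx) : F.act (F.symm.act i) = i :=
  Subtype.ext (nframe_pre_id i.1 fun w => by rw [symm_inv, map_inv])

theorem symm_act (F : Fr) (i : Idx) : F.symm.act (F.act i) = i :=
  Subtype.ext (nframe_pre_id i.1 fun w => by rw [symm_inv, inv_map])

end Fr

theorem rotF_map (j : ℕ) (x : ℂ) : (rotF j).map x = Complex.I ^ j * x := by
  rw [Fr.map_apply, rotF_a, rotF_z, add_zero]

theorem rotF_inv (j : ℕ) (x : ℂ) : (rotF j).inv x = rot j x := by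
  have h := rot_I_pow_mul j ((rotF j).inv x)
  rw [← rotF_map, Fr.map_inv] at h
  exact h.symm

theorem rotF_rect (a b c : ℝ) (j : ℕ) : (rotF j).inv ⁻¹' rect a b c 0 = rect a b c j := by
  ext x
  simp only [mem_preimage, rect, mem_ofPred_eq, rot_zero, rotF_inv]

theorem pull_rotF_zero (s : Sys) : pull (rotF 0) s = s := by
  have h : ∀ i : Idx, (rotF 0).act i = i := fun i => by
    refine Subtype.ext ?_
    have h1 : (rotF 0).inv = id := funext fun x => by rw [rotF_inv, rot_zero]; rfl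
    change i.1.pre (rotF 0).inv = i.1
    rw [h1]
    simp [Data.pre]
  simp only [pull, h]

theorem bar_eq (a b c w : ℝ) : bar a b c w = zon (rect a b c 0)
    (rect a b c 0 ∩ {x | x.re < -w}) (rect a b c 0 ∩ {x | w < x.re}) := rfl

theorem zon_pre {A : Type} (K U V : Set ℂ) (p : A → ℂ) :
    Data.pre (zon K U V) p = zon (p ⁻¹' K) (p ⁻¹' U) (p ⁻¹' V) := rfl

theorem nframe_bdd {U : Set ℂ} (h : IsQU U) : Bornology.IsBounded U := by
  obtain ⟨s, hs, rfl⟩ := h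
  refine (Bornology.isBounded_biUnion_finset s).2 fun T hT => ?_
  obtain ⟨c, r, -, -, -, rfl⟩ := hs T hT
  exact isBounded_ball

theorem nframe_open {U : Set ℂ} (h : IsQU U) : IsOpen U := by
  obtain ⟨s, hs, rfl⟩ := h
  exact isOpen_biUnion fun T hT => (hs T hT).isOpen

theorem nframe_cover {K O : Set ℂ} (hK : IsCompact K) (hO : IsOpen O) (h : K ⊆ O) :
    ∃ U, IsQU U ∧ K ⊆ U ∧ closure U ⊆ O := by
  classical
  have hb : ∀ x ∈ K, ∃ T, IsQBall T ∧ x ∈ T ∧ closure T ⊆ O := fun x hx => by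
    obtain ⟨r, hr, h'⟩ := Metric.isOpen_iff.1 hO x (h hx)
    obtain ⟨T, h1, h2, -, h3⟩ := exists_isQBall_pair (mem_ball_self hr : x ∈ ball x r)
      (mem_ball_self hr)
    exact ⟨T, h1, h2, h3.trans h'⟩
  choose! T h1 h2 h3 using hb
  obtain ⟨t, ht, hc⟩ := hK.elim_nhds_subcover T fun x hx => (h1 x hx).isOpen.mem_nhds (h2 x hx)
  refine ⟨⋃ x ∈ t, T x, ⟨t.image T, fun S hS => ?_, by rw [Finset.set_biUnion_finset_image]⟩, hc,
    ?_⟩
  · obtain ⟨x, hx, rfl⟩ := Finset.mem_image.1 hS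
    exact h1 x (ht x hx)
  · rw [Finset.closure_biUnion]
    exact iUnion₂_subset fun x hx => h3 x (ht x hx)

theorem nframe_bdd_pre (F : Fr) {S : Set ℂ} (h : Bornology.IsBounded S) :
    Bornology.IsBounded (F.inv ⁻¹' S) := by
  rw [← F.image_eq]
  exact ((h.isCompact_closure.image F.continuous_map).isBounded).subset
    (image_mono subset_closure)

theorem nframe_closure_pre (F : Fr) (S : Set ℂ) :
    closure (F.inv ⁻¹' S) ⊆ F.inv ⁻¹' closure S :=
  F.continuous_inv.closure_preimage_subset S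

namespace Data

theorem pre_pre {A : Type} (x : Data) (f : ℂ → ℂ) (p : A → ℂ) :
    Data.pre (x.pre f) p = x.pre fun d => f (p d) := by
  simp only [Data.pre, List.map_map]
  rfl

theorem Le.refl (x : Data) : x.Le x :=
  ⟨subset_rfl, fun c hc => ⟨c, hc, subset_rfl, le_rfl, le_rfl⟩⟩

theorem Le.trans {x y z : Data} (h : x.Le y) (h' : y.Le z) : x.Le z := by
  refine ⟨h.1.trans h'.1, fun c hc => ?_⟩
  obtain ⟨c', hc', h1, h2, h3⟩ := h.2 c hc
  obtain ⟨c'', hc'', h4, h5, h6⟩ := h'.2 c' hc'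
  exact ⟨c'', hc'', h1.trans h4, h2.trans h5, h6.trans h3⟩

theorem Sub.le {x y : Data} (h : x.Sub y) : x.Le y := by
  refine ⟨subset_closure.trans h.2.1, fun c hc => ?_⟩
  obtain ⟨-, c', hc', h1, h2, h3⟩ := h.2.2 c hc
  exact ⟨c', hc', subset_closure.trans (h1.trans inter_subset_left), h2, h3⟩

theorem Sub.trans_le {x y z : Data} (h : x.Sub y) (h' : y.Le z) : x.Sub z := by
  refine ⟨h.1, h.2.1.trans h'.1, fun c hc => ?_⟩
  obtain ⟨hb, c', hc', h1, h2, h3⟩ := h.2.2 c hc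
  obtain ⟨c'', hc'', h4, h5, h6⟩ := h'.2 c' hc'
  exact ⟨hb, c'', hc'', h1.trans (inter_subset_inter h4 h'.1), h2.trans h5, h6.trans h3⟩

theorem Sub.pre {x y : Data} (h : x.Sub y) (F : Fr) :
    Data.Sub (x.pre F.inv) (y.pre F.inv) := by
  refine ⟨nframe_bdd_pre F h.1, (nframe_closure_pre F _).trans (preimage_mono h.2.1),
    fun c hc => ?_⟩
  obtain ⟨c₀, hc₀, rfl⟩ := List.mem_map.1 hc
  obtain ⟨hb, c', hc', h1, h2, h3⟩ := h.2.2 c₀ hc₀
  exact ⟨nframe_bdd_pre F hb, _, List.mem_map.2 ⟨c', hc', rfl⟩,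
    (nframe_closure_pre F _).trans (preimage_mono h1), h2, h3⟩

theorem Le.pre {x y : Data} (h : x.Le y) (f : ℂ → ℂ) : Data.Le (x.pre f) (y.pre f) := by
  refine ⟨preimage_mono h.1, fun c hc => ?_⟩
  obtain ⟨c₀, hc₀, rfl⟩ := List.mem_map.1 hc
  obtain ⟨c', hc', h1, h2, h3⟩ := h.2 c₀ hc₀
  exact ⟨_, List.mem_map.2 ⟨c', hc', rfl⟩, preimage_mono h1, h2, h3⟩

theorem Opn.pre {y : Data} (h : y.Opn) (F : Fr) : Data.Opn (y.pre F.inv) := by
  refine ⟨h.1.preimage F.continuous_inv, fun c hc => ?_⟩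
  obtain ⟨c₀, hc₀, rfl⟩ := List.mem_map.1 hc
  exact ⟨(h.2 c₀ hc₀).1.preimage F.continuous_inv, (h.2 c₀ hc₀).2⟩

theorem IsQ.opn {y : Data} (h : y.IsQ) : y.Opn :=
  ⟨nframe_open h.1, fun c hc => ⟨nframe_open (h.2 c hc).1, (h.2 c hc).2⟩⟩

/-- Rational data between `x` and `y`. -/
theorem Sub.exists_idx {x y : Data} (h : x.Sub y) (hy : y.Opn) :
    ∃ i : Idx, x.Sub i.1 ∧ i.1.Sub y := by
  have hx : ∀ c ∈ x.2, ∃ e : Set ℂ × ℝ × ℝ, IsQU e.1 ∧ closure c.1 ⊆ e.1 ∧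
      c.2.1 ≤ e.2.1 ∧ e.2.2 ≤ c.2.2 ∧ ∃ c' ∈ y.2, closure e.1 ⊆ c'.1 ∩ y.1 ∧ e.2 = c'.2 :=
    fun c hc => by
      obtain ⟨hb, c', hc', h1, h2, h3⟩ := h.2.2 c hc
      obtain ⟨A, a1, a2, a3⟩ := nframe_cover hb.isCompact_closure
        ((hy.2 c' hc').1.inter hy.1) h1
      exact ⟨(A, c'.2), a1, a2, h2, h3, c', hc', a3, rfl⟩
  choose! e e1 e2 e3 e4 e5 using hx
  have hc : IsCompact (closure x.1 ∪ ⋃ c ∈ {c | c ∈ x.2}, closure c.1) :=
    h.1.isCompact_closure.union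
      ((List.finite_toSet x.2).isCompact_biUnion fun c hc => (h.2.2 c hc).1.isCompact_closure)
  obtain ⟨K, k1, k2, k3⟩ := nframe_cover hc hy.1 (union_subset h.2.1 (iUnion₂_subset
    fun c hc => by
      obtain ⟨-, c', -, h1, -⟩ := h.2.2 c hc
      exact h1.trans inter_subset_right))
  refine ⟨⟨(K, x.2.map e), k1, List.forall_mem_map.2 fun c hc => ⟨e1 c hc, ?_⟩⟩,
    ⟨h.1, subset_union_left.trans k2, fun c hc => ⟨(h.2.2 c hc).1, e c,
      List.mem_map.2 ⟨c, hc, rfl⟩, subset_inter (e2 c hc) ?_, e3 c hc, e4 c hc⟩⟩,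
    ⟨nframe_bdd k1, k3, List.forall_mem_map.2 fun c hc => ⟨nframe_bdd (e1 c hc), ?_⟩⟩⟩
  · obtain ⟨c', hc', -, h2⟩ := e5 c hc
    rw [h2]
    exact (hy.2 c' hc').2
  · refine Subset.trans ?_ (subset_union_right.trans k2)
    exact subset_biUnion_of_mem (u := fun c : Set ℂ × ℝ × ℝ => closure c.1) hc
  · obtain ⟨c', hc', h1, h2⟩ := e5 c hc
    exact ⟨c', hc', h1, (congrArg Prod.fst h2).le, (congrArg Prod.snd h2).ge⟩

end Data

theorem zon_opn {K A B : Set ℂ} (hK : IsOpen K) (hA : IsOpen A) (hB : IsOpen B) :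
    Data.Opn (zon K A B) :=
  ⟨hK, List.forall_mem_cons.2 ⟨⟨hA, ⟨0, by simp⟩, 0, by simp⟩,
    List.forall_mem_singleton.2 ⟨hB, ⟨1, by simp⟩, 1, by simp⟩⟩⟩

theorem bar_opn (a b c w : ℝ) : (bar a b c w).Opn :=
  zon_opn (isOpen_rect a b c 0)
    ((isOpen_rect a b c 0).inter (isOpen_lt Complex.continuous_re continuous_const))
    ((isOpen_rect a b c 0).inter (isOpen_lt continuous_const Complex.continuous_re))

theorem zon_le {K A B K' A' B' : Set ℂ} (hK : K ⊆ K') (hA : A ⊆ A') (hB : B ⊆ B') :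
    Data.Le (zon K A B) (zon K' A' B') :=
  ⟨hK, List.forall_mem_cons.2 ⟨⟨(A', 0, 0), List.mem_cons_self, hA, le_rfl, le_rfl⟩,
    List.forall_mem_singleton.2 ⟨(B', 1, 1), List.mem_cons_of_mem _ List.mem_cons_self, hB,
      le_rfl, le_rfl⟩⟩⟩

theorem zon_sub {K A B K' A' B' : Set ℂ} (hK : IsCompact K) (hA : IsCompact A) (hB : IsCompact B)
    (h1 : K ⊆ K') (h2 : A ⊆ A' ∩ K') (h3 : B ⊆ B' ∩ K') :
    Data.Sub (zon K A B) (zon K' A' B') :=
  ⟨hK.isBounded, hK.isClosed.closure_subset.trans h1, List.forall_mem_cons.2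
    ⟨⟨hA.isBounded, (A', 0, 0), List.mem_cons_self, hA.isClosed.closure_subset.trans h2,
      le_rfl, le_rfl⟩,
    List.forall_mem_singleton.2 ⟨hB.isBounded, (B', 1, 1),
      List.mem_cons_of_mem _ List.mem_cons_self, hB.isClosed.closure_subset.trans h3,
      le_rfl, le_rfl⟩⟩⟩

theorem isCompact_crect (x₀ x₁ y₀ y₁ : ℝ) : IsCompact (crect x₀ x₁ y₀ y₁) :=
  isCompact_Icc.reProdIm isCompact_Icc

theorem convex_crect (x₀ x₁ y₀ y₁ : ℝ) : Convex ℝ (crect x₀ x₁ y₀ y₁) :=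
  ((convex_halfSpace_re_ge x₀).inter (convex_halfSpace_re_le x₁)).inter
    ((convex_halfSpace_im_ge y₀).inter (convex_halfSpace_im_le y₁))

theorem En_mono (s : Idx → ℝ≥0∞) {x y : Data} (h : x.Le y) : En s x ≤ En s y :=
  iSup₂_le fun i hi => le_iSup₂_of_le i (hi.trans_le h) le_rfl

theorem le_En (s : Idx → ℝ≥0∞) {i : Idx} {y : Data} (h : i.1.Sub y) : s i ≤ En s y :=
  le_iSup₂_of_le i h le_rfl

theorem En_act (F : Fr) (s : Idx → ℝ≥0∞) (y : Data) :
    En (fun i => s (F.act i)) y = En s (y.pre F.inv) := by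
  refine le_antisymm (iSup₂_le fun i hi => le_En s (i := F.act i) (hi.pre F))
    (iSup₂_le fun i hi => ?_)
  have h := hi.pre F.symm
  rw [Fr.nframe_pre_id y fun w => by rw [Fr.symm_inv, Fr.inv_map]] at h
  have h2 := le_En (fun i => s (F.act i)) (i := F.symm.act i) h
  simpa only [Fr.act_symm] using h2

theorem En_pull_fst (F : Fr) (s : Sys) (y : Data) :
    En (pull F s).1 y = En s.1 (y.pre F.inv) := En_act F s.1 y

theorem En_pull_snd (F : Fr) (s : Sys) (y : Data) :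
    En (pull F s).2 y = En s.2 (y.pre F.inv) := En_act F s.2 y

theorem measurable_Loop_SS (F : Fr) : Measurable[SS (F.map '' ann 0 2 4)] (Loop F) := by
  refine Measurable.iSup fun j => ?_
  have h1 := measurable_Rp_SS.comp (measurable_pull_SS (F.comp (rotF j)) Tp.1)
  refine h1.mono (SS_mono ?_) le_rfl
  rintro _ ⟨x, hx, rfl⟩
  refine ⟨(rotF j).map x, ?_, (F.comp_map _ x).symm⟩
  have h2 := Tp_subset hx
  simpa only [ann, mem_ofPred_eq, sub_zero, norm_rotF_map] using h2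

theorem Rp_le_Loop (F : Fr) (s : Sys) {j : ℕ} (hj : j < 4) :
    Rp (pull (F.comp (rotF j)) s).1 ≤ Loop F s := Loop_le_iff.1 le_rfl j hj

end Pool.Agent.QL
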