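import Pool.Agent.P.MP_7a6434d8_pr.QL.Net.Wall
import Pool.Agent.P.MP_7a6434d8_pr.QL.Net.Lim
import Pool.Agent.P.MP_7a6434d8_pr.QL.NBasic

/-! Block NET: dual cutoffs from loops (N10). -/

open Set Filter Topology Metric
open scoped ENNReal

namespace Pool.Agent.QL

open Pool.Agent.LGD

/-- The constraints of a cutoff. -/
theorem ncut_adm {M : FMap} {I O : Set M.D} {g : M.D → ℝ} :
    M.Adm [(I, 1, 1), (O, 0, 0), (univ, 0, 1)] g ↔ Inv M.σ g ∧ (∀ d, 0 ≤ g d ∧ g d ≤ 1) ∧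
      (∀ d ∈ I, g d = 1) ∧ ∀ d ∈ O, g d = 0 := by
  constructor
  · rintro ⟨h0, h⟩
    refine ⟨h0, fun d => h (univ, 0, 1) (by simp) d trivial, fun d hd => ?_, fun d hd => ?_⟩
    · have h1 := h (I, 1, 1) (by simp) d hd
      exact le_antisymm h1.2 h1.1
    · have h1 := h (O, 0, 0) (by simp) d hd
      exact le_antisymm h1.2 h1.1
  · rintro ⟨h0, h1, h2, h3⟩
    refine ⟨h0, fun c hc d hd => ?_⟩
    simp only [List.mem_cons, List.not_mem_nil, or_false] at hc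
    rcases hc with rfl | rfl | rfl
    · exact ⟨(h2 d hd).ge, (h2 d hd).le⟩
    · exact ⟨(h3 d hd).ge, (h3 d hd).le⟩
    · exact h1 d

/-- The indicator of the faces reached from `I` without crossing a wall. -/
theorem ncut_test {M : FMap} {Γ I O : Set M.D} {b : M.D} (hw : M.Wall Γ b I O) (f : M.D → ℝ) :
    ∃ g, M.dual.Adm [(I, 1, 1), (O, 0, 0), (univ, 0, 1)] g ∧
      M.bil univ f g ≤ M.wt (M.grad univ f) Γ := by
  classical
  let G : Set M.D := {y | y ∉ Γ ∧ M.α y ∉ Γ}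
  let g : M.D → ℝ := fun y => if ∃ u ∈ I, M.dual.Con G u y then 1 else 0
  have h01 : ∀ y, g y = 0 ∨ g y = 1 := fun y => by
    by_cases hy : ∃ u ∈ I, M.dual.Con G u y
    · exact .inr (if_pos hy)
    · exact .inl (if_neg hy)
  refine ⟨g, (ncut_adm (M := M.dual)).2 ⟨fun d => ?_, fun d => ?_, fun d hd => ?_, fun d hd => ?_⟩,
    FMap.bil_le_wt (fun d => ?_) fun d _ h1 h2 => ?_⟩
  · exact if_congr (FMap.con_sigma (M := M.dual) (Γ := G) I d) rfl rfl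
  · rcases h01 d with h | h <;> rw [h] <;> norm_num
  · exact if_pos ⟨d, hd, FMap.Con.refl (M := M.dual) G d⟩
  · refine if_neg ?_
    rintro ⟨u, hu, hc⟩
    obtain ⟨y, h1, h2⟩ := hw.pd G u d hu hd hc
    rcases h2 with h2 | h2
    · exact h1.elim h2.1 h2.2
    · have h3 := h2.2
      rw [M.α_α] at h3
      exact h1.elim h3 h2.1
  · rcases h01 d with h | h <;> rcases h01 (M.α d) with h' | h' <;> rw [h, h'] <;> norm_num
  · have hc : M.dual.Con G d (M.α d) := FMap.Con.alpha (M := M.dual) (.inl ⟨h1, h2⟩)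
    exact if_congr ⟨fun ⟨u, hu, h⟩ => ⟨u, hu, h.trans hc.symm⟩,
      fun ⟨u, hu, h⟩ => ⟨u, hu, h.trans hc⟩⟩ rfl rfl

/-- The finite form of N10. -/
theorem FMap.Fine.cut {M : FMap} {p : M.D → ℂ} (h : M.Fine p 20 (1 / 1000000)) {x : ℝ}
    (hx : 0 ≤ x) (hr : M.Ring p x) : ∃ χ : M.D → ℝ, Inv M.φ χ ∧ (∀ d, 0 ≤ χ d ∧ χ d ≤ 1) ∧
      (∀ d, p d ∈ inn → χ d = 1) ∧ (∀ d, p d ∈ out → χ d = 0) ∧
      M.en univ χ ≤ 16 * x := by
  have key : ∀ f : M.D → ℝ, ∃ g,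
      M.dual.Adm [(p ⁻¹' inn, 1, 1), (p ⁻¹' out, 0, 0), (univ, 0, 1)] g ∧
      M.dual.bil univ f g ≤ √(16 * x * M.dual.en univ f) := fun f => by
    obtain ⟨Γ, -, b, -, -, h1, hw⟩ := h.wall hr (FMap.isW_grad univ f)
    obtain ⟨g, hg, h2⟩ := ncut_test hw f
    refine ⟨g, hg, (h2.trans h1).trans ?_⟩
    have h3 : M.sq (p ⁻¹' ann 0 2 4) (M.grad univ f) ≤ M.en univ f :=
      (FMap.sq_mono (subset_univ _) _).trans (FMap.sq_grad univ f).le
    have h4 : √(16 * x * M.en univ f) = 4 * √(x * M.en univ f) := by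
      rw [mul_assoc, Real.sqrt_mul (by norm_num), show (16 : ℝ) = 4 ^ 2 by norm_num,
        Real.sqrt_sq (by norm_num)]
    refine le_trans ?_ h4.ge
    exact mul_le_mul_of_nonneg_left (Real.sqrt_le_sqrt (mul_le_mul_of_nonneg_left h3 hx))
      (by norm_num)
  have h1 := FMap.dE_le_of_test (M := M.dual) key
  obtain ⟨χ, h2, h3, -⟩ := FMap.exists_min (M := M.dual) univ ((key 0).imp fun _ hg => hg.1)
  rw [h3, ENNReal.ofReal_le_ofReal_iff (by positivity)] at h1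
  obtain ⟨h4, h5, h6, h7⟩ := (ncut_adm (M := M.dual)).1 h2
  exact ⟨χ, h4, h5, h6, h7, h1⟩

theorem ncut_inn {w : ℂ} (h : ‖w‖ ≤ 1) : w ∈ inn :=
  ⟨by linarith [Complex.abs_re_le_norm w], by linarith [Complex.abs_im_le_norm w]⟩

theorem ncut_out {w : ℂ} (h : 5 ≤ ‖w‖) : w ∈ out := by
  by_contra h1
  simp only [out, mem_ofPred_eq, not_or, not_lt] at h1
  have h2 : ‖w‖ ^ 2 = w.re * w.re + w.im * w.im := by rw [Complex.sq_norm, Complex.normSq_apply]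
  have h3 := abs_le.1 h1.1
  have h4 := abs_le.1 h1.2
  nlinarith

/-- N10. -/
theorem FNet.cut_of_loop {N : FNet} {s : Sys} (hs : N.Real s) {F : Fr} {Λ : ℝ} (hΛ : 0 < Λ)
    (h : ∀ l < 4, Rp (QL.pull (F.comp (rotF l)) s).1 < ENNReal.ofReal Λ) :
    N.dual.Cut (closedBall F.z ‖F.a‖) (ball F.z (5 * ‖F.a‖)) (16 * Λ) := by
  have hl : Loop F s < ENNReal.ofReal Λ := by
    obtain ⟨j, hj⟩ := exists_eq_ciSup_of_finite
      (f := fun j : Fin 4 => Rp (QL.pull (F.comp (rotF j)) s).1)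
    rw [Loop, ← hj]
    exact h j j.2
  have ha := F.a_pos
  have hf : ∀ᶠ k in (N.U : Filter ℕ),
      (N.M k).Fine (fun d => F.inv (N.p k d)) 20 (1 / 1000000) :=
    (N.pull F).fine 20 (by norm_num)
  have hc : ∀ᶠ k in (N.U : Filter ℕ), ∃ χ : (N.M k).D → ℝ, Inv (N.M k).φ χ ∧
      (∀ d, 0 ≤ χ d ∧ χ d ≤ 1) ∧ (∀ d, N.p k d ∈ closedBall F.z ‖F.a‖ → χ d = 1) ∧
      (∀ d, N.p k d ∉ ball F.z (5 * ‖F.a‖) → χ d = 0) ∧ N.dual.en k univ χ χ ≤ 16 * Λ := by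
    filter_upwards [hf, hs.ring hl] with k h1 h2
    have hk := N.κ_pos k
    obtain ⟨χ, h3, h4, h5, h6, h7⟩ := h1.cut (mul_pos hΛ hk).le h2
    refine ⟨χ, h3, h4, fun d hd => h5 d (ncut_inn ?_), fun d hd => h6 d (ncut_out ?_), ?_⟩
    · rw [Fr.inv, norm_unaff, div_le_one ha]
      exact mem_closedBall_iff_norm.1 hd
    · rw [Fr.inv, norm_unaff, le_div_iff₀ ha]
      exact not_lt.1 fun h8 => hd (mem_ball_iff_norm.2 h8)
    · refine (N.dual.en_eq k univ χ).trans_le ?_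
      show (N.κ k)⁻¹ * (N.M k).en univ χ ≤ 16 * Λ
      rw [inv_mul_le_iff₀ hk]
      linarith
  exact hc

end Pool.Agent.QL
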