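import Pool.Agent.P.MP_7a6434d8_pr.QL.Net.Plus
import Pool.Agent.P.MP_7a6434d8_pr.QL.Net.Lim

/-! Block NET: dual resistance is at most primal conductance (N9). -/

open Set Filter Topology Metric
open scoped ENNReal

namespace Pool.Agent.QL

open Pool.Agent.LGD

variable {x₀ x₁ y₀ y₁ w : ℝ}

/-- The rectangle with its left and right strips. -/
def horz (x₀ x₁ y₀ y₁ w : ℝ) : Data :=
  zon (crect x₀ x₁ y₀ y₁) (crect x₀ (x₀ + w) y₀ y₁) (crect (x₁ - w) x₁ y₀ y₁)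

/-- The rectangle with its bottom and top strips. -/
def vert (x₀ x₁ y₀ y₁ w : ℝ) : Data :=
  zon (crect x₀ x₁ y₀ y₁) (crect x₀ x₁ y₀ (y₀ + w)) (crect x₀ x₁ (y₁ - w) y₁)

theorem ndualb_mid {M : FMap} {p : M.D → ℂ} {R η : ℝ} (h : M.Fine p R η)
    (hR : Bd R x₀ x₁ y₀ y₁) {L : ℂ → ℝ} (hL : ∀ w w', |L w - L w'| ≤ ‖w - w'‖) {a b : ℝ}
    {F : M.D → ℝ} (h0 : ∀ d, p d ∈ crect x₀ x₁ y₀ y₁ → L (p d) ≤ a → F d = 0)
    (h1 : ∀ d, p d ∈ crect x₀ x₁ y₀ y₁ → b ≤ L (p d) → F d = 1) (hη : 0 ≤ η) {d : M.D}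
    (hd : d ∈ M.ed (p ⁻¹' crect x₀ x₁ y₀ y₁)) (hne : F (M.α d) ≠ F d) :
    a - η ≤ L (p d) ∧ L (p d) ≤ b + η := by
  have h2 := abs_le.1 ((hL _ _).trans (h.alpha (hR _ hd.1)))
  constructor
  · by_contra hc
    exact hne ((h0 _ hd.2 (by linarith [h2.2])).trans (h0 _ hd.1 (by linarith)).symm)
  · by_contra hc
    exact hne ((h1 _ hd.2 (by linarith [h2.1])).trans (h1 _ hd.1 (by linarith)).symm)

theorem ndualb_zero {M : FMap} {p : M.D → ℂ} {R η : ℝ} (h : M.Fine p R η)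
    (hR : Bd R x₀ x₁ y₀ y₁) (hη : 0 ≤ η) {F G G' : M.D → ℝ} (hF : Inv M.σ F) (hG : Inv M.φ G)
    (hG' : Inv M.φ G') (hin : ∀ d ∈ M.ed (p ⁻¹' crect x₀ x₁ y₀ y₁), F (M.α d) ≠ F d →
      G d ≠ G' d → p d ∈ crect (x₀ + 2 * η) (x₁ - 2 * η) (y₀ + 2 * η) (y₁ - 2 * η)) :
    M.bil (p ⁻¹' crect x₀ x₁ y₀ y₁) F G = M.bil (p ⁻¹' crect x₀ x₁ y₀ y₁) F G' := by
  rw [← sub_eq_zero, ← FMap.bil_sub]
  refine FMap.face_sum hF (fun d => by rw [hG d, hG' d]) fun d hd h1 h2 e he => ?_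
  have h3 := mem_crect_of_near (hin d hd h1 (sub_ne_zero.1 h2)) (h.phi (hR _ hd.1) he)
  have h4 : p e ∈ crect x₀ x₁ y₀ y₁ :=
    crect_mono (by linarith) (by linarith) (by linarith) (by linarith) h3
  exact ⟨h4, crect_mono (by linarith) (by linarith) (by linarith) (by linarith)
    (mem_crect_of_near h3 (h.alpha (hR _ h4)))⟩

theorem ndualb_re (w w' : ℂ) : |w.re - w'.re| ≤ ‖w - w'‖ := Complex.abs_re_le_norm (w - w')

theorem ndualb_im (w w' : ℂ) : |w.im - w'.im| ≤ ‖w - w'‖ := Complex.abs_im_le_norm (w - w')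

/-- The finite form of N9. -/
theorem FMap.Fine.dualB {M : FMap} {p : M.D → ℂ} {R η : ℝ} (h : M.Fine p R η) (hη : 0 ≤ η)
    (hw : 1000 * η ≤ w) (hw0 : 0 < w)
    (hR : Bd R (x₀ - 2 * w) (x₁ + 2 * w) (y₀ - 2 * w) (y₁ + 2 * w))
    (hx : x₀ + 4 * w ≤ x₁) (hy : y₀ + 4 * w ≤ y₁) {f g : M.D → ℝ} (hf : Inv M.σ f)
    (hf₀ : ∀ d, p d ∈ crect x₀ (x₀ + w) y₀ y₁ → f d = 0)
    (hf₁ : ∀ d, p d ∈ crect (x₁ - w) x₁ y₀ y₁ → f d = 1) (hg : Inv M.φ g)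
    (hg₀ : ∀ d, p d ∈ crect x₀ x₁ y₀ (y₀ + w) → g d = 0)
    (hg₁ : ∀ d, p d ∈ crect x₀ x₁ (y₁ - w) y₁ → g d = 1) :
    1 ≤ M.en (p ⁻¹' crect x₀ x₁ y₀ y₁) f * M.en (p ⁻¹' crect x₀ x₁ y₀ y₁) g := by
  have hR0 : Bd R x₀ x₁ y₀ y₁ := hR.mono (by linarith) (by linarith) (by linarith) (by linarith)
  obtain ⟨t, ht⟩ : ∃ t, t = (x₀ + x₁) / 2 := ⟨_, rfl⟩
  obtain ⟨s, hs⟩ : ∃ s, s = (y₀ + y₁) / 2 := ⟨_, rfl⟩
  obtain ⟨f', if', bf, f0, f1⟩ := h.ind Complex.re ndualb_re t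
  obtain ⟨g', ig', bg, g0, g1⟩ := h.dual.ind Complex.im ndualb_im s
  have a0 : ∀ d, p d ∈ crect x₀ x₁ y₀ y₁ → (p d).re ≤ x₀ + w → f d = 0 :=
    fun d hd h1 => hf₀ d ⟨⟨hd.1.1, h1⟩, hd.2⟩
  have a1 : ∀ d, p d ∈ crect x₀ x₁ y₀ y₁ → x₁ - w ≤ (p d).re → f d = 1 :=
    fun d hd h1 => hf₁ d ⟨⟨h1, hd.1.2⟩, hd.2⟩
  have b0 : ∀ d, p d ∈ crect x₀ x₁ y₀ y₁ → (p d).im ≤ y₀ + w → g d = 0 :=
    fun d hd h1 => hg₀ d ⟨hd.1, hd.2.1, h1⟩
  have b1 : ∀ d, p d ∈ crect x₀ x₁ y₀ y₁ → y₁ - w ≤ (p d).im → g d = 1 :=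
    fun d hd h1 => hg₁ d ⟨hd.1, h1, hd.2.2⟩
  have c0 : ∀ d, p d ∈ crect x₀ x₁ y₀ y₁ → (p d).re ≤ x₀ + w → f' d = 0 :=
    fun d hd h1 => f0 d (hR0 _ hd) (by linarith)
  have c1 : ∀ d, p d ∈ crect x₀ x₁ y₀ y₁ → x₁ - w ≤ (p d).re → f' d = 1 :=
    fun d _ h1 => f1 d (by linarith)
  have d0 : ∀ d, p d ∈ crect x₀ x₁ y₀ y₁ → (p d).im ≤ y₀ + w → g' d = 0 :=
    fun d hd h1 => g0 d (hR0 _ hd) (by linarith)
  have d1 : ∀ d, p d ∈ crect x₀ x₁ y₀ y₁ → y₁ - w ≤ (p d).im → g' d = 1 :=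
    fun d _ h1 => g1 d (by linarith)
  have e1 : M.bil (p ⁻¹' crect x₀ x₁ y₀ y₁) f g = M.bil (p ⁻¹' crect x₀ x₁ y₀ y₁) f g' := by
    refine ndualb_zero h hR0 hη hf hg ig' fun d hd h1 h2 => ?_
    have h3 := ndualb_mid h hR0 ndualb_re a0 a1 hη hd h1
    have h4 : ¬ (p d).im ≤ y₀ + w := fun k => h2 ((b0 d hd.1 k).trans (d0 d hd.1 k).symm)
    have h5 : ¬ y₁ - w ≤ (p d).im := fun k => h2 ((b1 d hd.1 k).trans (d1 d hd.1 k).symm)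
    exact ⟨⟨by linarith [h3.1], by linarith [h3.2]⟩, by linarith, by linarith⟩
  have e2 : M.bil (p ⁻¹' crect x₀ x₁ y₀ y₁) g' f = M.bil (p ⁻¹' crect x₀ x₁ y₀ y₁) g' f' := by
    refine ndualb_zero (M := M.dual) h.dual hR0 hη ig' hf if' fun d hd h1 h2 => ?_
    have h3 := ndualb_mid (M := M.dual) h.dual hR0 ndualb_im d0 d1 hη hd h1
    have h4 : ¬ (p d).re ≤ x₀ + w := fun k => h2 ((a0 d hd.1 k).trans (c0 d hd.1 k).symm)
    have h5 : ¬ x₁ - w ≤ (p d).re := fun k => h2 ((a1 d hd.1 k).trans (c1 d hd.1 k).symm)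
    exact ⟨⟨by linarith, by linarith⟩, by linarith [h3.1], by linarith [h3.2]⟩
  obtain ⟨c, hc, -⟩ := h.near (x₀ + w / 2) s
    (hR0.pt (by linarith) (by linarith) (by linarith) (by linarith))
  obtain ⟨c', hc', -⟩ := h.near (x₁ - w / 2) s
    (hR0.pt (by linarith) (by linarith) (by linarith) (by linarith))
  have k : p c ∈ crect x₀ x₁ y₀ y₁ :=
    crect_mono (by linarith) (by linarith) (by linarith) (by linarith) hc
  have k' : p c' ∈ crect x₀ x₁ y₀ y₁ :=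
    crect_mono (by linarith) (by linarith) (by linarith) (by linarith) hc'
  have G1 := h.con_crect (x₀ := x₀ + w / 2 - η) (x₁ := x₁ - w / 2 + η) (hR0 _ k) (hR0 _ k')
    (crect_mono le_rfl (by linarith) le_rfl le_rfl hc)
    (crect_mono (by linarith) le_rfl le_rfl le_rfl hc')
  have G2 := h.around (x₁ := t) (x₂ := t) hη (by linarith) hR le_rfl
    (crect_mono (by linarith) (by linarith) (by linarith) (by linarith) hc)
    (crect_mono (by linarith) (by linarith) (by linarith) (by linarith) hc')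
  obtain ⟨-, a, b, -, -, -, -, -, hab⟩ := h.sep (t := t) (m := w / 4) hη (by linarith)
    (by linarith) (hR.mono (x₀ := x₀ - w / 4) (x₁ := x₁ + w / 4) (y₀ := y₀ - w / 4)
      (y₁ := y₁ + w / 4) (by linarith) (by linarith) (by linarith) (by linarith))
    (by linarith) (by linarith) (by linarith) if' (fun d hd h1 => f0 d (hR0 _ hd) h1)
    (fun d _ h1 => f1 d (by linarith))
    (FMap.ed_mono (preimage_mono
      (crect_mono (by linarith) (by linarith) (by linarith) (by linarith))))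
    (FMap.ed_mono (preimage_mono fun z hz hz' => by
      rcases hz with hz | hz | hz
      · linarith [hz'.1.1]
      · linarith [hz'.1.2]
      · linarith [hz'.2.2]))
    G1 G2 (c0 c k (by linarith [hc.1.2])) (c1 c' k' (by linarith [hc'.1.1]))
  have e3 := hab g' ig'
    (fun d hd h1 => d0 d hd (by
      have := abs_le.1 ((ndualb_im (p d) ⟨t, y₀⟩).trans h1)
      linarith [this.2]))
    (fun d hd h1 => d1 d hd (by
      have := abs_le.1 ((ndualb_im (p d) ⟨t, y₁⟩).trans h1)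
      linarith [this.1]))
  obtain ⟨n, hn⟩ := FMap.bil_int (K := p ⁻¹' crect x₀ x₁ y₀ y₁) bf bg
  have hn0 : n ≠ 0 := by
    rintro rfl
    rw [hn] at e3
    simp at e3
  refine le_trans ?_ (FMap.bil_sq_le _ f g)
  rw [e1, FMap.bil_comm, e2, FMap.bil_comm, hn]
  exact_mod_cast (one_le_sq_iff_one_le_abs n).2 (Int.one_le_abs hn0)

theorem ndualb_aux (N : FNet) (hw : 0 < w) (hx : x₀ + 4 * w ≤ x₁) (hy : y₀ + 4 * w ≤ y₁) :
    (N.dual.limE (vert x₀ x₁ y₀ y₁ w))⁻¹ ≤ N.limE (horz x₀ x₁ y₀ y₁ w) := by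
  obtain ⟨R, hR⟩ := exists_bd (x₀ - 2 * w) (x₁ + 2 * w) (y₀ - 2 * w) (y₁ + 2 * w)
  refine le_of_tendsto_of_tendsto (N.dual.tendsto_limE _).inv (N.tendsto_limE _) ?_
  filter_upwards [N.fine R (show 0 < w / 1000 by positivity)] with k hk
  have hκ := N.κ_pos k
  have key : ((N.M k).dual.dE ((vert x₀ x₁ y₀ y₁ w).pre (N.p k)).1
      ((vert x₀ x₁ y₀ y₁ w).pre (N.p k)).2)⁻¹ ≤
      (N.M k).dE ((horz x₀ x₁ y₀ y₁ w).pre (N.p k)).1 ((horz x₀ x₁ y₀ y₁ w).pre (N.p k)).2 := by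
    refine FMap.le_dE fun f hf => ENNReal.inv_le_iff_inv_le.1 (FMap.le_dE fun g hg => ?_)
    obtain ⟨f1, f2, f3⟩ := FMap.adm_zon.1 hf
    obtain ⟨g1, g2, g3⟩ := FMap.adm_zon.1 hg
    have h1 := hk.dualB (by positivity) (by linarith) hw hR hx hy f1 f2 f3 g1 g2 g3
    rw [ENNReal.inv_le_iff_le_mul (fun h => absurd h ENNReal.ofReal_ne_top)
      (fun h => absurd h ENNReal.ofReal_ne_top), ← ENNReal.ofReal_mul (FMap.en_nonneg _ _)]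
    exact ENNReal.one_le_ofReal.2 h1
  change (ENNReal.ofReal (N.κ k)⁻¹ * _)⁻¹ ≤ _
  rw [ENNReal.mul_inv (Or.inl (ENNReal.ofReal_pos.2 (inv_pos.2 hκ)).ne')
    (Or.inl ENNReal.ofReal_ne_top), ENNReal.ofReal_inv_of_pos hκ, inv_inv]
  exact mul_le_mul_right key _

theorem FNet.dualB (N : FNet) (hw : 0 < w) (hx : x₀ < x₁) (hy : y₀ < y₁) :
    (N.dual.limE (vert x₀ x₁ y₀ y₁ w))⁻¹ ≤ N.limE (horz x₀ x₁ y₀ y₁ w) := by
  obtain ⟨v, h0, h1, h2, h3⟩ : ∃ v, 0 < v ∧ v ≤ w ∧ v ≤ (x₁ - x₀) / 4 ∧ v ≤ (y₁ - y₀) / 4 :=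
    ⟨min w (min ((x₁ - x₀) / 4) ((y₁ - y₀) / 4)), lt_min hw (lt_min (by linarith) (by linarith)),
      min_le_left _ _, (min_le_right _ _).trans (min_le_left _ _),
      (min_le_right _ _).trans (min_le_right _ _)⟩
  refine le_trans (ENNReal.inv_le_inv.2 (N.dual.limE_mono (x := vert x₀ x₁ y₀ y₁ v) ?_))
    ((ndualb_aux N h0 (by linarith) (by linarith)).trans (N.limE_mono ?_))
  · exact zon_le Subset.rfl (crect_mono le_rfl le_rfl le_rfl (by linarith))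
      (crect_mono le_rfl le_rfl (by linarith) le_rfl)
  · exact zon_le Subset.rfl (crect_mono le_rfl (by linarith) le_rfl le_rfl)
      (crect_mono (by linarith) le_rfl le_rfl le_rfl)

theorem FNet.dualB' (N : FNet) (hw : 0 < w) (hx : x₀ < x₁) (hy : y₀ < y₁) :
    (N.dual.limE (horz x₀ x₁ y₀ y₁ w))⁻¹ ≤ N.limE (vert x₀ x₁ y₀ y₁ w) := by
  have h := N.dual.dualB hw hx hy
  rw [FNet.dual_dual_limE] at h
  exact ENNReal.inv_le_iff_inv_le.1 h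

/-- N9, primal data across the left and right strips. -/
theorem dualB {s : Sys} (hs : Realized s) (hw : 0 < w) (hx : x₀ < x₁) (hy : y₀ < y₁) {y y' : Data}
    (ho : y.Opn) (ho' : y'.Opn) (h : (horz x₀ x₁ y₀ y₁ w).Sub y)
    (h' : (vert x₀ x₁ y₀ y₁ w).Sub y') : (En s.2 y')⁻¹ ≤ En s.1 y := by
  obtain ⟨N, h1, h2⟩ := hs
  exact (ENNReal.inv_le_inv.2 (h2.le_En h' ho')).trans
    ((N.dualB hw hx hy).trans (h1.le_En h ho))

/-- N9, primal data across the bottom and top strips. -/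
theorem dualB' {s : Sys} (hs : Realized s) (hw : 0 < w) (hx : x₀ < x₁) (hy : y₀ < y₁)
    {y y' : Data} (ho : y.Opn) (ho' : y'.Opn) (h : (vert x₀ x₁ y₀ y₁ w).Sub y)
    (h' : (horz x₀ x₁ y₀ y₁ w).Sub y') : (En s.2 y')⁻¹ ≤ En s.1 y := by
  obtain ⟨N, h1, h2⟩ := hs
  exact (ENNReal.inv_le_inv.2 (h2.le_En h' ho')).trans
    ((N.dualB' hw hx hy).trans (h1.le_En h ho))

end Pool.Agent.QL
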