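import Pool.Agent.P.MP_7a6434d8_pr.QL.Net.RowsB
import Pool.Agent.P.MP_7a6434d8_pr.QL.Net.DualA
import Pool.Agent.P.MP_7a6434d8_pr.QL.Net.DualB
import Pool.Agent.P.MP_7a6434d8_pr.QL.Net.Cut

/-! Block NET: all exports. -/
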