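import Pool.Agent.P.MP_7a6434d8_pr.QL.Net.Defs

/-! Block NET: connectivity and flows. -/

open Set Filter Topology Metric
open scoped ENNReal

namespace Pool.Agent.QL

open Pool.Agent.LGD

theorem Inv.same {D : Type} [Finite D] {π : Equiv.Perm D} {f : D → ℝ} (h : Inv π f) {d e : D}
    (hs : π.SameCycle d e) : f d = f e := by
  obtain ⟨n, rfl⟩ := hs.exists_nat_pow_eq
  clear hs
  induction n with
  | zero => rfl
  | succ n ih => rw [pow_succ', Equiv.Perm.mul_apply, h, ih]

namespace FMap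

variable {M : FMap} {Γ Δ K K' : Set M.D} {d e x : M.D} {f g ρ : M.D → ℝ}

theorem Adj.symm (h : M.Adj d e) : M.Adj e d := by
  rcases h with rfl | h | h
  exacts [Or.inl (M.α_α d).symm, Or.inr (Or.inl h.symm), Or.inr (Or.inr h.symm)]

theorem Step.adj (h : M.Step Γ d e) : M.Adj d e :=
  h.elim (fun h => Or.inr (Or.inr h)) fun h => Or.inl h.1

theorem nconn_symm (h : M.Step Γ d e) : M.Step Γ e d := by
  rcases h with h | ⟨rfl, h⟩
  exacts [Or.inl h.symm, Or.inr ⟨(M.α_α d).symm, h.symm⟩]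

theorem Con.refl (Γ : Set M.D) (d : M.D) : M.Con Γ d d := Relation.ReflTransGen.refl

theorem Con.symm (h : M.Con Γ d e) : M.Con Γ e d := by
  induction h with
  | refl => exact Con.refl _ _
  | tail _ h ih => exact Relation.ReflTransGen.head (nconn_symm h) ih

theorem Con.trans (h : M.Con Γ d e) (h' : M.Con Γ e x) : M.Con Γ d x :=
  Relation.ReflTransGen.trans h h'

theorem Con.mono (h : M.Con Γ d e) (hs : Γ ⊆ Δ) : M.Con Δ d e :=
  Relation.ReflTransGen.mono
    (fun _ _ h => h.imp_right fun h => ⟨h.1, h.2.imp (fun h => hs h) fun h => hs h⟩) _ _ h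

/-- Only the edges matter. -/
theorem Con.mono' (h : M.Con Γ d e) (hs : ∀ x ∈ Γ, x ∈ Δ ∨ M.α x ∈ Δ) : M.Con Δ d e := by
  refine Relation.ReflTransGen.mono (fun a b h => h.imp_right ?_) _ _ h
  rintro ⟨rfl, h | h⟩
  · exact ⟨rfl, hs a h⟩
  · have := hs _ h
    rw [M.α_α] at this
    exact ⟨rfl, this.symm⟩

theorem Con.of_same (Γ : Set M.D) (h : M.σ.SameCycle d e) : M.Con Γ d e :=
  Relation.ReflTransGen.single (Or.inl h)

theorem Con.alpha (h : d ∈ Γ ∨ M.α d ∈ Γ) : M.Con Γ d (M.α d) :=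
  Relation.ReflTransGen.single (Or.inr ⟨rfl, h⟩)

theorem mem_ed_alpha (h : d ∈ M.ed K) : M.α d ∈ M.ed K :=
  ⟨h.2, (M.α_α d).symm ▸ h.1⟩

theorem ed_mono (h : K ⊆ K') : M.ed K ⊆ M.ed K' := fun _ hd => ⟨h hd.1, h hd.2⟩

theorem Con.eq (h : M.Con Γ d e) (hf : Inv M.σ f) (he : ∀ x ∈ Γ, f (M.α x) = f x) :
    f d = f e := by
  induction h with
  | refl => rfl
  | tail _ h ih =>
    rcases h with h | ⟨rfl, h | h⟩
    · exact ih.trans (hf.same h)
    · exact ih.trans (he _ h).symm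
    · rw [ih, ← he _ h, M.α_α]

/-- The indicator of a union of components is a vertex function. -/
theorem con_sigma (A : Set M.D) (d : M.D) :
    (∃ a ∈ A, M.Con Γ a (M.σ d)) ↔ ∃ a ∈ A, M.Con Γ a d := by
  have h : M.Con Γ d (M.σ d) := Con.of_same Γ ⟨1, by simp⟩
  exact ⟨fun ⟨a, ha, h'⟩ => ⟨a, ha, h'.trans h.symm⟩, fun ⟨a, ha, h'⟩ => ⟨a, ha, h'.trans h⟩⟩

theorem nconn_lip (h : M.Con Γ d e) (hf : Inv M.σ f) :
    f e - f d ≤ M.wt (fun x => |f (M.α x) - f x|) Γ := by
  classical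
  have h1 : Ico (f d) (f e) ⊆ ⋃ x ∈ Finset.univ.filter (· ∈ Γ),
      Ico (min (f x) (f (M.α x))) (max (f x) (f (M.α x))) := by
    intro t ht
    by_contra hn
    have h2 := h.eq (f := fun x => if t < f x then 1 else 0) (fun x => by simp only [hf x])
      fun x hx => if_congr ?_ rfl rfl
    · rw [if_neg (not_lt.2 ht.1), if_pos ht.2] at h2
      exact zero_ne_one h2
    · have h3 : ¬ (min (f x) (f (M.α x)) ≤ t ∧ t < max (f x) (f (M.α x))) := fun h3 =>
        hn (mem_iUnion₂.2 ⟨x, Finset.mem_filter.2 ⟨Finset.mem_univ x, hx⟩, h3⟩)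
      rw [min_le_iff, lt_max_iff] at h3
      exact ⟨fun h4 => not_le.1 fun h5 => h3 ⟨Or.inl h5, Or.inr h4⟩,
        fun h4 => not_le.1 fun h5 => h3 ⟨Or.inr h5, Or.inl h4⟩⟩
  have h2 := (MeasureTheory.measureReal_mono (μ := MeasureTheory.volume) h1
    (MeasureTheory.measure_biUnion_ne_top (Finset.finite_toSet _)
      fun _ _ => measure_Ico_lt_top.ne)).trans (MeasureTheory.measureReal_biUnion_finset_le _ _)
  rw [Real.volume_real_Ico, Finset.sum_filter] at h2
  refine ((le_max_left _ _).trans h2).trans_eq (Finset.sum_congr rfl fun x _ => ?_)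
  rw [Real.volume_real_Ico_of_le min_le_max, max_sub_min_eq_abs]

/-- The oscillation along a connected set is at most the total variation. -/
theorem Con.lip (h : M.Con Γ d e) (hf : Inv M.σ f) :
    |f e - f d| ≤ M.wt (fun x => |f (M.α x) - f x|) Γ :=
  abs_sub_le_iff.2 ⟨nconn_lip h hf, nconn_lip h.symm hf⟩

/-- The unit flow of a path. -/
theorem Con.flow (h : M.Con Γ d e) : ∃ J : M.D → ℝ, (∀ x, J (M.α x) = -J x) ∧
    (∀ x, x ∉ Γ → M.α x ∉ Γ → J x = 0) ∧ ∀ g, Inv M.σ g → ∑ x, J x * g x = g d - g e := by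
  classical
  induction h with
  | refl => exact ⟨fun _ => 0, by simp, by simp, by simp⟩
  | @tail b c _ h ih =>
    obtain ⟨J, h1, h2, h3⟩ := ih
    rcases h with h | ⟨rfl, h⟩
    · exact ⟨J, h1, h2, fun g hg => by rw [h3 g hg, hg.same h]⟩
    refine ⟨fun x => J x + ((if x = b then 1 else 0) - if x = M.α b then 1 else 0), fun x => ?_,
      fun x g1 g2 => ?_, fun g hg => ?_⟩
    · have e : M.α x = b ↔ x = M.α b :=
        ⟨fun e => by rw [← e, M.α_α], fun e => by rw [e, M.α_α]⟩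
      simp only [h1, e, M.α.apply_eq_iff_eq]
      ring
    · have e1 : x ≠ b := by
        rintro rfl
        exact h.elim g1 g2
      have e2 : x ≠ M.α b := by
        rintro rfl
        rw [M.α_α] at g2
        exact h.elim g2 g1
      simp only [h2 x g1 g2, if_neg e1, if_neg e2]
      ring
    · simp only [add_mul, sub_mul, Finset.sum_add_distrib, Finset.sum_sub_distrib, h3 g hg,
        ite_mul, one_mul, zero_mul, Finset.sum_ite_eq', Finset.mem_univ, if_true]
      ring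

/-- Walking along a face. -/
theorem con_face (h : ∀ x, M.φ.SameCycle d x → x ∈ Γ) (hs : M.φ.SameCycle d e) :
    M.Con Γ d e := by
  obtain ⟨n, rfl⟩ := hs.exists_nat_pow_eq
  clear hs
  induction n with
  | zero => exact Con.refl _ _
  | succ n ih =>
    rw [pow_succ', Equiv.Perm.mul_apply, M.φ_eq]
    exact ih.trans ((Con.alpha (Or.inl (h _ ⟨n, by simp⟩))).trans (Con.of_same Γ ⟨1, by simp⟩))

/-- Walking around the vertices of a primal path. -/
theorem Con.walk (h : M.Con Δ d e) : M.dual.Con {x | M.Con Δ d x} d e := by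
  induction h with
  | refl => exact Con.refl (M := M.dual) _ _
  | tail h0 h ih =>
    refine Con.trans (M := M.dual) ih ?_
    rcases h with h | ⟨rfl, -⟩
    · exact con_face (M := M.dual) (fun x hx => Con.trans h0 (Con.of_same Δ hx)) h
    · exact Con.alpha (M := M.dual) (Or.inl h0)

/-- Restriction to the component. -/
theorem Con.comp (h : M.Con Γ d e) : M.Con (Γ ∩ {x | M.Con Γ d x}) d e := by
  induction h with
  | refl => exact Con.refl _ _
  | tail h0 h ih =>
    exact ih.tail (h.imp_right fun h' => ⟨h'.1, h'.2.imp (fun g => ⟨g, h0⟩) fun g => ⟨g, h0.tail h⟩⟩)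

/-- The last vertex of a path. -/
theorem Con.last (h : M.Con Γ d e) :
    M.σ.SameCycle d e ∨ ∃ x, (x ∈ Γ ∨ M.α x ∈ Γ) ∧ M.σ.SameCycle x e := by
  induction h with
  | refl => exact Or.inl (Equiv.Perm.SameCycle.refl _ _)
  | @tail b c _ h ih =>
    rcases h with h | ⟨rfl, h⟩
    · exact ih.imp (fun g => g.trans h) fun ⟨x, g1, g2⟩ => ⟨x, g1, g2.trans h⟩
    · exact Or.inr ⟨M.α b, by rw [M.α_α]; exact h.symm, Equiv.Perm.SameCycle.refl _ _⟩

theorem Share.symm (h : M.Share Γ Δ) : M.Share Δ Γ := h.imp fun _ h => h.symm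

end FMap

end Pool.Agent.QL
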