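import Pool.Agent.P.MP_7a6434d8_pr.QL.Frames
import Pool.Agent.P.MP_7a6434d8_pr.QL.ADefs

/-! Block NET: connectivity in finite maps, fine maps, frames, loops, rows. -/

open Set Filter Topology Metric
open scoped ENNReal

namespace Pool.Agent.QL

open Pool.Agent.LGD

/-- Two-zone data: the value `0` on `A` and the value `1` on `B`. -/
def zon {X : Type} (K A B : Set X) : Set X × List (Set X × ℝ × ℝ) := (K, [(A, 0, 0), (B, 1, 1)])

namespace FMap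

variable (M : FMap)

/-- One step of a primal path that uses only the edges of darts in `Γ`. -/
def Step (Γ : Set M.D) (d e : M.D) : Prop :=
  M.σ.SameCycle d e ∨ (e = M.α d ∧ (d ∈ Γ ∨ e ∈ Γ))

/-- The vertices of `d` and `e` are joined by a primal path along edges of darts in `Γ`. -/
def Con (Γ : Set M.D) : M.D → M.D → Prop := Relation.ReflTransGen (M.Step Γ)

/-- Darts whose edge lies in `K`. -/
def ed (K : Set M.D) : Set M.D := {d | d ∈ K ∧ M.α d ∈ K}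

/-- The two sets have an edge in common. -/
def Share (Γ Δ : Set M.D) : Prop := ∃ x, (x ∈ Γ ∨ M.α x ∈ Γ) ∧ (x ∈ Δ ∨ M.α x ∈ Δ)

open Classical in
/-- Total weight of a set of darts. -/
noncomputable def wt (ρ : M.D → ℝ) (Γ : Set M.D) : ℝ := ∑ d, if d ∈ Γ then ρ d else 0

open Classical in
/-- Squared norm of an edge weight on `K`. -/
noncomputable def sq (K : Set M.D) (ρ : M.D → ℝ) : ℝ :=
  1 / 2 * ∑ d, if d ∈ K ∧ M.α d ∈ K then ρ d ^ 2 else 0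

open Classical in
/-- The bilinear form of the energy on `K`. -/
noncomputable def bil (K : Set M.D) (f g : M.D → ℝ) : ℝ :=
  1 / 2 * ∑ d, if d ∈ K ∧ M.α d ∈ K then (f (M.α d) - f d) * (g (M.α d) - g d) else 0

open Classical in
/-- Modulus of the gradient on the edges of `K`. -/
noncomputable def grad (K : Set M.D) (f : M.D → ℝ) (d : M.D) : ℝ :=
  if d ∈ K ∧ M.α d ∈ K then |f (M.α d) - f d| else 0

/-- Vertex functions that satisfy the constraints. -/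
def Adm (C : List (Set M.D × ℝ × ℝ)) (f : M.D → ℝ) : Prop :=
  Inv M.σ f ∧ ∀ c ∈ C, ∀ d ∈ c.1, f d ∈ Icc c.2.1 c.2.2

/-- Edge weights. -/
def IsW (ρ : M.D → ℝ) : Prop := (∀ d, 0 ≤ ρ d) ∧ ∀ d, ρ (M.α d) = ρ d

/-- For every weight there is a short path in `K` from `A` to `B`. -/
def Cross (K A B : Set M.D) (x : ℝ) : Prop :=
  ∀ ρ, M.IsW ρ → ∃ Γ ⊆ M.ed K, ∃ d ∈ A, ∃ e ∈ B, M.Con Γ d e ∧ M.wt ρ Γ ≤ √(x * M.sq K ρ)

/-- The map is fine at scale `η` in the ball of radius `R`. -/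
structure Fine (p : M.D → ℂ) (R η : ℝ) : Prop where
  mesh : ∀ d e, ‖p d‖ ≤ R → M.Adj d e → ‖p e - p d‖ ≤ η
  dense : ∀ x : ℂ, ‖x‖ ≤ R → ∃ d, ‖p d - x‖ ≤ η
  con : ∀ d e, ‖p d‖ ≤ R → ‖p e‖ ≤ R →
    M.Con (M.ed {x | ∃ w ∈ segment ℝ (p d) (p e), ‖p x - w‖ ≤ η}) d e
  con' : ∀ d e, ‖p d‖ ≤ R → ‖p e‖ ≤ R →
    M.dual.Con (M.ed {x | ∃ w ∈ segment ℝ (p d) (p e), ‖p x - w‖ ≤ η}) d e

/-- The four rotated bars have short crossings. -/
def Ring (p : M.D → ℂ) (x : ℝ) : Prop := ∀ j < 4,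
  M.Cross (p ⁻¹' rect (14 / 5) (21 / 10) (12 / 5) j)
    (p ⁻¹' (rect (14 / 5) (21 / 10) (12 / 5) j ∩ {w | (rot j w).re < -(5 / 2)}))
    (p ⁻¹' (rect (14 / 5) (21 / 10) (12 / 5) j ∩ {w | 5 / 2 < (rot j w).re})) x

/-- The edges of `Γ` connected to `b` separate `I` from `O`. -/
structure Wall (Γ : Set M.D) (b : M.D) (I O : Set M.D) : Prop where
  pp : ∀ (Δ : Set M.D) u v, u ∈ I → v ∈ O → M.Con Δ u v → ∃ y, M.Con Δ u y ∧ M.Con Γ b y
  pd : ∀ (Δ : Set M.D) u v, u ∈ I → v ∈ O → M.dual.Con Δ u v → M.Share Γ Δ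

end FMap

/-- The rectangle lies in the ball of radius `R`. -/
def Bd (R x₀ x₁ y₀ y₁ : ℝ) : Prop := ∀ w ∈ crect x₀ x₁ y₀ y₁, ‖w‖ ≤ R

/-- The open square of side `4`. -/
def inn : Set ℂ := {w | |w.re| < 2 ∧ |w.im| < 2}

/-- The outside of the closed square of side `6`. -/
def out : Set ℂ := {w | 3 < |w.re| ∨ 3 < |w.im|}

/-- Open sets and rational interval ends. -/
def Data.Opn (y : Data) : Prop :=
  IsOpen y.1 ∧ ∀ c ∈ y.2, IsOpen c.1 ∧ (∃ q : ℚ, c.2.1 = q) ∧ ∃ q : ℚ, c.2.2 = q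

/-- Larger domain and stronger constraints. -/
def Data.Le (x y : Data) : Prop :=
  x.1 ⊆ y.1 ∧ ∀ c ∈ x.2, ∃ c' ∈ y.2, c.1 ⊆ c'.1 ∧ c.2.1 ≤ c'.2.1 ∧ c'.2.2 ≤ c.2.2

namespace Fr

theorem a_pos (F : Fr) : 0 < ‖F.a‖ := norm_pos_iff.2 F.a_ne

/-- The inverse frame. -/
noncomputable def symm (F : Fr) : Fr :=
  ⟨(unaff F.z F.a 0, F.a⁻¹), IsFr.isQ_unaff F.2 isQ_zero, F.2.2.1.inv, inv_ne_zero F.a_ne⟩

end Fr

/-- A finite family of frames of radius at most `r` whose cores cover `S`, with weights of bounded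
overlap. -/
structure Cov {ι : Type} (T : Finset ι) (F : ι → Fr) (w : ι → ℝ) (r : ℝ) (S : Set ℂ) : Prop where
  rad : ∀ i ∈ T, ‖(F i).a‖ ≤ r
  cov : ∀ x ∈ S, ∃ i ∈ T, x ∈ (F i).core
  pos : ∀ i ∈ T, 0 < w i
  ovl : ∀ x : ℂ, ∑ i ∈ T, (F i).body.indicator (fun _ => (w i)⁻¹) x ≤ 1

namespace FNet

theorem pull_norm (F : Fr) {x : ℂ} {R : ℝ} (h : ‖F.inv x‖ ≤ R) : ‖x‖ ≤ ‖F.z‖ + ‖F.a‖ * R := by
  have ha := F.a_pos
  rw [Fr.inv, norm_unaff, div_le_iff₀ ha] at h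
  have := norm_sub_norm_le x F.z
  linarith [mul_comm R ‖F.a‖]

theorem pull_sub (F : Fr) {x y : ℂ} {η : ℝ} : ‖F.inv x - F.inv y‖ ≤ η ↔ ‖x - y‖ ≤ η * ‖F.a‖ := by
  rw [Fr.inv, norm_unaff_sub, div_le_iff₀ F.a_pos]

/-- The net seen in a frame. -/
noncomputable def pull (F : Fr) (N : FNet) : FNet where
  U := N.U
  M := N.M
  p k d := F.inv (N.p k d)
  κ := N.κ
  κ_pos := N.κ_pos
  mesh R η hη := (N.mesh (‖F.z‖ + ‖F.a‖ * R) _ (mul_pos hη F.a_pos)).mono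
    fun _ h d e hd ha => (pull_sub F).2 (h d e (pull_norm F hd) ha)
  dense x η hη := (N.dense (F.map x) _ (mul_pos hη F.a_pos)).mono
    fun _ h => h.imp fun d hd => by
      rw [← (pull_sub F), F.inv_map] at hd
      exact hd
  lift R η hη := by
    have ha := F.a_pos
    obtain ⟨η', h1, h2⟩ := N.lift (‖F.z‖ + ‖F.a‖ * R) _ (mul_pos hη ha)
    refine ⟨η' / ‖F.a‖, div_pos h1 ha, h2.mono fun _ h d d' hd hd' => ?_⟩
    rw [pull_sub F, div_mul_cancel₀ _ ha.ne'] at hd'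
    simp only [pull_sub F]
    exact h d d' (pull_norm F hd) hd'

end FNet

end Pool.Agent.QL
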