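import Pool.Agent.P.MP_7a6434d8_pr.QL.Net.Sep

/-! Block NET: crossings in a plus shape (N3). -/

open Set Filter Topology Metric
open scoped ENNReal

namespace Pool.Agent.QL

open Pool.Agent.LGD

namespace FMap

variable {M : FMap} {p : M.D → ℂ} {R η x₀ x₁ x₂ x₃ y₀ y₁ y₂ y₃ m : ℝ} {Γ Δ : Set M.D}
  {d e u v : M.D}

/-- A path from the right of a vertical bar to its left that passes above it. -/
theorem Fine.around (h : M.Fine p R η) (hη : 0 ≤ η) (hm : 10 * η ≤ m)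
    (hR : Bd R (x₀ - 2 * m) (x₃ + 2 * m) (y₀ - 2 * m) (y₃ + 2 * m)) (hx : x₁ ≤ x₂)
    (hd : p d ∈ crect x₀ (x₁ - m) y₀ y₃) (he : p e ∈ crect (x₂ + m) x₃ y₀ y₃) :
    M.Con (M.ed (p ⁻¹' {w | w.re ≤ x₁ - m / 2 ∨ x₂ + m / 2 ≤ w.re ∨ y₃ + m / 2 ≤ w.im})) e d := by
  have hm0 : 0 ≤ m := by linarith
  obtain ⟨⟨d1, d2⟩, d3, d4⟩ := id hd
  obtain ⟨⟨e1, e2⟩, e3, e4⟩ := id he
  obtain ⟨e', he', -⟩ := h.near (x₂ + m) (y₃ + m)
    (hR.pt (by linarith) (by linarith) (by linarith) (by linarith))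
  obtain ⟨d', hd', -⟩ := h.near (x₁ - m) (y₃ + m)
    (hR.pt (by linarith) (by linarith) (by linarith) (by linarith))
  have nd : ‖p d‖ ≤ R := hR _ (crect_mono (by linarith) (by linarith) (by linarith) (by linarith) hd)
  have ne : ‖p e‖ ≤ R := hR _ (crect_mono (by linarith) (by linarith) (by linarith) (by linarith) he)
  have nd' : ‖p d'‖ ≤ R :=
    hR _ (crect_mono (by linarith) (by linarith) (by linarith) (by linarith) hd')
  have ne' : ‖p e'‖ ≤ R :=
    hR _ (crect_mono (by linarith) (by linarith) (by linarith) (by linarith) he')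
  have c1 := h.con_crect (x₀ := x₂ + m - η) (x₁ := x₃ + η) (y₀ := y₀) (y₁ := y₃ + m + η) ne ne'
    (crect_mono (by linarith) (by linarith) le_rfl (by linarith) he)
    (crect_mono le_rfl (by linarith) (by linarith) le_rfl he')
  have c2 := h.con_crect (x₀ := x₁ - m - η) (x₁ := x₂ + m + η) (y₀ := y₃ + m - η)
    (y₁ := y₃ + m + η) ne' nd' (crect_mono (by linarith) le_rfl le_rfl le_rfl he')
    (crect_mono le_rfl (by linarith) le_rfl le_rfl hd')
  have c3 := h.con_crect (x₀ := x₀ - η) (x₁ := x₁ - m + η) (y₀ := y₀) (y₁ := y₃ + m + η) nd' nd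
    (crect_mono (by linarith) le_rfl (by linarith) le_rfl hd')
    (crect_mono (by linarith) (by linarith) le_rfl (by linarith) hd)
  refine ((c1.mono (ed_mono fun x hx => ?_)).trans (c2.mono (ed_mono fun x hx => ?_))).trans
    (c3.mono (ed_mono fun x hx => ?_))
  · exact Or.inr (Or.inl (by linarith [hx.1.1]))
  · exact Or.inr (Or.inr (by linarith [hx.2.1]))
  · exact Or.inl (by linarith [hx.1.2])

/-- A horizontal primal crossing and a vertical dual crossing share an edge. -/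
theorem Fine.pd (h : M.Fine p R η) (hη : 0 ≤ η) (hm : 1000 * η ≤ m) (hm0 : 0 < m)
    (hR : Bd R (x₀ - 2 * m) (x₃ + 2 * m) (y₀ - 2 * m) (y₃ + 2 * m)) (hx : x₁ ≤ x₂) (hy : y₁ ≤ y₂)
    (hΓ : Γ ⊆ M.ed (p ⁻¹' crect x₀ x₃ y₁ y₂)) (hd : p d ∈ crect x₀ (x₁ - m) y₁ y₂)
    (he : p e ∈ crect (x₂ + m) x₃ y₁ y₂) (hc : M.Con Γ d e)
    (hΔ : Δ ⊆ M.ed (p ⁻¹' crect x₁ x₂ y₀ y₃)) (hu : p u ∈ crect x₁ x₂ y₀ (y₁ - m))
    (hv : p v ∈ crect x₁ x₂ (y₂ + m) y₃) (hc' : M.dual.Con Δ u v) : M.Share Γ Δ := by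
  obtain ⟨⟨d1, d2⟩, d3, d4⟩ := id hd
  obtain ⟨⟨e1, e2⟩, e3, e4⟩ := id he
  obtain ⟨⟨u1, u2⟩, u3, u4⟩ := id hu
  obtain ⟨⟨v1, v2⟩, v3, v4⟩ := id hv
  have nd : ‖p d‖ ≤ R := hR _ (crect_mono (by linarith) (by linarith) (by linarith) (by linarith) hd)
  have nu : ‖p u‖ ≤ R := hR _ (crect_mono (by linarith) (by linarith) (by linarith) (by linarith) hu)
  have nv : ‖p v‖ ≤ R := hR _ (crect_mono (by linarith) (by linarith) (by linarith) (by linarith) hv)
  have ca := h.around hη (by linarith) hR hx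
    (crect_mono le_rfl le_rfl (by linarith) (by linarith) hd)
    (crect_mono le_rfl le_rfl (by linarith) (by linarith) he)
  obtain ⟨f, hf, -, f₀, f₁⟩ := h.ind Complex.re
    (fun w w' => by rw [← Complex.sub_re]; exact Complex.abs_re_le_norm _) x₁
  obtain ⟨ψ, a, b, hψ, hoff, hab, ha, hb, -⟩ := h.sep (x₀ := x₀) (x₁ := x₃) (y₀ := y₁ - m / 10)
    (y₁ := y₂ + m / 10) (t := x₁) (m := m / 10) hη (by linarith) (by linarith)
    (hR.mono (by linarith) (by linarith) (by linarith) (by linarith)) (by linarith) (by linarith)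
    (by linarith) hf
    (fun x hx' => f₀ x (hR _ (crect_mono (by linarith) (by linarith) (by linarith) (by linarith)
      hx')))
    (fun x _ hx' => f₁ x (by linarith))
    (hΓ.trans (ed_mono (preimage_mono (crect_mono le_rfl le_rfl (by linarith) (by linarith)))))
    (ed_mono fun x (hx' : _ ∨ _ ∨ _) hx'' => by
      rcases hx' with k | k | k
      · linarith [hx''.1.1]
      · linarith [hx''.1.2]
      · linarith [hx''.2.2]) hc ca (f₀ d nd (by linarith)) (f₁ e (by linarith))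
  by_contra hS
  have hA : ∀ x, p x ∈ crect (x₁ - 2 * η) (x₂ + 2 * η) (y₀ - η) (y₃ + η) → x ∉ Γ → x ∉ Γ ∪ M.ed
      (p ⁻¹' {w | w.re ≤ x₁ - m / 2 ∨ x₂ + m / 2 ≤ w.re ∨ y₃ + m / 2 ≤ w.im}) := by
    rintro x hx' h1 (k | ⟨k | k | k, -⟩)
    · exact h1 k
    · linarith [hx'.1.1]
    · linarith [hx'.1.2]
    · linarith [hx'.2.2]
  obtain ⟨u', hu', hu''⟩ := h.near x₁ (y₁ - m / 10)
    (hR.pt (by linarith) (by linarith) (by linarith) (by linarith))
  obtain ⟨v', hv', hv''⟩ := h.near x₁ (y₂ + m / 10)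
    (hR.pt (by linarith) (by linarith) (by linarith) (by linarith))
  have nu' : ‖p u'‖ ≤ R :=
    hR _ (crect_mono (by linarith) (by linarith) (by linarith) (by linarith) hu')
  have nv' : ‖p v'‖ ≤ R :=
    hR _ (crect_mono (by linarith) (by linarith) (by linarith) (by linarith) hv')
  have k1 : ψ u' = ψ u := by
    have hno : ∀ x, p x ∈ crect (x₁ - η - η) (x₂ + η + η) (y₀ - η) (y₁ - m / 10 + η + η) →
        x ∉ Γ ∪ _ := fun x hx' =>
      hA x (crect_mono (by linarith) (by linarith) le_rfl (by linarith) hx') fun k => by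
        linarith [(hΓ k).1.2.1, hx'.2.2]
    exact (h.dual.con_crect (x₀ := x₁ - η) (x₁ := x₂ + η) (y₀ := y₀) (y₁ := y₁ - m / 10 + η)
      nu' nu (crect_mono le_rfl (by linarith) (by linarith) le_rfl hu')
      (crect_mono (by linarith) (by linarith) le_rfl (by linarith) hu)).eq hψ
      fun x hx' => hoff x (hno x hx'.1) (hno _ hx'.2)
  have k2 : ψ v = ψ v' := by
    have hno : ∀ x, p x ∈ crect (x₁ - η - η) (x₂ + η + η) (y₂ + m / 10 - η - η) (y₃ + η) →
        x ∉ Γ ∪ _ := fun x hx' =>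
      hA x (crect_mono (by linarith) (by linarith) (by linarith) le_rfl hx') fun k => by
        linarith [(hΓ k).1.2.2, hx'.2.1]
    exact (h.dual.con_crect (x₀ := x₁ - η) (x₁ := x₂ + η) (y₀ := y₂ + m / 10 - η) (y₁ := y₃)
      nv nv' (crect_mono (by linarith) (by linarith) (by linarith) le_rfl hv)
      (crect_mono le_rfl (by linarith) le_rfl (by linarith) hv')).eq hψ
      fun x hx' => hoff x (hno x hx'.1) (hno _ hx'.2)
  have k3 : ψ u = ψ v := hc'.eq hψ fun x hx' => hoff x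
    (hA x (crect_mono (by linarith) (by linarith) (by linarith) (by linarith) (hΔ hx').1)
      fun k => hS ⟨x, Or.inl k, Or.inl hx'⟩)
    (hA _ (crect_mono (by linarith) (by linarith) (by linarith) (by linarith) (hΔ hx').2)
      fun k => hS ⟨x, Or.inr k, Or.inl hx'⟩)
  exact hab (by rw [← ha u' (hu''.trans (by linarith)), ← hb v' (hv''.trans (by linarith)), k1, k3,
    k2])

/-- A horizontal and a vertical primal crossing have a common vertex. -/
theorem Fine.pp (h : M.Fine p R η) (hη : 0 ≤ η) (hm : 10000 * η ≤ m) (hm0 : 0 < m)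
    (hR : Bd R (x₀ - 2 * m) (x₃ + 2 * m) (y₀ - 2 * m) (y₃ + 2 * m)) (hx : x₁ ≤ x₂) (hy : y₁ ≤ y₂)
    (hΓ : Γ ⊆ M.ed (p ⁻¹' crect x₀ x₃ y₁ y₂)) (hd : p d ∈ crect x₀ (x₁ - m) y₁ y₂)
    (he : p e ∈ crect (x₂ + m) x₃ y₁ y₂) (hc : M.Con Γ d e)
    (hΔ : Δ ⊆ M.ed (p ⁻¹' crect x₁ x₂ y₀ y₃)) (hu : p u ∈ crect x₁ x₂ y₀ (y₁ - m))
    (hv : p v ∈ crect x₁ x₂ (y₂ + m) y₃) (hc' : M.Con Δ u v) :
    ∃ y, M.Con Γ d y ∧ M.Con Δ u y := by
  obtain ⟨⟨d1, d2⟩, d3, d4⟩ := id hd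
  obtain ⟨⟨e1, e2⟩, e3, e4⟩ := id he
  obtain ⟨⟨u1, u2⟩, u3, u4⟩ := id hu
  obtain ⟨⟨v1, v2⟩, v3, v4⟩ := id hv
  have hn : ∀ x, p x ∈ crect (x₁ - η) (x₂ + η) (y₀ - η) (y₃ + η) → ‖p x‖ ≤ R := fun x hx' =>
    hR _ (crect_mono (by linarith) (by linarith) (by linarith) (by linarith) hx')
  have hn' : ∀ x, p x ∈ crect x₁ x₂ y₀ y₃ → ‖p x‖ ≤ R := fun x hx' =>
    hn x (crect_mono (by linarith) (by linarith) (by linarith) (by linarith) hx')
  have h1 : ∀ x, M.Con Δ u x → p x ∈ crect (x₁ - η) (x₂ + η) (y₀ - η) (y₃ + η) := by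
    intro x hx'
    obtain ⟨y, hy', hs⟩ : ∃ y, p y ∈ crect x₁ x₂ y₀ y₃ ∧ M.σ.SameCycle y x := by
      rcases hx'.last with k | ⟨y, k | k, hs⟩
      · exact ⟨u, crect_mono le_rfl le_rfl le_rfl (by linarith) hu, k⟩
      · exact ⟨y, (hΔ k).1, hs⟩
      · exact ⟨y, by simpa only [M.α_α, mem_preimage] using (hΔ k).2, hs⟩
    exact mem_crect_of_near hy' (h.sigma (hn' y hy') hs)
  obtain ⟨x, hx1, hx2⟩ := h.pd (x₀ := x₀) (x₁ := x₁ - 2 * η) (x₂ := x₂ + 2 * η) (x₃ := x₃)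
    (y₀ := y₀ - 2 * η) (y₁ := y₁) (y₂ := y₂) (y₃ := y₃ + 2 * η) (m := m / 2) hη (by linarith)
    (by linarith) (hR.mono (by linarith) (by linarith) (by linarith) (by linarith)) (by linarith)
    hy (inter_subset_left.trans hΓ) (crect_mono le_rfl (by linarith) le_rfl le_rfl hd)
    (crect_mono (by linarith) le_rfl le_rfl le_rfl he) hc.comp
    (fun x (hx' : M.Con Δ u x) => ⟨crect_mono (by linarith) (by linarith) (by linarith)
      (by linarith) (h1 x hx'), crect_mono (by linarith) (by linarith) (by linarith) (by linarith)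
      (mem_crect_of_near (h1 x hx') (h.alpha (hn x (h1 x hx'))))⟩)
    (crect_mono (by linarith) (by linarith) (by linarith) (by linarith) hu)
    (crect_mono (by linarith) (by linarith) (by linarith) (by linarith) hv) hc'.walk
  have h2 : M.Con Γ x (M.α x) := Con.alpha (hx1.imp (fun k => k.1) fun k => k.1)
  have h3 : M.Con Γ d x := hx1.elim (fun k => k.2) fun k => Con.trans k.2 h2.symm
  exact hx2.elim (fun k => ⟨x, h3, k⟩) fun k => ⟨_, h3.trans h2, k⟩

end FMap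

end Pool.Agent.QL
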