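import Pool.Agent.P.MP_7a6434d8_pr.QL.Net.RowsA

/-! Block NET: dual energy of the height function (N7). -/

open Set Filter Topology Metric
open scoped ENNReal

namespace Pool.Agent.QL

open Pool.Agent.LGD

variable {ι : Type} {T : Finset ι} {F : ι → Fr} {w : ι → ℝ} {r x₀ x₁ y₀ y₁ : ℝ}

theorem nrowsb_count {h r t : ℝ} (h0 : 0 < h) (hr : h ≤ r) (ht : 0 ≤ t) (a : ℕ → ℝ)
    (ha : ∀ l, 0 ≤ a l ∧ a l ≤ 1) (n : ℕ)
    (hz : ∀ l < n, t + 7 * r ≤ l * h → a l = 0) (ho : ∀ l < n, l * h + 7 * r ≤ t → a l = 1) :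
    min (n * h) (t - 7 * r) ≤ h * ∑ l ∈ Finset.range n, a l ∧
      h * ∑ l ∈ Finset.range n, a l ≤ min (n * h) (t + 8 * r) := by
  induction n with
  | zero =>
    simp only [Nat.cast_zero, zero_mul, Finset.range_zero, Finset.sum_empty, mul_zero]
    exact ⟨min_le_left _ _, le_min le_rfl (by linarith)⟩
  | succ n ih =>
    obtain ⟨i1, i2⟩ := ih (fun l hl => hz l (hl.trans n.lt_succ_self))
      (fun l hl => ho l (hl.trans n.lt_succ_self))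
    have i3 := i2.trans (min_le_left _ _)
    have i4 := i2.trans (min_le_right _ _)
    have a0 := mul_nonneg h0.le (ha n).1
    have a1 := mul_le_mul_of_nonneg_left (ha n).2 h0.le
    rw [Finset.sum_range_succ, mul_add]
    push_cast
    constructor
    · by_cases hc : n * h + 7 * r ≤ t
      · rw [ho n n.lt_succ_self hc]
        rw [min_eq_left (by linarith)] at i1
        exact (min_le_left _ _).trans (by linarith)
      · rw [min_eq_right (by linarith)] at i1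
        exact (min_le_right _ _).trans (by linarith)
    · by_cases hc : t + 7 * r ≤ n * h
      · rw [hz n n.lt_succ_self hc]
        exact le_min (by linarith) (by linarith)
      · exact le_min (by linarith) (by linarith)

/-- One row: a face function that jumps across the row at height `y`. -/
theorem nrowsb_row {M : FMap} {p : M.D → ℂ} {R η : ℝ} (h : M.Fine p R η) (hη : 0 ≤ η)
    (hr : 1000 * η ≤ r) (hr0 : 0 < r)
    (hR : Bd R (x₀ - 50 * r) (x₁ + 50 * r) (y₀ - 50 * r) (y₁ + 50 * r))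
    (hx0 : x₀ ≤ x₁)
    (hc : Cov T F w r (crect (x₀ - 12 * r) (x₁ + 12 * r) (y₀ - 12 * r) (y₁ + 12 * r)))
    {Λ : ι → ℝ} (hF : ∀ i ∈ T, M.Good p (F i) (Λ i) ∧ 0 ≤ Λ i ∧ 2 * η ≤ ‖(F i).a‖)
    {K : Set M.D} (hK : K ⊆ p ⁻¹' crect x₀ x₁ y₀ y₁) (f : M.D → ℝ) {y : ℝ} (h0 : y₀ ≤ y)
    (h1 : y ≤ y₁) :
    ∃ g : M.D → ℝ, Inv M.φ g ∧ (∀ d, 0 ≤ g d ∧ g d ≤ 1) ∧
      (∀ d, p d ∈ crect x₀ x₁ y₀ y₁ → (p d).im + 7 * r ≤ y → g d = 0) ∧
      (∀ d, p d ∈ crect x₀ x₁ y₀ y₁ → y + 7 * r ≤ (p d).im → g d = 1) ∧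
      M.bil K f g ≤ ∑ i ∈ T with |(F i).z.im - y| ≤ 2 * ‖(F i).a‖,
        4 * √(Λ i * M.sq (p ⁻¹' (F i).body) (M.grad K f)) := by
  classical
  obtain ⟨Γ, hΓ, d, e, hd, he, hcon, hwt⟩ := h.row (x₀ := x₀ - 2 * r) (x₁ := x₁ + 10 * r) (y := y)
    hη (by linarith) hr0 (hR.mono (by linarith) (by linarith) (by linarith) (by linarith))
    (by linarith) T F Λ (fun i hi => ⟨(hF i hi).1, hc.rad i hi, (hF i hi).2.2⟩)
    (fun z hz => hc.cov z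
      (crect_mono (by linarith) (by linarith) (by linarith) (by linarith) hz))
    (FMap.isW_grad K f) (fun d hd => FMap.grad_of_not_mem fun hd' => by
      have e1 : (p d).re ≤ x₀ - 2 * r + r := hd.1.1.2
      have e2 : x₀ ≤ (p d).re := (hK hd'.1).1.1
      linarith)
  set Δ : Set M.D := {x | x ∈ M.ed (p ⁻¹' crect x₀ x₁ y₀ y₁) ∧ x ∉ Γ ∧ M.α x ∉ Γ} with hΔ
  set A : Set M.D := p ⁻¹' crect x₀ x₁ y₀ (y - 6 * r - r) with hA
  refine ⟨fun x => if ∃ u ∈ A, M.dual.Con Δ u x then 0 else 1, fun x => ?_, fun x => ?_,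
    fun x hx hy => ?_, fun x hx hy => ?_, le_trans ?_ hwt⟩
  · have := FMap.con_sigma (M := M.dual) (Γ := Δ) A x
    exact if_congr this rfl rfl
  · dsimp only
    split_ifs <;> norm_num
  · exact if_pos ⟨x, ⟨hx.1, hx.2.1, by linarith⟩, FMap.Con.refl (M := M.dual) Δ x⟩
  · refine if_neg ?_
    rintro ⟨u, hu, hcu⟩
    obtain ⟨z, hz1, hz2⟩ := h.pd (x₀ := x₀ - 2 * r - 11 * r) (x₁ := x₀) (x₂ := x₁)
      (x₃ := x₁ + 10 * r + 6 * r) (y₀ := y₀) (y₁ := y - 6 * r) (y₂ := y + 6 * r) (y₃ := y₁)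
      (Γ := Γ) (Δ := Δ) (d := d) (e := e) (u := u) (v := x) hη hr hr0
      (hR.mono (by linarith) (by linarith) (by linarith) (by linarith)) hx0 (by linarith) hΓ
      (crect_mono (by linarith) (by linarith) (by linarith) (by linarith) hd)
      (crect_mono (by linarith) (by linarith) (by linarith) (by linarith) he) hcon
      (fun z hz => hz.1) hu ⟨hx.1, by linarith, hx.2.2⟩ hcu
    rcases hz2 with hz2 | hz2
    · exact hz1.elim hz2.2.1 hz2.2.2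
    · refine hz1.elim (fun h => hz2.2.2 ?_) hz2.2.1
      rwa [M.α_α]
  · refine FMap.bil_le_wt (fun x => ?_) fun x hx h1 h2 => ?_
    · split_ifs <;> norm_num
    · have hx' : M.dual.Con Δ x (M.α x) :=
        FMap.Con.alpha (M := M.dual) (Or.inl ⟨FMap.ed_mono hK hx, h1, h2⟩)
      refine if_congr ⟨?_, ?_⟩ rfl rfl
      · rintro ⟨u, hu, hc⟩
        exact ⟨u, hu, hc.trans hx'.symm⟩
      · rintro ⟨u, hu, hc⟩
        exact ⟨u, hu, hc.trans hx'⟩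

/-- The finite form of N7: a face function close to the height. -/
theorem FMap.Fine.rowsB {M : FMap} {p : M.D → ℂ} {R η : ℝ} (h : M.Fine p R η) (hη : 0 ≤ η)
    (hr : 1000 * η ≤ r) (hr0 : 0 < r)
    (hR : Bd R (x₀ - 50 * r) (x₁ + 50 * r) (y₀ - 50 * r) (y₁ + 50 * r))
    (hx : x₀ ≤ x₁) (hy : y₀ ≤ y₁)
    (hc : Cov T F w r (crect (x₀ - 12 * r) (x₁ + 12 * r) (y₀ - 12 * r) (y₁ + 12 * r)))
    {Λ : ι → ℝ} (hF : ∀ i ∈ T, M.Good p (F i) (Λ i) ∧ 0 ≤ Λ i ∧ 2 * η ≤ ‖(F i).a‖)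
    {K : Set M.D} (hK : K ⊆ p ⁻¹' crect x₀ x₁ y₀ y₁) (f : M.D → ℝ) :
    ∃ g : M.D → ℝ, Inv M.φ g ∧ (∀ d, p d ∈ crect x₀ x₁ y₀ y₁ → |g d - (p d).im| ≤ 10 * r) ∧
      M.bil K f g ≤ √(400 * (∑ i ∈ T, ‖(F i).a‖ ^ 2 * w i * Λ i) * M.en K f) := by
  obtain ⟨lo, hlo, hlo'⟩ := Cov.exists_low T F
  set s := min lo r with hs
  have s0 : 0 < s := lt_min hlo hr0
  have sr : s ≤ r := min_le_right _ _
  set n := ⌊(y₁ - y₀) / s⌋₊ + 1 with hn
  have hl : ∀ l < n, (l : ℝ) * s ≤ y₁ - y₀ := fun l hl => by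
    rw [← le_div_iff₀ s0]
    exact (Nat.le_floor_iff (div_nonneg (by linarith) s0.le)).1 (Nat.lt_succ_iff.1 hl)
  have hn' : y₁ - y₀ ≤ n * s := by
    rw [← div_le_iff₀ s0, hn]
    push_cast
    exact (Nat.lt_floor_add_one _).le
  have key : ∀ l : ℕ, ∃ g : M.D → ℝ, Inv M.φ g ∧ (∀ d, 0 ≤ g d ∧ g d ≤ 1) ∧ (l < n →
      (∀ d, p d ∈ crect x₀ x₁ y₀ y₁ → (p d).im + 7 * r ≤ y₀ + l * s → g d = 0) ∧
      (∀ d, p d ∈ crect x₀ x₁ y₀ y₁ → y₀ + l * s + 7 * r ≤ (p d).im → g d = 1) ∧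
      M.bil K f g ≤ ∑ i ∈ T with |(F i).z.im - (y₀ + l * s)| ≤ 2 * ‖(F i).a‖,
        4 * √(Λ i * M.sq (p ⁻¹' (F i).body) (M.grad K f))) := fun l => by
    by_cases hln : l < n
    · have e1 : 0 ≤ (l : ℝ) * s := mul_nonneg l.cast_nonneg s0.le
      obtain ⟨g, g1, g2, g3⟩ := nrowsb_row h hη hr hr0 hR hx hc hF hK f (y := y₀ + l * s)
        (by linarith) (by linarith [hl l hln])
      exact ⟨g, g1, g2, fun _ => g3⟩
    · exact ⟨fun _ => 0, fun _ => rfl, fun _ => ⟨le_rfl, zero_le_one⟩, fun h => absurd h hln⟩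
  choose G G1 G2 G3 using key
  refine ⟨fun d => y₀ + s * ∑ l ∈ Finset.range n, G l d, fun d => ?_, fun d hd => ?_, ?_⟩
  · dsimp only
    rw [Finset.sum_congr rfl fun l _ => G1 l d]
  · obtain ⟨c1, c2⟩ := nrowsb_count (t := (p d).im - y₀) s0 sr (by linarith [hd.2.1])
      (fun l => G l d) (fun l => G2 l d) n
      (fun l hl h => (G3 l hl).1 d hd (by linarith))
      (fun l hl h => (G3 l hl).2.1 d hd (by linarith))
    rw [min_eq_right (by linarith [hd.2.2])] at c1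
    have c3 := c2.trans (min_le_right _ _)
    dsimp only
    rw [abs_le]
    constructor <;> linarith
  · rw [FMap.bil_add K f (fun _ => y₀) fun d => s * ∑ l ∈ Finset.range n, G l d, FMap.bil_const,
      FMap.bil_mul K f (fun d => ∑ l ∈ Finset.range n, G l d), FMap.bil_sum, zero_add]
    refine le_trans (mul_le_mul_of_nonneg_left (Finset.sum_le_sum fun l hl =>
      (G3 l (Finset.mem_range.1 hl)).2.2) s0.le) ?_
    refine (hc.rows (fun i hi => (hF i hi).2.1) (M.grad K f) s0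
      (fun i hi => (min_le_left _ _).trans (hlo' i hi)) n y₀).trans (Real.sqrt_le_sqrt ?_)
    refine mul_le_mul_of_nonneg_left ?_ (mul_nonneg (by norm_num) (Finset.sum_nonneg fun i hi =>
      mul_nonneg (mul_nonneg (sq_nonneg _) (hc.pos i hi).le) (hF i hi).2.1))
    rw [← FMap.sq_grad]
    exact FMap.sq_le_of_supp (fun d hd => FMap.grad_of_not_mem hd) _

/-- N7 along a net. -/
theorem FNet.Real.rowsB {N : FNet} {s : Sys} (hs : N.Real s) (hr : 0 < r) (hx : x₀ ≤ x₁)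
    (hy : y₀ ≤ y₁)
    (hc : Cov T F w r (crect (x₀ - 12 * r) (x₁ + 12 * r) (y₀ - 12 * r) (y₁ + 12 * r)))
    {x : Data} (hK : x.1 ⊆ crect x₀ x₁ y₀ y₁)
    (hC : ∀ c ∈ x.2, ∀ z ∈ c.1, z ∈ crect x₀ x₁ y₀ y₁ ∧ c.2.1 + 10 * r ≤ z.im ∧
      z.im ≤ c.2.2 - 10 * r) :
    N.dual.limE x ≤ 400 * ∑ i ∈ T, ENNReal.ofReal (‖(F i).a‖ ^ 2 * w i) * Loop (F i) s := by
  refine le_sum_of_forall (by norm_num) (fun i hi => mul_pos (pow_pos (F i).a_pos 2) (hc.pos i hi))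
    (fun Λ hΛ => ?_) (by norm_num)
  obtain ⟨lo, hlo, hlo'⟩ := Cov.exists_low T F
  obtain ⟨R, hR⟩ := exists_bd (x₀ - 50 * r) (x₁ + 50 * r) (y₀ - 50 * r) (y₁ + 50 * r)
  have hη : 0 < min (r / 1000) (lo / 2) := lt_min (by linarith) (by linarith)
  have hΛ0 : ∀ i ∈ T, 0 ≤ Λ i := fun i hi =>
    (ENNReal.ofReal_pos.1 (lt_of_le_of_lt zero_le (hΛ i hi))).le
  refine FNet.limE_le ((N.fine R hη).and (hs.good hΛ) |>.mono fun k hk => ?_)
  have hκ := N.κ_pos k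
  have hd : (N.M k).dual.dE (x.pre (N.p k)).1 (x.pre (N.p k)).2 ≤
      ENNReal.ofReal (400 * ∑ i ∈ T, ‖(F i).a‖ ^ 2 * w i * (Λ i * N.κ k)) := by
    refine FMap.dE_le_of_test fun f => ?_
    obtain ⟨g, g1, g2, g3⟩ := hk.1.rowsB hη.le
      (by linarith [min_le_left (r / 1000) (lo / 2)]) hr hR hx hy hc (Λ := fun i => Λ i * N.κ k)
      (fun i hi => ⟨hk.2 i hi, mul_nonneg (hΛ0 i hi) hκ.le,
        by linarith [min_le_right (r / 1000) (lo / 2), hlo' i hi]⟩)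
      (K := N.p k ⁻¹' x.1) (preimage_mono hK) f
    refine ⟨g, ⟨g1, fun c hc d hd => ?_⟩, g3⟩
    obtain ⟨c', hc', rfl⟩ := List.mem_map.1 hc
    obtain ⟨e1, e2, e3⟩ := hC c' hc' _ hd
    have e4 := abs_le.1 (g2 d e1)
    exact ⟨by dsimp only; linarith [e4.1], by dsimp only; linarith [e4.2]⟩
  have e : ∑ i ∈ T, ‖(F i).a‖ ^ 2 * w i * (Λ i * N.κ k) =
      (∑ i ∈ T, ‖(F i).a‖ ^ 2 * w i * Λ i) * N.κ k := by
    rw [Finset.sum_mul]
    exact Finset.sum_congr rfl fun i _ => by ring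
  refine (mul_le_mul_right hd _).trans (le_of_eq ?_)
  change ENNReal.ofReal (N.κ k)⁻¹ * _ = _
  rw [← ENNReal.ofReal_mul (inv_pos.2 hκ).le, e, ← ENNReal.ofReal_ofNat 400,
    ← ENNReal.ofReal_mul (by norm_num)]
  congr 1
  field_simp

/-- N7. -/
theorem rowsB {s : Sys} (hs : Realized s) (hr : 0 < r) (hx : x₀ ≤ x₁) (hy : y₀ ≤ y₁)
    (hc : Cov T F w r (crect (x₀ - 12 * r) (x₁ + 12 * r) (y₀ - 12 * r) (y₁ + 12 * r)))
    (j : Idx) (hK : j.1.1 ⊆ crect x₀ x₁ y₀ y₁)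
    (hC : ∀ c ∈ j.1.2, ∀ z ∈ c.1, z ∈ crect x₀ x₁ y₀ y₁ ∧ c.2.1 + 10 * r ≤ z.im ∧
      z.im ≤ c.2.2 - 10 * r) :
    s.2 j ≤ 400 * ∑ i ∈ T, ENNReal.ofReal (‖(F i).a‖ ^ 2 * w i) * Loop (F i) s := by
  obtain ⟨N, hN⟩ := hs
  exact (hN.2.1 j).trans (hN.rowsB hr hx hy hc hK hC)

/-- N7 for arbitrary data. -/
theorem rowsB_En {s : Sys} (hs : Realized s) (hr : 0 < r) (hx : x₀ ≤ x₁) (hy : y₀ ≤ y₁)
    (hc : Cov T F w r (crect (x₀ - 12 * r) (x₁ + 12 * r) (y₀ - 12 * r) (y₁ + 12 * r)))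
    {x : Data} (hK : x.1 ⊆ crect x₀ x₁ y₀ y₁)
    (hC : ∀ c ∈ x.2, ∀ z ∈ c.1, z ∈ crect x₀ x₁ y₀ y₁ ∧ c.2.1 + 10 * r ≤ z.im ∧
      z.im ≤ c.2.2 - 10 * r) :
    En s.2 x ≤ 400 * ∑ i ∈ T, ENNReal.ofReal (‖(F i).a‖ ^ 2 * w i) * Loop (F i) s := by
  obtain ⟨N, hN⟩ := hs
  exact (hN.2.En_le x).trans (hN.rowsB hr hx hy hc hK hC)

end Pool.Agent.QL
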