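import Pool.Agent.P.MP_7a6434d8_pr.QL.Net.Wt
import Pool.Agent.P.MP_7a6434d8_pr.QL.Net.Fine

/-! Block NET: the separation lemma (N2). -/

open Set Filter Topology Metric
open scoped ENNReal

namespace Pool.Agent.QL

open Pool.Agent.LGD

namespace FMap

variable {M : FMap} {p : M.D → ℂ} {R η : ℝ}

theorem nsep_bil (K : Set M.D) (f : M.D → ℝ) {ψ J₁ J₂ : M.D → ℝ}
    (hψ : ∀ d, J₁ d + J₂ d = ψ (M.α d) - ψ d) (ha : ∀ d, J₁ (M.α d) = -J₁ d)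
    (h₁ : ∀ d, d ∉ M.ed K → J₁ d = 0) (h₂ : ∀ d ∈ M.ed K, J₂ d ≠ 0 → f (M.α d) = f d) :
    M.bil K f ψ = -∑ d, J₁ d * f d := by
  classical
  have e1 : ∑ d, J₁ d * f (M.α d) = -∑ d, J₁ d * f d := by
    rw [← Equiv.sum_comp M.α fun d => J₁ d * f (M.α d), ← Finset.sum_neg_distrib]
    exact Finset.sum_congr rfl fun d _ => by rw [ha, M.α_α, neg_mul]
  have e2 : ∀ d, (if d ∈ K ∧ M.α d ∈ K then (f (M.α d) - f d) * (ψ (M.α d) - ψ d) else 0) =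
      J₁ d * f (M.α d) - J₁ d * f d := by
    intro d
    split_ifs with hd
    · rw [← hψ]
      by_cases h : J₂ d = 0
      · rw [h]; ring
      · rw [h₂ d hd h]; ring
    · rw [h₁ d hd]; ring
  unfold bil
  simp only [e2]
  rw [Finset.sum_sub_distrib, e1]
  ring

theorem nsep_abs {w w' : ℂ} {t : ℝ} (h : ‖w - w'‖ ≤ t) :
    (w'.re - t ≤ w.re ∧ w.re ≤ w'.re + t) ∧ w'.im - t ≤ w.im ∧ w.im ≤ w'.im + t := by
  have h1 := abs_le.1 ((Complex.abs_re_le_norm _).trans h)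
  have h2 := abs_le.1 ((Complex.abs_im_le_norm _).trans h)
  rw [Complex.sub_re] at h1
  rw [Complex.sub_im] at h2
  exact ⟨⟨by linarith [h1.1], by linarith [h1.2]⟩, by linarith [h2.1], by linarith [h2.2]⟩

theorem nsep_norm {w : ℂ} {t y a b : ℝ} (h1 : |w.re - t| ≤ a) (h2 : |w.im - y| ≤ b) :
    ‖w - ⟨t, y⟩‖ ≤ a + b :=
  (Complex.norm_le_abs_re_add_abs_im _).trans (add_le_add h1 h2)

/-- A closed primal path that crosses the vertical segment from `(t, y₀)` to `(t, y₁)` once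
separates the faces near its two ends. -/
theorem Fine.sep (h : M.Fine p R η) {x₀ x₁ y₀ y₁ t m : ℝ} (hη : 0 ≤ η) (hm : 20 * η ≤ m)
    (hm0 : 0 < m) (hR : Bd R (x₀ - m) (x₁ + m) (y₀ - m) (y₁ + m)) (ht₀ : x₀ + m ≤ t)
    (ht₁ : t + m ≤ x₁) (hy : y₀ + m ≤ y₁ - m) {f : M.D → ℝ} (hf : Inv M.σ f)
    (hf₀ : ∀ d, p d ∈ crect x₀ x₁ y₀ y₁ → (p d).re < t - η → f d = 0)
    (hf₁ : ∀ d, p d ∈ crect x₀ x₁ y₀ y₁ → t + η < (p d).re → f d = 1)
    {Γ₁ Γ₂ : Set M.D} {c c' : M.D} (h₁ : Γ₁ ⊆ M.ed (p ⁻¹' crect x₀ x₁ (y₀ + m) (y₁ - m)))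
    (h₂ : Γ₂ ⊆ M.ed (p ⁻¹' (crect (t - m) (t + m) (y₀ - m) (y₁ + m))ᶜ))
    (hc₁ : M.Con Γ₁ c c') (hc₂ : M.Con Γ₂ c' c) (e₀ : f c = 0) (e₁ : f c' = 1) :
    ∃ (ψ : M.D → ℝ) (a b : ℝ), Inv M.φ ψ ∧
      (∀ d, d ∉ Γ₁ ∪ Γ₂ → M.α d ∉ Γ₁ ∪ Γ₂ → ψ (M.α d) = ψ d) ∧ a ≠ b ∧
      (∀ d, ‖p d - ⟨t, y₀⟩‖ ≤ m / 2 → ψ d = a) ∧ (∀ d, ‖p d - ⟨t, y₁⟩‖ ≤ m / 2 → ψ d = b) ∧
      ∀ g, Inv M.φ g → (∀ d, p d ∈ crect x₀ x₁ y₀ y₁ → ‖p d - ⟨t, y₀⟩‖ ≤ m / 2 → g d = 0) →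
        (∀ d, p d ∈ crect x₀ x₁ y₀ y₁ → ‖p d - ⟨t, y₁⟩‖ ≤ m / 2 → g d = 1) →
        (b - a) * M.bil (p ⁻¹' crect x₀ x₁ y₀ y₁) f g = 1 := by
  obtain ⟨J₁, a₁, s₁, d₁⟩ := hc₁.flow
  obtain ⟨J₂, a₂, s₂, d₂⟩ := hc₂.flow
  obtain ⟨ψ, hψ, eψ⟩ := M.hodge' (fun d => J₁ d + J₂ d) (fun d => by rw [a₁, a₂]; ring)
    fun g hg => by
      simp only [add_mul, Finset.sum_add_distrib]
      rw [d₁ g hg, d₂ g hg]
      ring
  have hoff : ∀ d, d ∉ Γ₁ ∪ Γ₂ → M.α d ∉ Γ₁ ∪ Γ₂ → ψ (M.α d) = ψ d := fun d h1 h2 => by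
    have := eψ d
    rw [s₁ d (fun h => h1 (Or.inl h)) fun h => h2 (Or.inl h),
      s₂ d (fun h => h1 (Or.inr h)) fun h => h2 (Or.inr h)] at this
    linarith
  have hB : ∀ d, p d ∈ crect x₀ x₁ y₀ y₁ → ‖p d‖ ≤ R := fun d hd =>
    hR _ (crect_mono (by linarith) (by linarith) (by linarith) (by linarith) hd)
  have hone : M.bil (p ⁻¹' crect x₀ x₁ y₀ y₁) f ψ = 1 := by
    have hs : Γ₁ ⊆ M.ed (p ⁻¹' crect x₀ x₁ y₀ y₁) := h₁.trans (ed_mono (preimage_mono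
      (crect_mono le_rfl le_rfl (by linarith) (by linarith))))
    rw [nsep_bil _ f eψ a₁, d₁ f hf, e₀, e₁]
    · ring
    · intro d hd
      refine s₁ d (fun h => hd (hs h)) fun h => hd ?_
      simpa only [M.α_α] using mem_ed_alpha (hs h)
    · intro d hd hJ
      have h3 : d ∈ M.ed (p ⁻¹' (crect (t - m) (t + m) (y₀ - m) (y₁ + m))ᶜ) := by
        by_contra h3
        refine hJ (s₂ d (fun h => h3 (h₂ h)) fun h => h3 ?_)
        simpa only [M.α_α] using mem_ed_alpha (h₂ h)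
      have h4 := nsep_abs (h.alpha (hB d hd.1))
      have h5 : (p d).re < t - m ∨ t + m < (p d).re := by
        by_contra h5
        push Not at h5
        exact h3.1 ⟨h5, by linarith [hd.1.2.1], by linarith [hd.1.2.2]⟩
      rcases h5 with h5 | h5
      · rw [hf₀ d hd.1 (by linarith), hf₀ _ hd.2 (by linarith [h4.1.2])]
      · rw [hf₁ d hd.1 (by linarith), hf₁ _ hd.2 (by linarith [h4.1.1])]
  have hconst : ∀ y, y = y₀ ∨ y = y₁ → ∃ a, ∀ d, ‖p d - ⟨t, y⟩‖ ≤ m / 2 → ψ d = a := by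
    intro y hy'
    have hy0 : y₀ ≤ y := by rcases hy' with rfl | rfl <;> linarith
    have hy1 : y ≤ y₁ := by rcases hy' with rfl | rfl <;> linarith
    obtain ⟨u, -, hu⟩ := h.near t y (hR.pt (by linarith) (by linarith) (by linarith) (by linarith))
    have hin : ∀ d, ‖p d - ⟨t, y⟩‖ ≤ m / 2 →
        p d ∈ crect (t - m / 2) (t + m / 2) (y - m / 2) (y + m / 2) := fun d hd => nsep_abs hd
    have hn : ∀ d, ‖p d - ⟨t, y⟩‖ ≤ m / 2 → ‖p d‖ ≤ R := fun d hd =>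
      hR _ (crect_mono (by linarith) (by linarith) (by linarith) (by linarith) (hin d hd))
    have hu' : ‖p u - ⟨t, y⟩‖ ≤ m / 2 := hu.trans (by linarith)
    refine ⟨ψ u, fun d hd => ?_⟩
    have hno : ∀ x, p x ∈ crect (t - m / 2 - η) (t + m / 2 + η) (y - m / 2 - η) (y + m / 2 + η) →
        x ∉ Γ₁ ∪ Γ₂ := by
      rintro x hx (hx' | hx')
      · have h3 := (h₁ hx').1
        rcases hy' with rfl | rfl
        · linarith [h3.2.1, hx.2.2]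
        · linarith [h3.2.2, hx.2.1]
      · exact (h₂ hx').1
          (crect_mono (by linarith) (by linarith) (by linarith) (by linarith) hx)
    exact (h.dual.con_crect (hn d hd) (hn u hu') (hin d hd) (hin u hu')).eq hψ
      fun x hx => hoff x (hno x hx.1) (hno _ hx.2)
  obtain ⟨a, ha⟩ := hconst y₀ (Or.inl rfl)
  obtain ⟨b, hb⟩ := hconst y₁ (Or.inr rfl)
  have key : ∀ g, Inv M.φ g →
      (∀ d, p d ∈ crect x₀ x₁ y₀ y₁ → ‖p d - ⟨t, y₀⟩‖ ≤ m / 2 → g d = 0) →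
      (∀ d, p d ∈ crect x₀ x₁ y₀ y₁ → ‖p d - ⟨t, y₁⟩‖ ≤ m / 2 → g d = 1) →
      (b - a) * M.bil (p ⁻¹' crect x₀ x₁ y₀ y₁) f g = 1 := by
    intro g hg g₀ g₁
    have h3 : M.bil (p ⁻¹' crect x₀ x₁ y₀ y₁) f (fun d => ψ d - (a + (b - a) * g d)) = 0 := by
      refine face_sum hf (fun d => by simp only [hψ d, hg d]) fun d hd hne hG e he => ?_
      have h4 := nsep_abs (h.alpha (hB d hd.1))
      have h5 : t - 2 * η ≤ (p d).re := by
        by_contra h5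
        push Not at h5
        exact hne (by rw [hf₀ d hd.1 (by linarith), hf₀ _ hd.2 (by linarith [h4.1.2])])
      have h6 : (p d).re ≤ t + 2 * η := by
        by_contra h6
        push Not at h6
        exact hne (by rw [hf₁ d hd.1 (by linarith), hf₁ _ hd.2 (by linarith [h4.1.1])])
      have h7 : |(p d).re - t| ≤ 2 * η := abs_le.2 ⟨by linarith, by linarith⟩
      have h8 : y₀ + 2 * η ≤ (p d).im := by
        by_contra h8
        push Not at h8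
        have h9 : ‖p d - ⟨t, y₀⟩‖ ≤ m / 2 := (nsep_norm h7 (b := 2 * η)
          (abs_le.2 ⟨by linarith [hd.1.2.1], by linarith⟩)).trans (by linarith)
        exact hG (by simp only [ha d h9, g₀ d hd.1 h9]; ring)
      have h9 : (p d).im ≤ y₁ - 2 * η := by
        by_contra h8
        push Not at h8
        have h9 : ‖p d - ⟨t, y₁⟩‖ ≤ m / 2 := (nsep_norm h7 (b := 2 * η)
          (abs_le.2 ⟨by linarith, by linarith [hd.1.2.2]⟩)).trans (by linarith)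
        exact hG (by simp only [hb d h9, g₁ d hd.1 h9]; ring)
      have k1 := nsep_abs (h.phi (hB d hd.1) he)
      have k2 : p e ∈ crect x₀ x₁ y₀ y₁ := ⟨⟨by linarith [k1.1.1], by linarith [k1.1.2]⟩,
        by linarith [k1.2.1], by linarith [k1.2.2]⟩
      have k3 := nsep_abs (h.alpha (hB e k2))
      exact ⟨k2, ⟨by linarith [k1.1.1, k3.1.1], by linarith [k1.1.2, k3.1.2]⟩,
        by linarith [k1.2.1, k3.2.1], by linarith [k1.2.2, k3.2.2]⟩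
    rw [bil_sub, bil_add, bil_const, bil_mul, hone] at h3
    linarith
  refine ⟨ψ, a, b, hψ, hoff, fun hab => ?_, ha, hb, key⟩
  obtain ⟨g, hg, -, g₀, g₁⟩ := h.dual.ind Complex.im
    (fun w w' => by rw [← Complex.sub_im]; exact Complex.abs_im_le_norm _) ((y₀ + y₁) / 2)
  have := key g hg (fun d hd hd' => g₀ d (hB d hd) (by linarith [(nsep_abs hd').2.2]))
    fun d _ hd' => g₁ d (by linarith [(nsep_abs hd').2.1])
  rw [hab, sub_self, zero_mul] at this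
  exact zero_ne_one this

end FMap

end Pool.Agent.QL
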