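import Pool.Agent.P.MP_7a6434d8_pr.QL.Net.Wall
import Pool.Agent.P.MP_7a6434d8_pr.QL.Net.Frame

/-! Block NET: sweeping a row with loops (N5). -/

open Set Filter Topology Metric
open scoped ENNReal

namespace Pool.Agent.QL

open Pool.Agent.LGD

theorem nsweep_norm_of_not_out {w : ℂ} (h : w ∉ out) : ‖w‖ ≤ 17 / 4 := by
  simp only [out, mem_ofPred_eq, not_or, not_lt] at h
  have h5 : ‖w‖ ^ 2 = w.re ^ 2 + w.im ^ 2 := by
    rw [Complex.sq_norm, Complex.normSq_apply]; ring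
  have h1 := abs_le.1 h.1
  have h2 := abs_le.1 h.2
  have h3 : w.re ^ 2 ≤ 9 := by nlinarith [h1.1, h1.2]
  have h4 : w.im ^ 2 ≤ 9 := by nlinarith [h2.1, h2.2]
  by_contra hc
  push Not at hc
  nlinarith

theorem nsweep_inn {w : ℂ} (h : ‖w‖ < 2) : w ∈ inn :=
  ⟨(Complex.abs_re_le_norm w).trans_lt h, (Complex.abs_im_le_norm w).trans_lt h⟩

theorem nsweep_dist (F : Fr) {w : ℂ} {c : ℝ} (h : ‖F.inv w‖ ≤ c) : ‖w - F.z‖ ≤ c * ‖F.a‖ := by
  rwa [Fr.inv, norm_unaff, div_le_iff₀ F.a_pos] at h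

theorem nsweep_core (F : Fr) {w : ℂ} (h : w ∈ F.core) : ‖F.inv w‖ < 1 := by
  rw [Fr.inv, norm_unaff, div_lt_one F.a_pos]
  exact (F.mem_core w).1 h

theorem nsweep_body (F : Fr) {w : ℂ} (h : F.inv w ∈ ann 0 2 4) : w ∈ F.body := by
  have h2 := h.2
  rw [sub_zero, Fr.inv, norm_unaff, div_lt_iff₀ F.a_pos] at h2
  exact (F.mem_body w).2 h2

namespace FMap

variable {M : FMap} {p : M.D → ℂ}

theorem nsweep_avoid {Γ : Set M.D} {d u y : M.D}
    (h : M.Con (M.ed {x | ¬ M.Con Γ d x}) u y) (hu : ¬ M.Con Γ d u) : ¬ M.Con Γ d y := by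
  induction h with
  | refl => exact hu
  | tail _ hs ih =>
    rcases hs with hs | ⟨rfl, hs | hs⟩
    · exact fun hy => ih (hy.trans (Con.of_same Γ hs).symm)
    · exact hs.2
    · exact hs.1

/-- The combinatorial sweep. -/
theorem sweep {ι : Type} (T : Finset ι) {I O G : ι → Set M.D} {b : ι → M.D}
    (hw : ∀ i ∈ T, M.Wall (G i) (b i) (I i) (O i)) {Γ₀ Δ : Set M.D} {d e : M.D}
    (ho : ∀ i ∈ T, ∃ v ∈ O i, M.Con Γ₀ d v) (hc : ∀ x ∈ Δ, ∃ i ∈ T, x ∈ I i ∧ M.α x ∈ I i)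
    (h : M.Con Δ d e) : M.Con (Γ₀ ∪ ⋃ i ∈ T, G i) d e ∨
      ∃ i ∈ T, M.Con (Γ₀ ∪ ⋃ i ∈ T, G i) d (b i) ∧ e ∉ O i := by
  set Gs : Set M.D := Γ₀ ∪ ⋃ i ∈ T, G i with hGs
  have hsub : ∀ i ∈ T, G i ⊆ Gs := fun i hi x hx =>
    Or.inr (mem_iUnion₂.2 ⟨i, hi, hx⟩)
  have key : M.Con Gs d e ∨ ∃ i ∈ T, M.Con Gs d (b i) ∧ ∃ u ∈ I i, ¬ M.Con Gs d u ∧
      M.Con (M.ed {x | ¬ M.Con Gs d x}) u e := by
    induction h with
    | refl => exact Or.inl (Con.refl _ _)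
    | @tail x x' _ hs ih =>
      by_cases hx' : M.Con Gs d x'
      · exact Or.inl hx'
      refine Or.inr ?_
      rcases hs with hs | ⟨rfl, hs⟩
      · rcases ih with ih | ⟨i, hi, h1, u, hu, h2, h3⟩
        · exact absurd (ih.trans (Con.of_same _ hs)) hx'
        · exact ⟨i, hi, h1, u, hu, h2, h3.trans (Con.of_same _ hs)⟩
      · by_cases hx : M.Con Gs d x
        · have hI : ∃ i ∈ T, x ∈ I i ∧ M.α x ∈ I i := by
            rcases hs with hs | hs
            · exact hc x hs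
            · obtain ⟨i, hi, h1, h2⟩ := hc _ hs
              rw [M.α_α] at h2
              exact ⟨i, hi, h2, h1⟩
          obtain ⟨i, hi, h1, h2⟩ := hI
          obtain ⟨v, hv, hv'⟩ := ho i hi
          obtain ⟨y, hy, hy'⟩ := (hw i hi).pp Gs x v h1 hv
            (hx.symm.trans (hv'.mono subset_union_left))
          exact ⟨i, hi, (hx.trans hy).trans (hy'.mono (hsub i hi)).symm, _, h2, hx',
            Con.refl _ _⟩
        · rcases ih with ih | ⟨i, hi, h1, u, hu, h2, h3⟩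
          · exact absurd ih hx
          · exact ⟨i, hi, h1, u, hu, h2, h3.trans (Con.alpha (Or.inl ⟨hx, hx'⟩))⟩
  rcases key with key | ⟨i, hi, h1, u, hu, h2, h3⟩
  · exact Or.inl key
  · refine Or.inr ⟨i, hi, h1, fun he => ?_⟩
    obtain ⟨y, hy, hy'⟩ := (hw i hi).pp _ u e hu he h3
    exact nsweep_avoid hy h2 (h1.trans (hy'.mono (hsub i hi)))

/-- The frames are good at this stage. -/
def Good (M : FMap) (p : M.D → ℂ) (F : Fr) (x : ℝ) : Prop :=
  M.Fine (fun d => F.inv (p d)) 20 (1 / 1000000) ∧ M.Ring (fun d => F.inv (p d)) x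

theorem nsweep_sqrt {x : ℝ} {K K' : Set M.D} (h : K ⊆ K') (ρ : M.D → ℝ) :
    √(x * M.sq K ρ) ≤ √(x * M.sq K' ρ) := by
  rcases le_total 0 x with hx | hx
  · exact Real.sqrt_le_sqrt (mul_le_mul_of_nonneg_left (sq_mono h ρ) hx)
  · rw [Real.sqrt_eq_zero'.2 (mul_nonpos_of_nonpos_of_nonneg hx (sq_nonneg' K ρ))]
    exact Real.sqrt_nonneg _

open Classical in
/-- A short connected set along the row at height `y`. -/
theorem Fine.row {R η r x₀ x₁ y : ℝ} (h : M.Fine p R η) (hη : 0 ≤ η) (hr : 100 * η ≤ r)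
    (hr0 : 0 < r) (hR : Bd R (x₀ - 12 * r) (x₁ + 12 * r) (y - 12 * r) (y + 12 * r))
    (hx : x₀ ≤ x₁) {ι : Type} (T : Finset ι) (F : ι → Fr) (Λ : ι → ℝ)
    (hF : ∀ i ∈ T, M.Good p (F i) (Λ i) ∧ ‖(F i).a‖ ≤ r ∧ 2 * η ≤ ‖(F i).a‖)
    (hc : ∀ w ∈ crect (x₀ - 2 * η) (x₁ + 2 * η) (y - 2 * η) (y + 2 * η), ∃ i ∈ T, w ∈ (F i).core)
    {ρ : M.D → ℝ} (hρ : M.IsW ρ)
    (h0 : ∀ d ∈ M.ed (p ⁻¹' crect (x₀ - 11 * r) (x₀ + r) (y - r) (y + r)), ρ d = 0) :
    ∃ Γ ⊆ M.ed (p ⁻¹' crect (x₀ - 11 * r) (x₁ + 6 * r) (y - 6 * r) (y + 6 * r)), ∃ d e,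
      p d ∈ crect (x₀ - r) (x₀ + r) (y - r) (y + r) ∧
      p e ∈ crect (x₁ - 9 * r) (x₁ + 6 * r) (y - 6 * r) (y + 6 * r) ∧ M.Con Γ d e ∧
      M.wt ρ Γ ≤ ∑ i ∈ T with |(F i).z.im - y| ≤ 2 * ‖(F i).a‖,
        4 * √(Λ i * M.sq (p ⁻¹' (F i).body) ρ) := by
  set T' : Finset ι := T.filter fun i =>
    ∃ w ∈ crect (x₀ - 2 * η) (x₁ + 2 * η) (y - 2 * η) (y + 2 * η), w ∈ (F i).core with hT'
  have hTT : ∀ i ∈ T', i ∈ T := fun i hi => (Finset.mem_filter.1 hi).1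
  have hex : ∀ i, ∃ (Γ : Set M.D) (b : M.D), i ∈ T →
      Γ ⊆ M.ed ((fun d => (F i).inv (p d)) ⁻¹' ann 0 2 4) ∧ (F i).inv (p b) ∈ ann 0 2 4 ∧
      M.wt ρ Γ ≤ 4 * √(Λ i * M.sq ((fun d => (F i).inv (p d)) ⁻¹' ann 0 2 4) ρ) ∧
      M.Wall Γ b ((fun d => (F i).inv (p d)) ⁻¹' inn) ((fun d => (F i).inv (p d)) ⁻¹' out) := by
    intro i
    by_cases hi : i ∈ T
    · obtain ⟨Γ, h1, b, h2, -, h3, h4⟩ := (hF i hi).1.1.wall (hF i hi).1.2 hρ
      exact ⟨Γ, b, fun _ => ⟨h1, h2, h3, h4⟩⟩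
    · obtain ⟨d, -⟩ := h.near x₀ y (hR.pt (by linarith) (by linarith) (by linarith) (by linarith))
      exact ⟨∅, d, fun h => absurd h hi⟩
  choose G b hG using hex
  obtain ⟨d, hd, -⟩ := h.near x₀ y (hR.pt (by linarith) (by linarith) (by linarith) (by linarith))
  obtain ⟨d₁, hd₁, -⟩ := h.near (x₀ - 10 * r) y
    (hR.pt (by linarith) (by linarith) (by linarith) (by linarith))
  obtain ⟨e₀, he₀, -⟩ := h.near x₁ y
    (hR.pt (by linarith) (by linarith) (by linarith) (by linarith))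
  have nd : ‖p d‖ ≤ R :=
    hR _ (crect_mono (by linarith) (by linarith) (by linarith) (by linarith) hd)
  have nd₁ : ‖p d₁‖ ≤ R :=
    hR _ (crect_mono (by linarith) (by linarith) (by linarith) (by linarith) hd₁)
  have ne₀ : ‖p e₀‖ ≤ R :=
    hR _ (crect_mono (by linarith) (by linarith) (by linarith) (by linarith) he₀)
  have c₁ := h.con_crect (x₀ := x₀ - 10 * r - η) (x₁ := x₀ + η) (y₀ := y - η) (y₁ := y + η) nd nd₁
    (crect_mono (by linarith) le_rfl le_rfl le_rfl hd)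
    (crect_mono le_rfl (by linarith) le_rfl le_rfl hd₁)
  have c₂ := h.con_crect (x₀ := x₀ - η) (x₁ := x₁ + η) (y₀ := y - η) (y₁ := y + η) nd ne₀
    (crect_mono le_rfl (by linarith) le_rfl le_rfl hd)
    (crect_mono (by linarith) le_rfl le_rfl le_rfl he₀)
  have hz : ∀ i ∈ T', ∃ w ∈ crect (x₀ - 2 * η) (x₁ + 2 * η) (y - 2 * η) (y + 2 * η),
      ‖(F i).z - w‖ ≤ ‖(F i).a‖ := by
    intro i hi
    obtain ⟨w, hw, hw'⟩ := (Finset.mem_filter.1 hi).2
    refine ⟨w, hw, ?_⟩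
    rw [norm_sub_rev]
    exact (((F i).mem_core w).1 hw').le
  have hann : ∀ i ∈ T', ∀ v : ℂ, (F i).inv v ∈ ann 0 2 4 →
      v ∈ crect (x₀ - 11 * r) (x₁ + 6 * r) (y - 6 * r) (y + 6 * r) := by
    intro i hi v hv
    obtain ⟨w, hw, hw'⟩ := hz i hi
    have h1 := ((F i).mem_body v).1 (nsweep_body (F i) hv)
    have h2 := (hF i (hTT i hi)).2.1
    have h3 : ‖v - w‖ ≤ 5 * r := by
      have := norm_add_le (v - (F i).z) ((F i).z - w)
      rw [sub_add_sub_cancel] at this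
      linarith
    exact crect_mono (by linarith) (by linarith) (by linarith) (by linarith)
      (mem_crect_of_near hw h3)
  have hs := sweep (M := M) T' (I := fun i => (fun d => (F i).inv (p d)) ⁻¹' inn)
    (O := fun i => (fun d => (F i).inv (p d)) ⁻¹' out) (G := G) (b := b)
    (fun i hi => (hG i (hTT i hi)).2.2.2)
    (Γ₀ := M.ed (p ⁻¹' crect (x₀ - 10 * r - η - η) (x₀ + η + η) (y - η - η) (y + η + η)))
    (d := d) (e := e₀) ?_ ?_ c₂
  · have hsub : M.ed (p ⁻¹' crect (x₀ - 10 * r - η - η) (x₀ + η + η) (y - η - η) (y + η + η)) ∪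
        ⋃ i ∈ T', G i ⊆
        M.ed (p ⁻¹' crect (x₀ - 11 * r) (x₁ + 6 * r) (y - 6 * r) (y + 6 * r)) := by
      refine union_subset (ed_mono (preimage_mono
        (crect_mono (by linarith) (by linarith) (by linarith) (by linarith)))) ?_
      refine iUnion₂_subset fun i hi => (hG i (hTT i hi)).1.trans (ed_mono fun x hx => ?_)
      exact hann i hi _ hx
    have hwt : M.wt ρ (M.ed (p ⁻¹' crect (x₀ - 10 * r - η - η) (x₀ + η + η) (y - η - η)
        (y + η + η)) ∪ ⋃ i ∈ T', G i) ≤ ∑ i ∈ T with |(F i).z.im - y| ≤ 2 * ‖(F i).a‖,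
        4 * √(Λ i * M.sq (p ⁻¹' (F i).body) ρ) := by
      refine (wt_union hρ.1 _ _).trans ?_
      rw [wt_eq_zero fun x hx => h0 x (ed_mono (preimage_mono
        (crect_mono (by linarith) (by linarith) (by linarith) (by linarith))) hx), zero_add]
      refine (wt_biUnion hρ.1 T' G).trans ?_
      refine (Finset.sum_le_sum (g := fun i => 4 * √(Λ i * M.sq (p ⁻¹' (F i).body) ρ))
        fun i hi => ?_).trans ?_
      · refine (hG i (hTT i hi)).2.2.1.trans ?_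
        exact mul_le_mul_of_nonneg_left
          (nsweep_sqrt (fun x hx => nsweep_body (F i) hx) ρ) (by norm_num)
      · refine Finset.sum_le_sum_of_subset_of_nonneg (fun i hi => ?_) fun i _ _ => by positivity
        refine Finset.mem_filter.2 ⟨hTT i hi, ?_⟩
        obtain ⟨w, hw, hw'⟩ := hz i hi
        have h1 := (hF i (hTT i hi)).2.2
        have h2 := abs_le.1 ((Complex.abs_im_le_norm ((F i).z - w)).trans hw')
        rw [Complex.sub_im] at h2
        have h3 := hw.2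
        rw [abs_le]
        constructor <;> linarith [h2.1, h2.2, h3.1, h3.2]
    have hdd : p d ∈ crect (x₀ - r) (x₀ + r) (y - r) (y + r) :=
      crect_mono (by linarith) (by linarith) (by linarith) (by linarith) hd
    rcases hs with hs | ⟨i, hi, h1, h2⟩
    · exact ⟨_, hsub, d, e₀, hdd,
        crect_mono (by linarith) (by linarith) (by linarith) (by linarith) he₀, hs, hwt⟩
    · refine ⟨_, hsub, d, b i, hdd, ?_, h1, hwt⟩
      have hb := (hG i (hTT i hi)).2.1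
      have h3 := hann i hi _ hb
      have h4 := nsweep_dist (F i) (nsweep_norm_of_not_out h2)
      have h5 := ((F i).mem_body _).1 (nsweep_body (F i) hb)
      have h6 := (hF i (hTT i hi)).2.1
      have h7 : ‖p (b i) - p e₀‖ ≤ 33 / 4 * r := by
        have := norm_sub_le (p (b i) - (F i).z) (p e₀ - (F i).z)
        rw [sub_sub_sub_cancel_right] at this
        linarith
      have h8 := (mem_crect_of_near he₀ h7).1.1
      exact ⟨⟨by linarith, h3.1.2⟩, h3.2⟩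
  · intro i hi
    by_cases hdo : (F i).inv (p d) ∈ out
    · exact ⟨d, hdo, Con.refl _ _⟩
    refine ⟨d₁, ?_, c₁⟩
    by_contra hd1o
    have h4 := nsweep_dist (F i) (nsweep_norm_of_not_out hdo)
    have h5 := nsweep_dist (F i) (nsweep_norm_of_not_out hd1o)
    have h6 := (hF i (hTT i hi)).2.1
    have h7 : ‖p d - p d₁‖ ≤ 17 / 2 * r := by
      have := norm_sub_le (p d - (F i).z) (p d₁ - (F i).z)
      rw [sub_sub_sub_cancel_right] at this
      linarith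
    have h8 := (mem_crect_of_near hd₁ h7).1.2
    have h9 := hd.1.1
    linarith
  · intro x hx
    have hx' : p x ∈ crect (x₀ - 2 * η) (x₁ + 2 * η) (y - 2 * η) (y + 2 * η) :=
      crect_mono (by linarith) (by linarith) (by linarith) (by linarith) hx.1
    obtain ⟨i, hi, hi'⟩ := hc _ hx'
    have h1 := nsweep_core (F i) hi'
    have h2 := (hF i hi).1.1.alpha (d := x) (h1.le.trans (by norm_num))
    refine ⟨i, Finset.mem_filter.2 ⟨hi, _, hx', hi'⟩, nsweep_inn (h1.trans (by norm_num)),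
      nsweep_inn ?_⟩
    have := norm_add_le ((F i).inv (p (M.α x)) - (F i).inv (p x)) ((F i).inv (p x))
    rw [sub_add_cancel] at this
    linarith

end FMap

end Pool.Agent.QL
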