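import Pool.Agent.P.MP_7a6434d8_pr.QL.Net.Plus

/-! Block NET: loops in the four bars (N4). -/

open Set Filter Topology Metric
open scoped ENNReal

namespace Pool.Agent.QL

open Pool.Agent.LGD

namespace FMap

variable {M : FMap} {p : M.D → ℂ}

/-- The primal separation follows from the dual one. -/
theorem wall_of_pd {Γ I O : Set M.D} {b : M.D} (hb : ∀ y ∈ Γ, M.Con Γ b y)
    (h : ∀ (Δ : Set M.D) u v, u ∈ I → v ∈ O → M.dual.Con Δ u v → M.Share Γ Δ) :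
    M.Wall Γ b I O :=
  ⟨fun Δ u v hu hv hc => by
    obtain ⟨x, h1, h2⟩ := h _ u v hu hv hc.walk
    have h3 : M.Con Γ b x :=
      h1.elim (hb x) fun h1 => (hb _ h1).trans (Con.alpha (Or.inr h1)).symm
    exact h2.elim (fun h2 => ⟨x, h2, h3⟩) fun h2 => ⟨M.α x, h2, h3.trans (Con.alpha h1)⟩, h⟩

/-- A crossing of a horizontal bar. -/
structure NwallH (M : FMap) (p : M.D → ℂ) (y₁ y₂ : ℝ) (Γ : Set M.D) (d e : M.D) : Prop where
  sub : Γ ⊆ M.ed (p ⁻¹' crect (-(14 / 5)) (14 / 5) y₁ y₂)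
  hd : p d ∈ crect (-(14 / 5)) (-(5 / 2)) y₁ y₂
  he : p e ∈ crect (5 / 2) (14 / 5) y₁ y₂
  con : M.Con Γ d e

/-- A crossing of a vertical bar. -/
structure NwallV (M : FMap) (p : M.D → ℂ) (x₁ x₂ : ℝ) (Γ : Set M.D) (d e : M.D) : Prop where
  sub : Γ ⊆ M.ed (p ⁻¹' crect x₁ x₂ (-(14 / 5)) (14 / 5))
  hd : p d ∈ crect x₁ x₂ (-(14 / 5)) (-(5 / 2))
  he : p e ∈ crect x₁ x₂ (5 / 2) (14 / 5)
  con : M.Con Γ d e

theorem nwall_corner (h : M.Fine p 20 (1 / 1000000)) {x₁ x₂ y₁ y₂ : ℝ} {Γ Δ : Set M.D}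
    {d e u v : M.D} (hH : NwallH M p y₁ y₂ Γ d e) (hV : NwallV M p x₁ x₂ Δ u v)
    (a₁ : -(12 / 5) ≤ x₁) (a₂ : x₁ ≤ x₂) (a₃ : x₂ ≤ 12 / 5) (b₁ : -(12 / 5) ≤ y₁) (b₂ : y₁ ≤ y₂)
    (b₃ : y₂ ≤ 12 / 5) : ∃ y, M.Con Γ d y ∧ M.Con Δ u y :=
  h.pp (m := 1 / 10) (by norm_num) (by norm_num) (by norm_num)
    (bd_of_le (a := 3) (b := 3) (by norm_num) (by norm_num) (by norm_num) (by norm_num)
      (by norm_num)) a₂ b₂ hH.sub (crect_mono le_rfl (by linarith) le_rfl le_rfl hH.hd)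
    (crect_mono (by linarith) le_rfl le_rfl le_rfl hH.he) hH.con hV.sub
    (crect_mono le_rfl le_rfl le_rfl (by linarith) hV.hd)
    (crect_mono le_rfl le_rfl (by linarith) le_rfl hV.he) hV.con

theorem nwall_norm {w : ℂ} {x₀ x₁ y₀ y₁ : ℝ} (h : w ∈ crect x₀ x₁ y₀ y₁) (h0 : -6 ≤ x₀)
    (h1 : x₁ ≤ 6) (h2 : -6 ≤ y₀) (h3 : y₁ ≤ 6) : ‖w‖ ≤ 20 :=
  (norm_le_of_crect h h0 h1 h2 h3).trans (by norm_num)

/-- A face function with gradient carried by the bars is constant inside and outside. -/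
theorem nwall_const (h : M.Fine p 20 (1 / 1000000)) {Γ : Set M.D} {ψ : M.D → ℝ}
    (hΓ : ∀ x ∈ Γ, p x ∈ crect (-(14 / 5)) (14 / 5) (-(14 / 5)) (14 / 5) ∧
      ((p x).re ≤ -(21 / 10) ∨ 21 / 10 ≤ (p x).re ∨ (p x).im ≤ -(21 / 10) ∨ 21 / 10 ≤ (p x).im))
    (hψ : Inv M.φ ψ) (hα : ∀ d, d ∉ Γ → M.α d ∉ Γ → ψ (M.α d) = ψ d) {a b : ℝ}
    (ha : ∀ d, ‖p d - ⟨0, 0⟩‖ ≤ 1 / 10 / 2 → ψ d = a)
    (hb : ∀ d, ‖p d - ⟨0, 5⟩‖ ≤ 1 / 10 / 2 → ψ d = b) :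
    (∀ d, p d ∈ crect (-2) 2 (-2) 2 → ψ d = a) ∧
      ∀ d, p d ∈ crect (-6) 6 (-6) 6 → p d ∉ crect (-3) 3 (-3) 3 → ψ d = b := by
  have key : ∀ x₀ x₁ y₀ y₁ : ℝ, -6 ≤ x₀ → x₁ ≤ 6 → -6 ≤ y₀ → y₁ ≤ 6 →
      (∀ x ∈ Γ, p x ∉ crect (x₀ - 1 / 1000000) (x₁ + 1 / 1000000) (y₀ - 1 / 1000000)
        (y₁ + 1 / 1000000)) →
      ∀ d e, p d ∈ crect x₀ x₁ y₀ y₁ → p e ∈ crect x₀ x₁ y₀ y₁ → ψ d = ψ e :=
    fun x₀ x₁ y₀ y₁ h0 h1 h2 h3 hn d e hd he =>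
      (h.dual.con_crect (nwall_norm hd h0 h1 h2 h3) (nwall_norm he h0 h1 h2 h3) hd he).eq hψ
        fun x hx => hα x (fun e => hn _ e hx.1) fun e => hn _ e hx.2
  have near : ∀ x y : ℝ, -5 ≤ x → x ≤ 5 → -5 ≤ y → y ≤ 5 → ∃ d,
      p d ∈ crect (x - 1 / 1000000) (x + 1 / 1000000) (y - 1 / 1000000) (y + 1 / 1000000) ∧
        ‖p d - ⟨x, y⟩‖ ≤ 1 / 1000000 := fun x y h0 h1 h2 h3 =>
    h.near x y (nwall_norm (x₀ := x) (x₁ := x) (y₀ := y) (y₁ := y)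
      ⟨⟨le_rfl, le_rfl⟩, le_rfl, le_rfl⟩ (by linarith) (by linarith) (by linarith) (by linarith))
  obtain ⟨n₀, m₀, k₀⟩ := near 0 0 (by norm_num) (by norm_num) (by norm_num) (by norm_num)
  obtain ⟨n₁, m₁, k₁⟩ := near 0 5 (by norm_num) (by norm_num) (by norm_num) (by norm_num)
  obtain ⟨n₂, m₂, -⟩ := near 4 4 (by norm_num) (by norm_num) (by norm_num) (by norm_num)
  obtain ⟨n₃, m₃, -⟩ := near (-4) 4 (by norm_num) (by norm_num) (by norm_num) (by norm_num)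
  obtain ⟨n₄, m₄, -⟩ := near 4 (-4) (by norm_num) (by norm_num) (by norm_num) (by norm_num)
  have top : ∀ d, p d ∈ crect (-6) 6 3 6 → ψ d = b := fun d hd =>
    (key _ _ _ _ le_rfl le_rfl (by norm_num) le_rfl
      (fun x hx hc => by linarith [(hΓ x hx).1.2.2, hc.2.1]) d n₁ hd
      (crect_mono (by norm_num) (by norm_num) (by norm_num) (by norm_num) m₁)).trans
      (hb _ (k₁.trans (by norm_num)))
  have right : ∀ d, p d ∈ crect 3 6 (-6) 6 → ψ d = b := fun d hd =>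
    (key _ _ _ _ (by norm_num) le_rfl le_rfl le_rfl
      (fun x hx hc => by linarith [(hΓ x hx).1.1.2, hc.1.1]) d n₂ hd
      (crect_mono (by norm_num) (by norm_num) (by norm_num) (by norm_num) m₂)).trans
      (top _ (crect_mono (by norm_num) (by norm_num) (by norm_num) (by norm_num) m₂))
  have left : ∀ d, p d ∈ crect (-6) (-3) (-6) 6 → ψ d = b := fun d hd =>
    (key _ _ _ _ le_rfl (by norm_num) le_rfl le_rfl
      (fun x hx hc => by linarith [(hΓ x hx).1.1.1, hc.1.2]) d n₃ hd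
      (crect_mono (by norm_num) (by norm_num) (by norm_num) (by norm_num) m₃)).trans
      (top _ (crect_mono (by norm_num) (by norm_num) (by norm_num) (by norm_num) m₃))
  have bot : ∀ d, p d ∈ crect (-6) 6 (-6) (-3) → ψ d = b := fun d hd =>
    (key _ _ _ _ le_rfl le_rfl le_rfl (by norm_num)
      (fun x hx hc => by linarith [(hΓ x hx).1.2.1, hc.2.2]) d n₄ hd
      (crect_mono (by norm_num) (by norm_num) (by norm_num) (by norm_num) m₄)).trans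
      (right _ (crect_mono (by norm_num) (by norm_num) (by norm_num) (by norm_num) m₄))
  refine ⟨fun d hd => (key _ _ _ _ (by norm_num) (by norm_num) (by norm_num) (by norm_num)
    (fun x hx hc => ?_) d n₀ hd
    (crect_mono (by norm_num) (by norm_num) (by norm_num) (by norm_num) m₀)).trans
    (ha _ (k₀.trans (by norm_num))), fun d hd hn => ?_⟩
  · rcases (hΓ x hx).2 with e | e | e | e
    exacts [by linarith [hc.1.1], by linarith [hc.1.2], by linarith [hc.2.1], by linarith [hc.2.2]]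
  · simp only [crect, mem_ofPred_eq, mem_Icc, not_and_or, not_le] at hn
    rcases hn with (e | e) | e | e
    exacts [left d ⟨⟨hd.1.1, e.le⟩, hd.2⟩, right d ⟨⟨e.le, hd.1.2⟩, hd.2⟩,
      bot d ⟨hd.1, hd.2.1, e.le⟩, top d ⟨hd.1, e.le, hd.2.2⟩]

theorem nwall_main (h : M.Fine p 20 (1 / 1000000)) {T L B R : Set M.D}
    {t₀ t₁ l₀ l₁ b₀ b₁ r₀ r₁ : M.D} (hT : NwallH M p (21 / 10) (12 / 5) T t₀ t₁)
    (hL : NwallV M p (-(12 / 5)) (-(21 / 10)) L l₀ l₁)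
    (hB : NwallH M p (-(12 / 5)) (-(21 / 10)) B b₀ b₁) (hR : NwallV M p (21 / 10) (12 / 5) R r₀ r₁) :
    M.Con (T ∪ (L ∪ B ∪ R)) t₀ l₀ ∧ M.Con (T ∪ (L ∪ B ∪ R)) t₀ b₀ ∧
      M.Con (T ∪ (L ∪ B ∪ R)) t₀ r₀ ∧ ∀ (Δ : Set M.D) u v, u ∈ p ⁻¹' inn → v ∈ p ⁻¹' out →
        M.dual.Con Δ u v → M.Share (T ∪ (L ∪ B ∪ R)) Δ := by
  obtain ⟨c₁, p₁, q₁⟩ := nwall_corner h hT hL (by norm_num) (by norm_num) (by norm_num)
    (by norm_num) (by norm_num) (by norm_num)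
  obtain ⟨c₂, p₂, q₂⟩ := nwall_corner h hB hL (by norm_num) (by norm_num) (by norm_num)
    (by norm_num) (by norm_num) (by norm_num)
  obtain ⟨c₃, p₃, q₃⟩ := nwall_corner h hB hR (by norm_num) (by norm_num) (by norm_num)
    (by norm_num) (by norm_num) (by norm_num)
  obtain ⟨c₄, p₄, q₄⟩ := nwall_corner h hT hR (by norm_num) (by norm_num) (by norm_num)
    (by norm_num) (by norm_num) (by norm_num)
  have sL : L ⊆ L ∪ B ∪ R := subset_union_left.trans subset_union_left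
  have sB : B ⊆ L ∪ B ∪ R := subset_union_right.trans subset_union_left
  have sR : R ⊆ L ∪ B ∪ R := subset_union_right
  have e₁ : M.Con (T ∪ (L ∪ B ∪ R)) t₀ l₀ :=
    (p₁.mono subset_union_left).trans (q₁.symm.mono (sL.trans subset_union_right))
  refine ⟨e₁, e₁.trans ((q₂.mono (sL.trans subset_union_right)).trans
    (p₂.symm.mono (sB.trans subset_union_right))), (p₄.mono subset_union_left).trans
    (q₄.symm.mono (sR.trans subset_union_right)), fun Δ u v hu hv hc => ?_⟩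
  obtain ⟨f, hf, -, f₀, f₁⟩ := h.ind (fun w => w.re) (fun w w' => by
    rw [← Complex.sub_re]; exact Complex.abs_re_le_norm _) 0
  have g₀ : ∀ x, p x ∈ crect (-(12 / 5)) (-(21 / 10)) (-(14 / 5)) (14 / 5) → f x = 0 := fun x hx =>
    f₀ x (nwall_norm hx (by norm_num) (by norm_num) (by norm_num) (by norm_num))
      (by linarith [hx.1.2])
  have g₁ : ∀ x, p x ∈ crect (21 / 10) (12 / 5) (-(14 / 5)) (14 / 5) → f x = 1 := fun x hx =>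
    f₁ x (by linarith [hx.1.1])
  have k₂ : ∀ x, p x ∈ crect (-(12 / 5)) (-(21 / 10)) (-(14 / 5)) (14 / 5) ∨
      p x ∈ crect (-(14 / 5)) (14 / 5) (-(12 / 5)) (-(21 / 10)) ∨
      p x ∈ crect (21 / 10) (12 / 5) (-(14 / 5)) (14 / 5) →
      p x ∉ crect (0 - 1 / 10) (0 + 1 / 10) (0 - 1 / 10) (5 + 1 / 10) := by
    rintro x (e | e | e) hx
    exacts [by linarith [e.1.2, hx.1.1], by linarith [e.2.2, hx.2.1], by linarith [e.1.1, hx.1.2]]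
  obtain ⟨ψ, a, b, hψ, hα, hab, ha, hb, -⟩ := h.sep (x₀ := -3) (x₁ := 3) (y₀ := 0) (y₁ := 5)
    (t := 0) (m := 1 / 10) (Γ₁ := T) (Γ₂ := L ∪ B ∪ R) (c := c₁) (c' := c₄) (by norm_num)
    (by norm_num) (by norm_num)
    (bd_of_le (a := 6) (b := 6) (by norm_num) (by norm_num) (by norm_num) (by norm_num)
      (by norm_num)) (by norm_num) (by norm_num) (by norm_num) hf
    (fun d hd => f₀ d (nwall_norm hd (by norm_num) (by norm_num) (by norm_num) (by norm_num)))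
    (fun d _ hd => f₁ d (by linarith))
    (hT.sub.trans (ed_mono (preimage_mono
      (crect_mono (by norm_num) (by norm_num) (by norm_num) (by norm_num)))))
    (by
      rintro x ((hx | hx) | hx)
      exacts [⟨k₂ _ (.inl (hL.sub hx).1), k₂ _ (.inl (hL.sub hx).2)⟩,
        ⟨k₂ _ (.inr (.inl (hB.sub hx).1)), k₂ _ (.inr (.inl (hB.sub hx).2))⟩,
        ⟨k₂ _ (.inr (.inr (hR.sub hx).1)), k₂ _ (.inr (.inr (hR.sub hx).2))⟩])
    (p₁.symm.trans p₄)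
    ((((q₄.symm.trans q₃).mono sR).trans ((p₃.symm.trans p₂).mono sB)).trans
      ((q₂.symm.trans q₁).mono sL))
    ((q₁.eq hf fun x hx => (g₀ _ (hL.sub hx).2).trans (g₀ _ (hL.sub hx).1).symm).symm.trans
      (g₀ _ (crect_mono le_rfl le_rfl le_rfl (by norm_num) hL.hd)))
    ((q₄.eq hf fun x hx => (g₁ _ (hR.sub hx).2).trans (g₁ _ (hR.sub hx).1).symm).symm.trans
      (g₁ _ (crect_mono le_rfl le_rfl le_rfl (by norm_num) hR.hd)))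
  obtain ⟨ia, ib⟩ := nwall_const h (Γ := T ∪ (L ∪ B ∪ R)) (by
    rintro x (hx | (hx | hx) | hx)
    exacts [⟨crect_mono le_rfl le_rfl (by norm_num) (by norm_num) (hT.sub hx).1,
        .inr (.inr (.inr (hT.sub hx).1.2.1))⟩,
      ⟨crect_mono (by norm_num) (by norm_num) le_rfl le_rfl (hL.sub hx).1,
        .inl (hL.sub hx).1.1.2⟩,
      ⟨crect_mono le_rfl le_rfl (by norm_num) (by norm_num) (hB.sub hx).1,
        .inr (.inr (.inl (hB.sub hx).1.2.2))⟩,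
      ⟨crect_mono (by norm_num) (by norm_num) le_rfl le_rfl (hR.sub hx).1,
        .inr (.inl (hR.sub hx).1.1.1)⟩]) hψ hα ha hb
  have hu' : p u ∈ crect (-2) 2 (-2) 2 := ⟨abs_le.1 hu.1.le, abs_le.1 hu.2.le⟩
  obtain ⟨v', c', hv', w, hw, hw'⟩ := h.dual.exit (S := crect (-3) 3 (-3) 3)
    (fun w hw => nwall_norm hw (by norm_num) (by norm_num) (by norm_num) (by norm_num))
    (crect_mono (by norm_num) (by norm_num) (by norm_num) (by norm_num) hu')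
    (fun hw => hv.elim (not_lt.2 (abs_le.2 hw.1)) (not_lt.2 (abs_le.2 hw.2))) hc
  by_contra hn
  refine hab ((ia u hu').symm.trans ((c'.eq hψ fun x hx => hα x (fun e => hn ⟨x, .inl e, .inl hx⟩)
    fun e => hn ⟨x, .inr e, .inl hx⟩).trans (ib v' ?_ hv')))
  exact crect_mono (by norm_num) (by norm_num) (by norm_num) (by norm_num)
    (mem_crect_of_near hw hw')

theorem nwall_rot (w : ℂ) : ((rot 0 w).re = w.re ∧ (rot 0 w).im = w.im) ∧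
    ((rot 1 w).re = w.im ∧ (rot 1 w).im = -w.re) ∧ ((rot 2 w).re = -w.re ∧ (rot 2 w).im = -w.im) ∧
    (rot 3 w).re = -w.im ∧ (rot 3 w).im = w.re := by
  simp only [rot_succ_re, rot_succ_im, rot_zero, neg_neg, and_self]

theorem nwall_rect {w : ℂ} {j : ℕ} (h : w ∈ rect (14 / 5) (21 / 10) (12 / 5) j) :
    -(14 / 5) < (rot j w).re ∧ (rot j w).re < 14 / 5 ∧ 21 / 10 < (rot j w).im ∧
      (rot j w).im < 12 / 5 := ⟨(abs_lt.1 h.1).1, (abs_lt.1 h.1).2, h.2⟩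

/-- Four crossings of the rotated bars form a wall. -/
theorem Fine.wall_of (h : M.Fine p 20 (1 / 1000000)) {G : ℕ → Set M.D} {d e : ℕ → M.D}
    (hG : ∀ j < 4, G j ⊆ M.ed (p ⁻¹' rect (14 / 5) (21 / 10) (12 / 5) j) ∧
      p (d j) ∈ rect (14 / 5) (21 / 10) (12 / 5) j ∩ {w | (rot j w).re < -(5 / 2)} ∧
      p (e j) ∈ rect (14 / 5) (21 / 10) (12 / 5) j ∩ {w | 5 / 2 < (rot j w).re} ∧
      M.Con (G j) (d j) (e j)) :
    ∃ Γ ⊆ G 0 ∪ G 1 ∪ G 2 ∪ G 3, (∀ y ∈ Γ, M.Con Γ (d 0) y) ∧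
      M.Wall Γ (d 0) (p ⁻¹' inn) (p ⁻¹' out) := by
  obtain ⟨s₀, d₀, e₀, c₀⟩ := hG 0 (by norm_num)
  obtain ⟨s₁, d₁, e₁, c₁⟩ := hG 1 (by norm_num)
  obtain ⟨s₂, d₂, e₂, c₂⟩ := hG 2 (by norm_num)
  obtain ⟨s₃, d₃, e₃, c₃⟩ := hG 3 (by norm_num)
  have r₀ : rect (14 / 5) (21 / 10) (12 / 5) 0 ⊆ crect (-(14 / 5)) (14 / 5) (21 / 10) (12 / 5) :=
    fun w hw => by
      obtain ⟨a, b, c, d⟩ := nwall_rect hw
      obtain ⟨⟨x, y⟩, -⟩ := nwall_rot w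
      exact ⟨⟨by linarith, by linarith⟩, by linarith, by linarith⟩
  have r₁ : rect (14 / 5) (21 / 10) (12 / 5) 1 ⊆
      crect (-(12 / 5)) (-(21 / 10)) (-(14 / 5)) (14 / 5) := fun w hw => by
    obtain ⟨a, b, c, d⟩ := nwall_rect hw
    obtain ⟨-, ⟨x, y⟩, -⟩ := nwall_rot w
    exact ⟨⟨by linarith, by linarith⟩, by linarith, by linarith⟩
  have r₂ : rect (14 / 5) (21 / 10) (12 / 5) 2 ⊆
      crect (-(14 / 5)) (14 / 5) (-(12 / 5)) (-(21 / 10)) := fun w hw => by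
    obtain ⟨a, b, c, d⟩ := nwall_rect hw
    obtain ⟨-, -, ⟨x, y⟩, -⟩ := nwall_rot w
    exact ⟨⟨by linarith, by linarith⟩, by linarith, by linarith⟩
  have r₃ : rect (14 / 5) (21 / 10) (12 / 5) 3 ⊆ crect (21 / 10) (12 / 5) (-(14 / 5)) (14 / 5) :=
    fun w hw => by
      obtain ⟨a, b, c, d⟩ := nwall_rect hw
      obtain ⟨-, -, -, x, y⟩ := nwall_rot w
      exact ⟨⟨by linarith, by linarith⟩, by linarith, by linarith⟩
  obtain ⟨k₁, k₂, k₃, k⟩ := nwall_main h (T := G 0 ∩ {x | M.Con (G 0) (d 0) x})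
    (L := G 1 ∩ {x | M.Con (G 1) (d 1) x}) (B := G 2 ∩ {x | M.Con (G 2) (d 2) x})
    (R := G 3 ∩ {x | M.Con (G 3) (d 3) x})
    ⟨inter_subset_left.trans (s₀.trans (ed_mono (preimage_mono r₀))),
      ⟨⟨(r₀ d₀.1).1.1, ((nwall_rot _).1.1.symm.trans_lt d₀.2).le⟩, (r₀ d₀.1).2⟩,
      ⟨⟨(e₀.2.trans_eq (nwall_rot _).1.1).le, (r₀ e₀.1).1.2⟩, (r₀ e₀.1).2⟩, c₀.comp⟩
    ⟨inter_subset_left.trans (s₁.trans (ed_mono (preimage_mono r₁))),
      ⟨(r₁ d₁.1).1, (r₁ d₁.1).2.1, ((nwall_rot _).2.1.1.symm.trans_lt d₁.2).le⟩,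
      ⟨(r₁ e₁.1).1, (e₁.2.trans_eq (nwall_rot _).2.1.1).le, (r₁ e₁.1).2.2⟩, c₁.comp⟩
    ⟨inter_subset_left.trans (s₂.trans (ed_mono (preimage_mono r₂))),
      ⟨⟨(r₂ e₂.1).1.1, (lt_neg.1 (e₂.2.trans_eq (nwall_rot _).2.2.1.1)).le⟩, (r₂ e₂.1).2⟩,
      ⟨⟨(neg_lt_neg_iff.1 ((nwall_rot _).2.2.1.1.symm.trans_lt d₂.2)).le, (r₂ d₂.1).1.2⟩,
        (r₂ d₂.1).2⟩, c₂.comp.symm⟩
    ⟨inter_subset_left.trans (s₃.trans (ed_mono (preimage_mono r₃))),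
      ⟨(r₃ e₃.1).1, (r₃ e₃.1).2.1, (lt_neg.1 (e₃.2.trans_eq (nwall_rot _).2.2.2.1)).le⟩,
      ⟨(r₃ d₃.1).1, (neg_lt_neg_iff.1 ((nwall_rot _).2.2.2.1.symm.trans_lt d₃.2)).le,
        (r₃ d₃.1).2.2⟩, c₃.comp.symm⟩
  have hb : ∀ y ∈ G 0 ∩ {x | M.Con (G 0) (d 0) x} ∪ (G 1 ∩ {x | M.Con (G 1) (d 1) x} ∪
      G 2 ∩ {x | M.Con (G 2) (d 2) x} ∪ G 3 ∩ {x | M.Con (G 3) (d 3) x}),
      M.Con (G 0 ∩ {x | M.Con (G 0) (d 0) x} ∪ (G 1 ∩ {x | M.Con (G 1) (d 1) x} ∪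
        G 2 ∩ {x | M.Con (G 2) (d 2) x} ∪ G 3 ∩ {x | M.Con (G 3) (d 3) x})) (d 0) y := by
    rintro y (hy | (hy | hy) | hy)
    · exact (Con.comp hy.2).mono subset_union_left
    · exact k₁.trans ((Con.comp hy.2).mono fun _ e => .inr (.inl (.inl e)))
    · exact k₂.trans ((c₂.comp.symm.trans (Con.comp hy.2)).mono fun _ e => .inr (.inl (.inr e)))
    · exact k₃.trans ((c₃.comp.symm.trans (Con.comp hy.2)).mono fun _ e => .inr (.inr e))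
  refine ⟨_, ?_, hb, wall_of_pd hb k⟩
  rintro y (hy | (hy | hy) | hy)
  exacts [.inl (.inl (.inl hy.1)), .inl (.inl (.inr hy.1)), .inl (.inr hy.1), .inr hy.1]

/-- A short wall. -/
theorem Fine.wall (h : M.Fine p 20 (1 / 1000000)) {x : ℝ} (hr : M.Ring p x) {ρ : M.D → ℝ}
    (hρ : M.IsW ρ) : ∃ Γ ⊆ M.ed (p ⁻¹' ann 0 2 4), ∃ b, p b ∈ ann 0 2 4 ∧
      (∀ y ∈ Γ, M.Con Γ b y) ∧ M.wt ρ Γ ≤ 4 * √(x * M.sq (p ⁻¹' ann 0 2 4) ρ) ∧
      M.Wall Γ b (p ⁻¹' inn) (p ⁻¹' out) := by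
  have : Nonempty M.D := ⟨(h.dense 0 (by norm_num)).choose⟩
  choose! G hG d hd e he hc hw using fun j hj => hr j hj ρ hρ
  obtain ⟨Γ, h1, h2, h3⟩ := h.wall_of (G := G) (d := d) (e := e)
    fun j hj => ⟨hG j hj, hd j hj, he j hj, hc j hj⟩
  have hs : ∀ j, rect (14 / 5) (21 / 10) (12 / 5) j ⊆ ann 0 2 4 := fun j w hw =>
    ⟨lt_trans (by norm_num) (rect_subset_ann j hw).1, (rect_subset_ann j hw).2.trans (by norm_num)⟩
  have hG' : ∀ j < 4, G j ⊆ M.ed (p ⁻¹' ann 0 2 4) := fun j hj =>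
    (hG j hj).trans (ed_mono (preimage_mono (hs j)))
  have hw' : ∀ j < 4, M.wt ρ (G j) ≤ √(x * M.sq (p ⁻¹' ann 0 2 4) ρ) := fun j hj => by
    refine (hw j hj).trans ?_
    rcases le_total 0 x with hx | hx
    · exact Real.sqrt_le_sqrt (mul_le_mul_of_nonneg_left (sq_mono (preimage_mono (hs j)) ρ) hx)
    · rw [Real.sqrt_eq_zero'.2 (mul_nonpos_of_nonpos_of_nonneg hx (sq_nonneg' _ ρ))]
      exact Real.sqrt_nonneg _
  refine ⟨Γ, h1.trans (union_subset (union_subset (union_subset (hG' 0 (by norm_num))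
    (hG' 1 (by norm_num))) (hG' 2 (by norm_num))) (hG' 3 (by norm_num))), d 0,
    hs 0 (hd 0 (by norm_num)).1, h2, (wt_mono hρ.1 h1).trans ?_, h3⟩
  linarith [wt_union hρ.1 (G 0 ∪ G 1 ∪ G 2) (G 3), wt_union hρ.1 (G 0 ∪ G 1) (G 2),
    wt_union hρ.1 (G 0) (G 1), hw' 0 (by norm_num), hw' 1 (by norm_num), hw' 2 (by norm_num),
    hw' 3 (by norm_num)]

end FMap

end Pool.Agent.QL
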