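import Pool.Agent.P.MP_7a6434d8_pr.QL.Net.Conn

/-! Block NET: weights and the bilinear form of the energy. -/

open Set Filter Topology Metric
open scoped ENNReal

namespace Pool.Agent.QL

open Pool.Agent.LGD

namespace FMap

variable {M : FMap} {Γ Δ K K' : Set M.D} {d e x : M.D} {f g ρ : M.D → ℝ}

theorem nwt_half {u v : M.D → ℝ} (h : ∀ d, u d ≤ v d) : 1 / 2 * ∑ d, u d ≤ 1 / 2 * ∑ d, v d :=
  mul_le_mul_of_nonneg_left (Finset.sum_le_sum fun d _ => h d) (by norm_num)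

theorem nwt_alpha : (M.α d ∈ K ∧ M.α (M.α d) ∈ K) ↔ (d ∈ K ∧ M.α d ∈ K) := by
  rw [M.α_α, and_comm]

theorem wt_nonneg (h : ∀ d, 0 ≤ ρ d) (Γ : Set M.D) : 0 ≤ M.wt ρ Γ :=
  Finset.sum_nonneg fun d _ => by
    split_ifs
    exacts [h d, le_rfl]

theorem wt_mono (h : ∀ d, 0 ≤ ρ d) (hs : Γ ⊆ Δ) : M.wt ρ Γ ≤ M.wt ρ Δ :=
  Finset.sum_le_sum fun d _ => by
    split_ifs with h1 h2
    exacts [le_rfl, absurd (hs h1) h2, h d, le_rfl]

theorem wt_congr (h : ∀ d ∈ Γ, f d = g d) : M.wt f Γ = M.wt g Γ :=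
  Finset.sum_congr rfl fun d _ => by
    split_ifs with h1
    exacts [h d h1, rfl]

theorem wt_eq_zero (h : ∀ d ∈ Γ, ρ d = 0) : M.wt ρ Γ = 0 :=
  Finset.sum_eq_zero fun d _ => by
    split_ifs with h1
    exacts [h d h1, rfl]

theorem wt_union (h : ∀ d, 0 ≤ ρ d) (Γ Δ : Set M.D) :
    M.wt ρ (Γ ∪ Δ) ≤ M.wt ρ Γ + M.wt ρ Δ := by
  rw [wt, wt, wt, ← Finset.sum_add_distrib]
  refine Finset.sum_le_sum fun d _ => ?_
  have := h d
  by_cases h1 : d ∈ Γ <;> by_cases h2 : d ∈ Δ <;> simp [h1, h2, this]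

theorem wt_biUnion (h : ∀ d, 0 ≤ ρ d) {ι : Type} (T : Finset ι) (G : ι → Set M.D) :
    M.wt ρ (⋃ i ∈ T, G i) ≤ ∑ i ∈ T, M.wt ρ (G i) := by
  classical
  induction T using Finset.induction_on with
  | empty => exact (wt_eq_zero (by simp)).trans_le (by simp)
  | insert i T hi ih =>
    rw [Finset.set_biUnion_insert, Finset.sum_insert hi]
    exact (wt_union h _ _).trans (add_le_add le_rfl ih)

theorem sq_nonneg' (K : Set M.D) (ρ : M.D → ℝ) : 0 ≤ M.sq K ρ :=
  mul_nonneg (by norm_num) (Finset.sum_nonneg fun d _ => by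
    split_ifs
    exacts [sq_nonneg _, le_rfl])

theorem sq_mono (h : K ⊆ K') (ρ : M.D → ℝ) : M.sq K ρ ≤ M.sq K' ρ :=
  nwt_half fun d => by
    split_ifs with h1 h2
    exacts [le_rfl, absurd ⟨h h1.1, h h1.2⟩ h2, sq_nonneg _, le_rfl]

theorem sq_le_of_supp (h : ∀ d, d ∉ M.ed K → ρ d = 0) (K' : Set M.D) :
    M.sq K' ρ ≤ M.sq K ρ :=
  nwt_half fun d => by
    split_ifs with h1 h2
    exacts [le_rfl, by rw [h d h2]; simp, sq_nonneg _, le_rfl]

theorem en_nonneg (K : Set M.D) (f : M.D → ℝ) : 0 ≤ M.en K f :=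
  sq_nonneg' K fun d => f (M.α d) - f d

theorem en_mono (h : K ⊆ K') (f : M.D → ℝ) : M.en K f ≤ M.en K' f :=
  sq_mono h fun d => f (M.α d) - f d

theorem isW_grad (K : Set M.D) (f : M.D → ℝ) : M.IsW (M.grad K f) := by
  classical
  refine ⟨fun d => ?_, fun d => if_congr nwt_alpha (by rw [M.α_α, abs_sub_comm]) rfl⟩
  unfold grad
  split_ifs
  exacts [abs_nonneg _, le_rfl]

theorem grad_of_mem (h : d ∈ M.ed K) : M.grad K f d = |f (M.α d) - f d| := if_pos h

theorem grad_of_not_mem (h : d ∉ M.ed K) : M.grad K f d = 0 := if_neg h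

theorem sq_grad (K : Set M.D) (f : M.D → ℝ) : M.sq K (M.grad K f) = M.en K f :=
  congrArg (1 / 2 * ·) (Finset.sum_congr rfl fun d _ => by
    split_ifs with h
    exacts [by rw [grad_of_mem h, sq_abs], rfl])

theorem bil_self (K : Set M.D) (f : M.D → ℝ) : M.bil K f f = M.en K f := by
  simp only [bil, en, pow_two]

theorem bil_comm (K : Set M.D) (f g : M.D → ℝ) : M.bil K f g = M.bil K g f := by
  simp only [bil, mul_comm]

theorem bil_add (K : Set M.D) (f g g' : M.D → ℝ) :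
    M.bil K f (fun d => g d + g' d) = M.bil K f g + M.bil K f g' := by
  rw [bil, bil, bil, ← mul_add, ← Finset.sum_add_distrib]
  refine congrArg (1 / 2 * ·) (Finset.sum_congr rfl fun d _ => ?_)
  split_ifs <;> ring

theorem bil_sub (K : Set M.D) (f g g' : M.D → ℝ) :
    M.bil K f (fun d => g d - g' d) = M.bil K f g - M.bil K f g' := by
  rw [bil, bil, bil, ← mul_sub, ← Finset.sum_sub_distrib]
  refine congrArg (1 / 2 * ·) (Finset.sum_congr rfl fun d _ => ?_)
  split_ifs <;> ring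

theorem bil_mul (K : Set M.D) (f g : M.D → ℝ) (c : ℝ) :
    M.bil K f (fun d => c * g d) = c * M.bil K f g := by
  rw [bil, bil, mul_left_comm, Finset.mul_sum _ _ c]
  refine congrArg (1 / 2 * ·) (Finset.sum_congr rfl fun d _ => ?_)
  split_ifs <;> ring

theorem bil_const (K : Set M.D) (f : M.D → ℝ) (c : ℝ) : M.bil K f (fun _ => c) = 0 := by
  simp [bil]

theorem bil_sum (K : Set M.D) (f : M.D → ℝ) {ι : Type} (T : Finset ι) (G : ι → M.D → ℝ) :
    M.bil K f (fun d => ∑ i ∈ T, G i d) = ∑ i ∈ T, M.bil K f (G i) := by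
  classical
  induction T using Finset.induction_on with
  | empty => simp [bil]
  | insert i T hi ih => simp only [Finset.sum_insert hi, bil_add, ih]

theorem bil_sq_le (K : Set M.D) (f g : M.D → ℝ) : M.bil K f g ^ 2 ≤ M.en K f * M.en K g := by
  classical
  have h := Finset.sum_mul_sq_le_sq_mul_sq (Finset.univ.filter fun d => d ∈ K ∧ M.α d ∈ K)
    (fun d => f (M.α d) - f d) fun d => g (M.α d) - g d
  simp only [Finset.sum_filter] at h
  rw [bil, en, en, mul_pow, mul_mul_mul_comm, ← pow_two]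
  exact mul_le_mul_of_nonneg_left h (by norm_num)

/-- Pairing with a function whose gradient is carried by `Γ`. -/
theorem bil_le_wt (h1 : ∀ d, |g (M.α d) - g d| ≤ 1)
    (h2 : ∀ d ∈ M.ed K, d ∉ Γ → M.α d ∉ Γ → g (M.α d) = g d) :
    M.bil K f g ≤ M.wt (M.grad K f) Γ := by
  classical
  have hw := isW_grad K f
  have e : M.wt (M.grad K f) Γ = 1 / 2 * ∑ d, ((if d ∈ Γ then M.grad K f d else 0) +
      if M.α d ∈ Γ then M.grad K f (M.α d) else 0) := by
    rw [Finset.sum_add_distrib, Equiv.sum_comp M.α fun d => if d ∈ Γ then M.grad K f d else 0, wt]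
    ring
  rw [e]
  refine nwt_half fun d => ?_
  have h0 := hw.1 d
  rw [hw.2]
  by_cases h : d ∈ M.ed K
  · have h3 : (f (M.α d) - f d) * (g (M.α d) - g d) ≤ M.grad K f d := by
      rw [grad_of_mem h]
      exact (le_abs_self _).trans ((abs_mul _ _).trans_le
        (mul_le_of_le_one_right (abs_nonneg _) (h1 d)))
    rw [if_pos (show d ∈ K ∧ M.α d ∈ K from h)]
    split_ifs with h4 h5 h5
    exacts [by linarith, by linarith, by linarith, by rw [h2 d h h4 h5]; simp]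
  · rw [if_neg (show ¬ (d ∈ K ∧ M.α d ∈ K) from h)]
    split_ifs <;> linarith

open Classical in
theorem nwt_bil (K : Set M.D) (f g : M.D → ℝ) :
    M.bil K f g = -∑ d, if d ∈ K ∧ M.α d ∈ K then (f (M.α d) - f d) * g d else 0 := by
  have e : ∑ d, (if d ∈ K ∧ M.α d ∈ K then (f (M.α d) - f d) * (g (M.α d) - g d) else 0) =
      ∑ d, (-(if M.α d ∈ K ∧ M.α (M.α d) ∈ K then (f (M.α (M.α d)) - f (M.α d)) * g (M.α d) else 0)
        - if d ∈ K ∧ M.α d ∈ K then (f (M.α d) - f d) * g d else 0) :=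
    Finset.sum_congr rfl fun d _ => by
      rw [if_congr nwt_alpha rfl rfl, M.α_α]
      split_ifs <;> ring
  rw [bil, e, Finset.sum_sub_distrib, Finset.sum_neg_distrib, Equiv.sum_comp M.α
    fun d => if d ∈ K ∧ M.α d ∈ K then (f (M.α d) - f d) * g d else 0]
  ring

/-- The pairing of two indicator functions is an integer. -/
theorem bil_int (hf : ∀ d, f d = 0 ∨ f d = 1) (hg : ∀ d, g d = 0 ∨ g d = 1) :
    ∃ n : ℤ, M.bil K f g = n := by
  have h0 : ∀ {u : M.D → ℝ}, (∀ d, u d = 0 ∨ u d = 1) → ∀ d, u d ∈ (Int.castRingHom ℝ).range :=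
    fun hu d => (hu d).elim (fun e => e ▸ zero_mem _) fun e => e ▸ one_mem _
  have h : M.bil K f g ∈ (Int.castRingHom ℝ).range := by
    rw [nwt_bil]
    refine neg_mem (sum_mem fun d _ => ?_)
    split_ifs
    exacts [mul_mem (sub_mem (h0 hf _) (h0 hf _)) (h0 hg _), zero_mem _]
  exact h.imp fun _ h => h.symm

/-- The gradient of a vertex function sums to zero around the faces inside `K`. -/
theorem face_sum (hf : Inv M.σ f) (hg : Inv M.φ g)
    (h : ∀ d ∈ M.ed K, f (M.α d) ≠ f d → g d ≠ 0 → ∀ e, M.φ.SameCycle d e → e ∈ M.ed K) :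
    M.bil K f g = 0 := by
  classical
  let g' : M.D → ℝ := fun d => if ∀ e, M.φ.SameCycle d e → e ∈ M.ed K then g d else 0
  have h1 : ∀ d, g' (M.φ d) = g' d := fun d =>
    if_congr (by simp only [Equiv.Perm.sameCycle_apply_left]) (hg d) rfl
  have h2 : ∀ d, (if d ∈ K ∧ M.α d ∈ K then (f (M.α d) - f d) * g d else 0) =
      f (M.φ d) * g' (M.φ d) - f d * g' d := fun d => by
    rw [h1, M.φ_eq, hf, ← sub_mul]
    by_cases h3 : ∀ e, M.φ.SameCycle d e → e ∈ M.ed K
    · rw [if_pos (show d ∈ K ∧ M.α d ∈ K from h3 d (Equiv.Perm.SameCycle.refl _ _))]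
      exact congrArg _ (if_pos h3).symm
    · rw [show g' d = 0 from if_neg h3, mul_zero]
      split_ifs with h4
      · by_contra h5
        exact h3 (h d h4 (sub_ne_zero.1 (left_ne_zero_of_mul h5)) (right_ne_zero_of_mul h5))
      · rfl
  rw [nwt_bil, neg_eq_zero, Finset.sum_congr rfl fun d _ => h2 d, Finset.sum_sub_distrib,
    Equiv.sum_comp M.φ fun d => f d * g' d, sub_self]

end FMap

end Pool.Agent.QL
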